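import Mathlib

/-!
# The explicit solution of `S' = - S^2 - k B`, `B' = k S - B S`

In a Banach algebra. With `D = 1 + a S0 - b B0`, `S0 = S 0`, `B0 = B 0`, put
`R1 = S D - (cos th S0 - sin th B0)`, `R2 = B D - (sin th S0 + cos th B0)`. Then `D' = cos th S0 - sin th B0`,
`R1' = - S R1 - k R2`, `R2' = - B R1 + k R1`, `R1 0 = R2 0 = 0`: a linear equation with continuous
coefficients, so `R1 = R2 = 0` on the interval (`ODE_solution_unique_of_mem_Ioo` or Gronwall on
compact subintervals).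
-/

set_option autoImplicit false

namespace Pool.Agent.Lib.MP_3248c9_gt.Hy

open Set

/-- A solution of the linear system `x' = - S x - k y`, `y' = - B x + k x` that vanishes at `0` is
zero. -/
theorem align_linear {A : Type} [NormedRing A] [NormedAlgebra ℝ A]
    (S B x y : ℝ → A) (k : ℝ → ℝ) (ε : ℝ)
    (hS : ContinuousOn S (Ioo (-ε) ε)) (hB : ContinuousOn B (Ioo (-ε) ε))
    (hk : ContinuousOn k (Ioo (-ε) ε))
    (hx : ∀ t ∈ Ioo (-ε) ε, HasDerivAt x (-(S t * x t) - k t • y t) t)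
    (hy : ∀ t ∈ Ioo (-ε) ε, HasDerivAt y (-(B t * x t) + k t • x t) t)
    (x0 : x 0 = 0) (y0 : y 0 = 0) :
    ∀ t ∈ Ioo (-ε) ε, x t = 0 ∧ y t = 0 := by
  intro t ht
  obtain ⟨δ, h1, h2⟩ : ∃ δ, |t| < δ ∧ δ < ε := exists_between (abs_lt.mpr ⟨ht.1, ht.2⟩)
  have hδ : 0 < δ := lt_of_le_of_lt (abs_nonneg t) h1
  have hsub : Icc (-δ) δ ⊆ Ioo (-ε) ε := by
    intro r hr
    exact ⟨by linarith [hr.1], by linarith [hr.2]⟩
  obtain ⟨C1, hC1⟩ := isCompact_Icc.exists_bound_of_continuousOn (hS.mono hsub)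
  obtain ⟨C2, hC2⟩ := isCompact_Icc.exists_bound_of_continuousOn (hB.mono hsub)
  obtain ⟨C3, hC3⟩ := isCompact_Icc.exists_bound_of_continuousOn (hk.mono hsub)
  have h0 : (0 : ℝ) ∈ Icc (-δ) δ := ⟨by linarith, by linarith⟩
  have hC10 : 0 ≤ C1 := le_trans (norm_nonneg _) (hC1 0 h0)
  have hC20 : 0 ≤ C2 := le_trans (norm_nonneg _) (hC2 0 h0)
  have hC30 : 0 ≤ C3 := le_trans (norm_nonneg _) (hC3 0 h0)
  set v : ℝ → A × A → A × A :=
    fun r p => (-(S r * p.1) - k r • p.2, -(B r * p.1) + k r • p.1) with hv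
  have hlip : ∀ r ∈ Ioo (-δ) δ, LipschitzOnWith (Real.toNNReal (C1 + C2 + C3)) (v r) univ := by
    intro r hr
    have hr' : r ∈ Icc (-δ) δ := ⟨hr.1.le, hr.2.le⟩
    refine LipschitzOnWith.of_dist_le_mul ?_
    intro p _ q _
    rw [Real.coe_toNNReal _ (by positivity), dist_eq_norm, dist_eq_norm]
    have e : v r p - v r q = (-(S r * (p.1 - q.1)) - k r • (p.2 - q.2),
        -(B r * (p.1 - q.1)) + k r • (p.1 - q.1)) := by
      simp only [hv, Prod.mk_sub_mk, mul_sub, smul_sub]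
      congr 1 <;> abel
    rw [e, Prod.norm_def]
    have n1 : ‖p.1 - q.1‖ ≤ ‖p - q‖ := norm_fst_le (p - q)
    have n2 : ‖p.2 - q.2‖ ≤ ‖p - q‖ := norm_snd_le (p - q)
    have hn := norm_nonneg (p - q)
    have a1 : ‖S r * (p.1 - q.1)‖ ≤ C1 * ‖p - q‖ :=
      le_trans (norm_mul_le _ _) (mul_le_mul (hC1 r hr') n1 (norm_nonneg _) hC10)
    have a2 : ‖B r * (p.1 - q.1)‖ ≤ C2 * ‖p - q‖ :=
      le_trans (norm_mul_le _ _) (mul_le_mul (hC2 r hr') n1 (norm_nonneg _) hC20)
    have a3 : ‖k r • (p.2 - q.2)‖ ≤ C3 * ‖p - q‖ := by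
      rw [norm_smul]
      exact mul_le_mul (hC3 r hr') n2 (norm_nonneg _) hC30
    have a4 : ‖k r • (p.1 - q.1)‖ ≤ C3 * ‖p - q‖ := by
      rw [norm_smul]
      exact mul_le_mul (hC3 r hr') n1 (norm_nonneg _) hC30
    refine max_le ?_ ?_
    · refine le_trans (norm_sub_le _ _) ?_
      rw [norm_neg]
      nlinarith [mul_nonneg hC20 hn]
    · refine le_trans (norm_add_le _ _) ?_
      rw [norm_neg]
      nlinarith [mul_nonneg hC10 hn]
  have hsub' : Ioo (-δ) δ ⊆ Ioo (-ε) ε := fun r hr => hsub ⟨hr.1.le, hr.2.le⟩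
  have key := ODE_solution_unique_of_mem_Ioo (v := v) (s := fun _ => univ)
    (K := Real.toNNReal (C1 + C2 + C3)) (f := fun r => (x r, y r)) (g := fun _ => (0, 0))
    (t₀ := 0) (a := -δ) (b := δ) hlip ⟨by linarith, hδ⟩
    (fun r hr => ⟨(hx r (hsub' hr)).prodMk (hy r (hsub' hr)), mem_univ _⟩)
    (fun r _ => ⟨by
      have := hasDerivAt_const r ((0, 0) : A × A)
      convert this using 1
      simp [hv], mem_univ _⟩)
    (by simp [x0, y0])
  have htδ : t ∈ Ioo (-δ) δ := abs_lt.mp h1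
  have := key htδ
  simpa [Prod.ext_iff] using this

theorem align {A : Type} [NormedRing A] [NormedAlgebra ℝ A] [CompleteSpace A]
    (S B : ℝ → A) (k a b th : ℝ → ℝ) (ε : ℝ) (hε : 0 < ε)
    (hS : ∀ t ∈ Ioo (-ε) ε, HasDerivAt S (-(S t * S t) - k t • B t) t)
    (hB : ∀ t ∈ Ioo (-ε) ε, HasDerivAt B (k t • S t - B t * S t) t)
    (hk : ContinuousOn k (Ioo (-ε) ε))
    (ha : ∀ t ∈ Ioo (-ε) ε, HasDerivAt a (Real.cos (th t)) t)
    (hb : ∀ t ∈ Ioo (-ε) ε, HasDerivAt b (Real.sin (th t)) t)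
    (hth : ∀ t ∈ Ioo (-ε) ε, HasDerivAt th (k t) t)
    (a0 : a 0 = 0) (b0 : b 0 = 0) (th0 : th 0 = 0) :
    ∀ t ∈ Ioo (-ε) ε,
      S t * (1 + a t • S 0 - b t • B 0) = Real.cos (th t) • S 0 - Real.sin (th t) • B 0 ∧
      B t * (1 + a t • S 0 - b t • B 0) = Real.sin (th t) • S 0 + Real.cos (th t) • B 0 := by
  have hSc : ContinuousOn S (Ioo (-ε) ε) := fun t ht => (hS t ht).continuousAt.continuousWithinAt
  have hBc : ContinuousOn B (Ioo (-ε) ε) := fun t ht => (hB t ht).continuousAt.continuousWithinAt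
  have key := align_linear S B
    (fun t => S t * (1 + a t • S 0 - b t • B 0) -
      (Real.cos (th t) • S 0 - Real.sin (th t) • B 0))
    (fun t => B t * (1 + a t • S 0 - b t • B 0) -
      (Real.sin (th t) • S 0 + Real.cos (th t) • B 0))
    k ε hSc hBc hk ?_ ?_ ?_ ?_
  · intro t ht
    obtain ⟨h1, h2⟩ := key t ht
    exact ⟨sub_eq_zero.mp h1, sub_eq_zero.mp h2⟩
  · intro t ht
    have hD : HasDerivAt (fun r => 1 + a r • S 0 - b r • B 0)
        (Real.cos (th t) • S 0 - Real.sin (th t) • B 0) t := by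
      have h := (((ha t ht).smul_const (S 0)).const_add 1).sub ((hb t ht).smul_const (B 0))
      exact h
    have hc : HasDerivAt (fun r => Real.cos (th r) • S 0) ((-Real.sin (th t) * k t) • S 0) t :=
      ((hth t ht).cos).smul_const (S 0)
    have hs : HasDerivAt (fun r => Real.sin (th r) • B 0) ((Real.cos (th t) * k t) • B 0) t :=
      ((hth t ht).sin).smul_const (B 0)
    refine (((hS t ht).mul hD).sub (hc.sub hs)).congr_deriv ?_
    simp only [mul_add, mul_sub, sub_mul, neg_mul, mul_smul_comm, smul_mul_assoc, smul_neg,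
      smul_sub, smul_add, smul_smul, neg_smul, mul_assoc, mul_comm (k t)]
    abel
  · intro t ht
    have hD : HasDerivAt (fun r => 1 + a r • S 0 - b r • B 0)
        (Real.cos (th t) • S 0 - Real.sin (th t) • B 0) t := by
      have h := (((ha t ht).smul_const (S 0)).const_add 1).sub ((hb t ht).smul_const (B 0))
      exact h
    have hs : HasDerivAt (fun r => Real.sin (th r) • S 0) ((Real.cos (th t) * k t) • S 0) t :=
      ((hth t ht).sin).smul_const (S 0)
    have hc : HasDerivAt (fun r => Real.cos (th r) • B 0) ((-Real.sin (th t) * k t) • B 0) t :=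
      ((hth t ht).cos).smul_const (B 0)
    refine (((hB t ht).mul hD).sub (hs.add hc)).congr_deriv ?_
    simp only [mul_add, mul_sub, sub_mul, neg_mul, mul_smul_comm, smul_mul_assoc, smul_neg,
      smul_sub, smul_add, smul_smul, neg_smul, mul_assoc, mul_comm (k t)]
    abel
  · simp [a0, b0, th0]
  · simp [a0, b0, th0]

end Pool.Agent.Lib.MP_3248c9_gt.Hy
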