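import Mathlib

/-!
# The angle and the planar curve with a given curvature

`th t = integral of k over [0, t]`, then `a, b` = integrals of `cos th, sin th`
(`intervalIntegral.integral_hasDerivAt_right`; on `Ioo` only, extend nothing: use continuity on the
open interval).
-/

set_option autoImplicit false

namespace Pool.Agent.Lib.MP_3248c9_gt.Hy

open Set

/-- A continuous function on a symmetric open interval has a primitive vanishing at `0`. -/
theorem angle_primitive (f : ℝ → ℝ) (ε : ℝ) (hε : 0 < ε) (hf : ContinuousOn f (Ioo (-ε) ε)) :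
    ∃ F : ℝ → ℝ, F 0 = 0 ∧ ∀ t ∈ Ioo (-ε) ε, HasDerivAt F (f t) t := by
  refine ⟨fun t => ∫ x in (0 : ℝ)..t, f x, intervalIntegral.integral_same, ?_⟩
  intro t ht
  have h0 : (0 : ℝ) ∈ Ioo (-ε) ε := ⟨by linarith, hε⟩
  have hsub : uIcc (0 : ℝ) t ⊆ Ioo (-ε) ε := by
    intro x hx
    exact (Set.ordConnected_Ioo).uIcc_subset h0 ht hx
  have hint : IntervalIntegrable f MeasureTheory.volume 0 t :=
    (hf.mono hsub).intervalIntegrable
  refine intervalIntegral.integral_hasDerivAt_right hint ?_ ?_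
  · exact ContinuousOn.stronglyMeasurableAtFilter isOpen_Ioo hf t ht
  · exact hf.continuousAt (isOpen_Ioo.mem_nhds ht)

theorem exists_angle (k : ℝ → ℝ) (ε : ℝ) (hε : 0 < ε) (hk : ContinuousOn k (Ioo (-ε) ε)) :
    ∃ a b th : ℝ → ℝ, a 0 = 0 ∧ b 0 = 0 ∧ th 0 = 0 ∧
      (∀ t ∈ Ioo (-ε) ε, HasDerivAt a (Real.cos (th t)) t) ∧
      (∀ t ∈ Ioo (-ε) ε, HasDerivAt b (Real.sin (th t)) t) ∧
      (∀ t ∈ Ioo (-ε) ε, HasDerivAt th (k t) t) := by
  obtain ⟨th, th0, hth⟩ := angle_primitive k ε hε hk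
  have hc : ContinuousOn th (Ioo (-ε) ε) := fun t ht => (hth t ht).continuousAt.continuousWithinAt
  obtain ⟨a, a0, ha⟩ := angle_primitive (fun t => Real.cos (th t)) ε hε
    (Real.continuous_cos.comp_continuousOn hc)
  obtain ⟨b, b0, hb⟩ := angle_primitive (fun t => Real.sin (th t)) ε hε
    (Real.continuous_sin.comp_continuousOn hc)
  exact ⟨a, b, th, a0, b0, th0, ha, hb, hth⟩

end Pool.Agent.Lib.MP_3248c9_gt.Hy
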