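import Pool.Agent.Lib.MP_3248c9_gt.Hy.Zero

/-!
# The turning is finite

`th` is continuous and nondecreasing on `[0, oo)` (`th' = P k > 0`). If it were unbounded it would
take every value `>= th 0` (intermediate value theorem), in particular a value with
`(-sin th, cos th) = (s_i, -c_i)/sqrt(s_i^2 + c_i^2)`, i.e. `g_i = sqrt(s_i^2 + c_i^2)`, which
contradicts `Ray.focal` (`s_i^2 + c_i^2 > 0` since `d_i(X_e) = 0`; angles: `Complex.arg` or
`Real.Angle`, add a multiple of `2 pi`).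
-/

set_option autoImplicit false

namespace Pool.Agent.Lib.MP_3248c9_gt.Hy

open Finset Filter Topology

variable {ι : Type} [Fintype ι] [DecidableEq ι] {s c : ι → ℝ} {a b th k m : ℝ → ℝ} {x y : ℝ}

theorem Ray.th_mono (h : Ray s c (Set.Ici 0) a b th k m) : MonotoneOn th (Set.Ici 0) := by
  refine monotoneOn_of_deriv_nonneg (convex_Ici 0)
    (fun t ht => (h.hth t ht).continuousAt.continuousWithinAt) (fun t ht => ?_) (fun t ht => ?_)
  · rw [interior_Ici] at ht
    exact (h.hth t (Set.mem_Ici.2 (le_of_lt ht))).differentiableAt.differentiableWithinAt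
  · rw [interior_Ici] at ht
    have ht' : (0 : ℝ) ≤ t := le_of_lt ht
    rw [(h.hth t ht').deriv]
    exact mul_nonneg (Finset.prod_pos fun i _ => h.pos t ht' i).le (h.k_pos ht').le

/-- an angle at which the derivative of `d_i` in the normal direction is maximal -/
private theorem Bdd_angle (S p q : ℝ) (hS : 0 < S) (h : S ^ 2 = p ^ 2 + q ^ 2) :
    ∃ ψ : ℝ, Real.cos ψ = -q / S ∧ Real.sin ψ = -p / S := by
  have hn : ‖(⟨-q, -p⟩ : ℂ)‖ = S := by
    rw [← abs_of_pos hS, ← Real.sqrt_sq_eq_abs, h, Complex.norm_def, Complex.normSq_mk]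
    congr 1
    ring
  have h0 : (⟨-q, -p⟩ : ℂ) ≠ 0 := by
    intro h0
    rw [h0, norm_zero] at hn
    exact hS.ne hn
  refine ⟨Complex.arg ⟨-q, -p⟩, ?_, ?_⟩
  · rw [Complex.cos_arg h0, hn]
  · rw [Complex.sin_arg, hn]

theorem Ray.th_bdd (h : Ray s c (Set.Ici 0) a b th k m) (he : EndPt a b th k x y) :
    ∃ M : ℝ, ∀ t, 0 ≤ t → th t ≤ M := by
  by_contra hcon
  push Not at hcon
  obtain ⟨i, hi⟩ := h.exists_zero he
  have hsq : 0 < s i ^ 2 + c i ^ 2 := by
    have h0 : 0 ≤ s i ^ 2 + c i ^ 2 := add_nonneg (sq_nonneg _) (sq_nonneg _)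
    rcases h0.eq_or_lt with h1 | h1
    · exfalso
      have h2 : s i = 0 := by nlinarith [sq_nonneg (s i), sq_nonneg (c i)]
      have h3 : c i = 0 := by nlinarith [sq_nonneg (s i), sq_nonneg (c i)]
      rw [dv, h2, h3] at hi
      norm_num at hi
    · exact h1
  set S := Real.sqrt (s i ^ 2 + c i ^ 2) with hSdef
  have hS : 0 < S := Real.sqrt_pos.2 hsq
  have hS2 : S ^ 2 = s i ^ 2 + c i ^ 2 := Real.sq_sqrt hsq.le
  obtain ⟨ψ, hψ1, hψ2⟩ := Bdd_angle S (s i) (c i) hS hS2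
  obtain ⟨N, hN⟩ := exists_nat_ge ((th 0 - ψ) / (2 * Real.pi))
  have hpi : 0 < 2 * Real.pi := Real.two_pi_pos
  have hN2 : th 0 ≤ ψ + N * (2 * Real.pi) := by
    rw [div_le_iff₀ hpi] at hN
    linarith
  obtain ⟨t1, ht1, ht1'⟩ := hcon (ψ + N * (2 * Real.pi))
  have hcont : ContinuousOn th (Set.Icc 0 t1) := fun t ht =>
    (h.hth t ht.1).continuousAt.continuousWithinAt
  obtain ⟨t, ht, hte⟩ := intermediate_value_Icc ht1 hcont ⟨hN2, ht1'.le⟩
  have hf := h.focal he hi ht.1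
  rw [← hSdef, gv, hte, Real.sin_add_nat_mul_two_pi, Real.cos_add_nat_mul_two_pi, hψ1, hψ2] at hf
  have hval : -(s i * (-s i / S) + c i * (-c i / S)) = S := by
    field_simp
    linarith
  rw [hval] at hf
  exact lt_irrefl _ hf

end Pool.Agent.Lib.MP_3248c9_gt.Hy
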