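import Pool.Agent.Lib.MP_3248c9_gt.Hy.CMet

/-!
# The Laplace-Beltrami operator in non-divergence form

`lb f u x = sum_ij g^{ij} (D^2u(e_i, e_j) - Du(Jm D^2f(e_i, e_j)))`.

Proof. Write `G_{ik,l} = <D^2f(e_i, e_k), d_l f>`, `W = sqrt (det g)`. `d_i g_{kl} = G_{ik,l} + G_{il,k}`. By `fderiv_det`,
`d_i W = (1/2) W sum_{kl} g^{kl} d_i g_{kl} = W sum_{kl} g^{kl} G_{ik,l}` (symmetry of `g^{kl}`); by `fderiv_inv`,
`d_i g^{ij} = - sum_{kl} g^{ik} (G_{ik,l} + G_{il,k}) g^{lj}`. So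
`lb f u = sum_ij g^{ij} d_i d_j u + sum_j c_j d_j u` with
`c_j = sum_i [ g^{ij} sum_{kl} g^{kl} G_{ik,l} - sum_{kl} g^{ik} G_{ik,l} g^{lj} - sum_{kl} g^{ik} G_{il,k} g^{lj} ]`.
The first and the third sums are equal: `sum_{i,k,l} g^{ij} g^{kl} G_{ik,l}` and `sum_{i,k,l} g^{lj} g^{ik} G_{il,k}`
(exchange the names `i <-> l`, use `G_{li,k}= G_{il,k}` (symmetry of `D^2f`) and the symmetry of `g^{ik}`). There remains
`c_j = - sum_{ikl} g^{ik} G_{ik,l} g^{lj}`, and `Jm D^2f(e_i, e_k) = sum_{jl} g^{jl} G_{ik,l} e_j`.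
-/

set_option autoImplicit false

namespace Pool.Agent.Lib.MP_3248c9_gt.Hy

open Set
open scoped ContDiff

variable {n m : ℕ} {U : Set (Eu n)} {f : Eu n → Eu m} {x : Eu n}

private theorem clb_at (h : Imc U f) (hx : x ∈ U) : ContDiffAt ℝ ∞ f x :=
  h.fs.contDiffAt (h.op.mem_nhds hx)

private theorem clb_d2 {u : Eu n → Eu m} (hu : ContDiffAt ℝ ∞ u x) (k : Fin n) :
    HasFDerivAt (fun y => fderiv ℝ u y (bs k)) ((fderiv ℝ (fderiv ℝ u) x).flip (bs k)) x := by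
  have h1 : DifferentiableAt ℝ (fderiv ℝ u) x :=
    (hu.fderiv_right (m := ∞) (by simp)).differentiableAt (by simp)
  have h2 := h1.hasFDerivAt.clm_apply (hasFDerivAt_const (bs k) x)
  refine h2.congr_fderiv ?_
  ext v
  simp

/-- Symmetry of the second derivative. -/
theorem Imc.f2_symm (h : Imc U f) (hx : x ∈ U) (v w : Eu n) :
    fderiv ℝ (fderiv ℝ f) x v w = fderiv ℝ (fderiv ℝ f) x w v :=
  ((clb_at h hx).isSymmSndFDerivAt (by
    rw [minSmoothness_of_isRCLikeNormedField]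
    exact WithTop.coe_le_coe.mpr le_top)).eq v w

private theorem clb_gm (h : Imc U f) (hx : x ∈ U) (k l : Fin n) :
    DifferentiableAt ℝ (fun y => gm f y k l) x :=
  ((h.gm_smooth k l).contDiffAt (h.op.mem_nhds hx)).differentiableAt (by simp)

theorem Imc.fderiv_gm (h : Imc U f) (hx : x ∈ U) (i k l : Fin n) :
    fderiv ℝ (fun y => gm f y k l) x (bs i) =
      inner ℝ (fderiv ℝ (fderiv ℝ f) x (bs i) (bs k)) (fderiv ℝ f x (bs l)) +
        inner ℝ (fderiv ℝ (fderiv ℝ f) x (bs i) (bs l)) (fderiv ℝ f x (bs k)) := by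
  have hk := clb_d2 (clb_at h hx) k
  have hl := clb_d2 (clb_at h hx) l
  have h1 := hk.inner ℝ hl
  have h2 : fderiv ℝ (fun y => gm f y k l) x = _ := h1.fderiv
  rw [h2]
  simp only [ContinuousLinearMap.comp_apply, ContinuousLinearMap.prod_apply,
    fderivInnerCLM_apply, ContinuousLinearMap.flip_apply]
  rw [real_inner_comm, add_comm]

theorem Imc.fderiv_sqrt (h : Imc U f) (hx : x ∈ U) (i : Fin n) :
    fderiv ℝ (fun y => Real.sqrt (gm f y).det) x (bs i) =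
      Real.sqrt (gm f x).det * ∑ k, ∑ l, (gm f x)⁻¹ k l *
        inner ℝ (fderiv ℝ (fderiv ℝ f) x (bs i) (bs k)) (fderiv ℝ f x (bs l)) := by
  have hdet := h.det_pos hx
  have hdd : DifferentiableAt ℝ (fun y => (gm f y).det) x :=
    differentiableAt_det fun k l => clb_gm h hx k l
  rw [_root_.fderiv_sqrt hdd hdet.ne', smul_apply,
    fderiv_det (fun k l => clb_gm h hx k l) hdet.ne', smul_eq_mul]
  have hsum : ∑ k, ∑ l, (gm f x)⁻¹ l k * fderiv ℝ (fun y => gm f y k l) x (bs i) =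
      2 * ∑ k, ∑ l, (gm f x)⁻¹ k l *
        inner ℝ (fderiv ℝ (fderiv ℝ f) x (bs i) (bs k)) (fderiv ℝ f x (bs l)) := by
    have e1 : ∀ k l, (gm f x)⁻¹ l k * fderiv ℝ (fun y => gm f y k l) x (bs i) =
        (gm f x)⁻¹ k l *
          inner ℝ (fderiv ℝ (fderiv ℝ f) x (bs i) (bs k)) (fderiv ℝ f x (bs l)) +
        (gm f x)⁻¹ l k *
          inner ℝ (fderiv ℝ (fderiv ℝ f) x (bs i) (bs l)) (fderiv ℝ f x (bs k)) := by
      intro k l
      rw [h.fderiv_gm hx, gmi_symm f x l k]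
      ring
    simp only [e1, Finset.sum_add_distrib]
    rw [two_mul]
    congr 1
    exact Finset.sum_comm
  rw [hsum]
  have hs : Real.sqrt (gm f x).det * Real.sqrt (gm f x).det = (gm f x).det :=
    Real.mul_self_sqrt hdet.le
  have hs0 : Real.sqrt (gm f x).det ≠ 0 := (Real.sqrt_pos.mpr hdet).ne'
  field_simp
  rw [sq, hs]

/-- The first order coefficient: `sum_i (g^{ij} d_i W / W + d_i g^{ij}) = - sum g^{ik} G_{ik,l} g^{lj}`. -/
theorem Imc.coef (h : Imc U f) (hx : x ∈ U) (j : Fin n) :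
    ∑ i, ((gm f x)⁻¹ i j * ∑ k, ∑ l, (gm f x)⁻¹ k l *
        inner ℝ (fderiv ℝ (fderiv ℝ f) x (bs i) (bs k)) (fderiv ℝ f x (bs l)) +
      fderiv ℝ (fun y => (gm f y)⁻¹ i j) x (bs i)) =
    -∑ i, ∑ k, ∑ l, (gm f x)⁻¹ i k *
        inner ℝ (fderiv ℝ (fderiv ℝ f) x (bs i) (bs k)) (fderiv ℝ f x (bs l)) *
          (gm f x)⁻¹ l j := by
  have e1 : ∀ i, fderiv ℝ (fun y => (gm f y)⁻¹ i j) x (bs i) =
      -(∑ k, ∑ l, (gm f x)⁻¹ i k *
          inner ℝ (fderiv ℝ (fderiv ℝ f) x (bs i) (bs k)) (fderiv ℝ f x (bs l)) *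
            (gm f x)⁻¹ l j) -
        ∑ k, ∑ l, (gm f x)⁻¹ i k *
          inner ℝ (fderiv ℝ (fderiv ℝ f) x (bs i) (bs l)) (fderiv ℝ f x (bs k)) *
            (gm f x)⁻¹ l j := by
    intro i
    rw [fderiv_inv (fun k l => clb_gm h hx k l) (h.det_pos hx).ne', ← neg_add', neg_inj,
      ← Finset.sum_add_distrib]
    refine Finset.sum_congr rfl fun k _ => ?_
    rw [← Finset.sum_add_distrib]
    refine Finset.sum_congr rfl fun l _ => ?_
    rw [h.fderiv_gm hx]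
    ring
  have e2 : ∑ i, ∑ k, ∑ l, (gm f x)⁻¹ i k *
          inner ℝ (fderiv ℝ (fderiv ℝ f) x (bs i) (bs l)) (fderiv ℝ f x (bs k)) *
            (gm f x)⁻¹ l j =
      ∑ i, (gm f x)⁻¹ i j * ∑ k, ∑ l, (gm f x)⁻¹ k l *
        inner ℝ (fderiv ℝ (fderiv ℝ f) x (bs i) (bs k)) (fderiv ℝ f x (bs l)) := by
    have e3 : ∀ i k, ∑ l, (gm f x)⁻¹ i k *
          inner ℝ (fderiv ℝ (fderiv ℝ f) x (bs i) (bs l)) (fderiv ℝ f x (bs k)) *
            (gm f x)⁻¹ l j = ∑ l, (gm f x)⁻¹ l j * ((gm f x)⁻¹ i k *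
          inner ℝ (fderiv ℝ (fderiv ℝ f) x (bs l) (bs i)) (fderiv ℝ f x (bs k))) := by
      intro i k
      refine Finset.sum_congr rfl fun l _ => ?_
      rw [h.f2_symm hx (bs i) (bs l)]
      ring
    simp only [e3, Finset.mul_sum]
    calc ∑ i, ∑ k, ∑ l, (gm f x)⁻¹ l j * ((gm f x)⁻¹ i k *
          inner ℝ (fderiv ℝ (fderiv ℝ f) x (bs l) (bs i)) (fderiv ℝ f x (bs k))) =
        ∑ i, ∑ l, ∑ k, (gm f x)⁻¹ l j * ((gm f x)⁻¹ i k *
          inner ℝ (fderiv ℝ (fderiv ℝ f) x (bs l) (bs i)) (fderiv ℝ f x (bs k))) :=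
          Finset.sum_congr rfl fun i _ => Finset.sum_comm
      _ = _ := Finset.sum_comm
  simp only [e1, Finset.sum_add_distrib, Finset.sum_sub_distrib, Finset.sum_neg_distrib]
  rw [e2]
  ring

theorem Imc.lb_eq (h : Imc U f) (hx : x ∈ U) {u : Eu n → Eu m} (hu : ContDiffAt ℝ ∞ u x) :
    lb f u x = mt f x (fun v w => fderiv ℝ (fderiv ℝ u) x v w -
      fderiv ℝ u x (Jm f x (fderiv ℝ (fderiv ℝ f) x v w))) := by
  have hdet := h.det_pos hx
  have hW0 : Real.sqrt (gm f x).det ≠ 0 := (Real.sqrt_pos.mpr hdet).ne'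
  have hWd : DifferentiableAt ℝ (fun y => Real.sqrt (gm f y).det) x :=
    (h.sqrt_smooth.contDiffAt (h.op.mem_nhds hx)).differentiableAt (by simp)
  have hgi : ∀ i j, DifferentiableAt ℝ (fun y => (gm f y)⁻¹ i j) x := fun i j =>
    ((h.gmi_smooth i j).contDiffAt (h.op.mem_nhds hx)).differentiableAt (by simp)
  -- the derivative of the flux
  have e1 : ∀ i, fderiv ℝ (fun y => Real.sqrt (gm f y).det •
      ∑ j, (gm f y)⁻¹ i j • fderiv ℝ u y (bs j)) x (bs i) =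
      Real.sqrt (gm f x).det • ∑ j, (((gm f x)⁻¹ i j * ∑ k, ∑ l, (gm f x)⁻¹ k l *
        inner ℝ (fderiv ℝ (fderiv ℝ f) x (bs i) (bs k)) (fderiv ℝ f x (bs l)) +
      fderiv ℝ (fun y => (gm f y)⁻¹ i j) x (bs i)) • fderiv ℝ u x (bs j) +
        (gm f x)⁻¹ i j • fderiv ℝ (fderiv ℝ u) x (bs i) (bs j)) := by
    intro i
    have h1 : HasFDerivAt (fun y => ∑ j, (gm f y)⁻¹ i j • fderiv ℝ u y (bs j))
        (∑ j, ((gm f x)⁻¹ i j • (fderiv ℝ (fderiv ℝ u) x).flip (bs j) +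
          (fderiv ℝ (fun y => (gm f y)⁻¹ i j) x).smulRight (fderiv ℝ u x (bs j)))) x :=
      HasFDerivAt.fun_sum fun j _ => (hgi i j).hasFDerivAt.smul (clb_d2 hu j)
    have h2 := (hWd.hasFDerivAt.fun_smul h1).fderiv
    rw [h2]
    simp only [add_apply, smul_apply,
      sum_apply, ContinuousLinearMap.smulRight_apply,
      ContinuousLinearMap.flip_apply]
    rw [h.fderiv_sqrt hx, mul_smul, ← smul_add]
    congr 1
    rw [Finset.smul_sum, ← Finset.sum_add_distrib]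
    refine Finset.sum_congr rfl fun j _ => ?_
    rw [add_smul, smul_smul, mul_comm ((gm f x)⁻¹ i j)]
    abel
  unfold lb
  simp only [e1]
  rw [← Finset.smul_sum, smul_smul, inv_mul_cancel₀ hW0, one_smul]
  simp only [Finset.sum_add_distrib]
  rw [Finset.sum_comm]
  have e2 : ∀ j, ∑ i, (((gm f x)⁻¹ i j * ∑ k, ∑ l, (gm f x)⁻¹ k l *
        inner ℝ (fderiv ℝ (fderiv ℝ f) x (bs i) (bs k)) (fderiv ℝ f x (bs l)) +
      fderiv ℝ (fun y => (gm f y)⁻¹ i j) x (bs i)) • fderiv ℝ u x (bs j)) =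
      (-∑ i, ∑ k, ∑ l, (gm f x)⁻¹ i k *
        inner ℝ (fderiv ℝ (fderiv ℝ f) x (bs i) (bs k)) (fderiv ℝ f x (bs l)) *
          (gm f x)⁻¹ l j) • fderiv ℝ u x (bs j) := by
    intro j
    rw [← Finset.sum_smul, h.coef hx]
  simp only [e2]
  unfold mt
  simp only [smul_sub, Finset.sum_sub_distrib]
  rw [add_comm, sub_eq_add_neg]
  congr 1
  rw [← Finset.sum_neg_distrib]
  have e3 : ∀ i k, (gm f x)⁻¹ i k • fderiv ℝ u x (Jm f x (fderiv ℝ (fderiv ℝ f) x (bs i) (bs k))) =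
      ∑ j, (∑ l, (gm f x)⁻¹ i k *
        inner ℝ (fderiv ℝ (fderiv ℝ f) x (bs i) (bs k)) (fderiv ℝ f x (bs l)) *
          (gm f x)⁻¹ l j) • fderiv ℝ u x (bs j) := by
    intro i k
    rw [Jm_apply, map_sum, Finset.smul_sum]
    refine Finset.sum_congr rfl fun j _ => ?_
    rw [map_sum, Finset.smul_sum, Finset.sum_smul]
    refine Finset.sum_congr rfl fun l _ => ?_
    rw [map_smul, smul_smul, real_inner_comm, gmi_symm f x j l]
    congr 1
    ring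
  simp only [e3]
  have e4 : ∀ i, ∑ k, ∑ j, (∑ l, (gm f x)⁻¹ i k *
        inner ℝ (fderiv ℝ (fderiv ℝ f) x (bs i) (bs k)) (fderiv ℝ f x (bs l)) *
          (gm f x)⁻¹ l j) • fderiv ℝ u x (bs j) =
      ∑ j, (∑ k, ∑ l, (gm f x)⁻¹ i k *
        inner ℝ (fderiv ℝ (fderiv ℝ f) x (bs i) (bs k)) (fderiv ℝ f x (bs l)) *
          (gm f x)⁻¹ l j) • fderiv ℝ u x (bs j) := by
    intro i
    rw [Finset.sum_comm]
    refine Finset.sum_congr rfl fun j _ => ?_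
    rw [Finset.sum_smul]
  simp only [e4]
  rw [Finset.sum_neg_distrib, Finset.sum_comm, ← Finset.sum_neg_distrib]
  refine Finset.sum_congr rfl fun j _ => ?_
  rw [neg_smul, Finset.sum_smul]

end Pool.Agent.Lib.MP_3248c9_gt.Hy
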