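import Pool.Agent.Lib.MP_3248c9_gt.Hy.CLapN
import Pool.Agent.Lib.MP_3248c9_gt.Hy.CLB

/-!
# The biharmonic equations of a patch

Let `φ = ph N (Jm f)`. Near `x ∈ U` the function `φ N` is smooth;
`D(φN)(w) = Dφ(w) N + φ DN(w)`, `D^2(φN)(v, w) = D^2φ(v, w) N + Dφ(w) DN(v) + Dφ(v) DN(w) + φ D^2N(v, w)`.
By `lb_eq`:
`lb f (φN) x = mt(D^2φ - Dφ(Jm D^2f)) N + 2 mt (Dφ(v) DN(w)) + φ LN` (`prod_eq`, with `mt_swap`).
* `hess_tr`: `mt (D^2φ(v, w) - Dφ(Jm D^2f(v, w))) = tr (D gr ∘ Jm)`: differentiate `Dφ(w) = <gr, Df w>` (`dph`):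
  `D^2φ(v, w) = <D_v gr, Df w> + <gr, D^2f(v, w)>` and `Dφ(Jm y) = <gr, y>` (`gr_inner`); then `mt_tr`.
* inner product with `N`: `tr (D gr ∘ Jm) + φ <LN, N> = 0` (`<DN, N> = 0`), and `LN_N`: `nrml`.
* inner product with `Df k`: `2 mt (Dφ(v) <DN w, Df k>) + φ <LN, Df k> = 0`; `DN w = - Sh Df w`,
  `mt (<gr, Df v> <Sh (Df w), Df k>) = <gr, Sh (Df k)> = <Sh gr, Df k>` (`mt_tr` with `M v = <gr, Df v> Sh (Df k)`, `dec`), `LN_tan`, `dph`:
  `- 2 <Sh gr, Df k> - φ <gr, Df k> = 0`; both `Sh gr` and `gr` are orthogonal to `N` (`ext_tan`): `tang`.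
-/

set_option autoImplicit false

namespace Pool.Agent.Lib.MP_3248c9_gt.Hy

open Set
open scoped ContDiff

variable {n m : ℕ} {U : Set (Eu n)} {f N : Eu n → Eu m} {x : Eu n}

theorem CBih_app {G : Type} [NormedAddCommGroup G] [NormedSpace ℝ G] {g : Eu n → Eu n →L[ℝ] G}
    (hg : DifferentiableAt ℝ g x) (w : Eu n) :
    HasFDerivAt (fun y => g y w) ((ContinuousLinearMap.apply ℝ G w).comp (fderiv ℝ g x)) x :=
  (ContinuousLinearMap.apply ℝ G w).hasFDerivAt.comp x hg.hasFDerivAt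

theorem CBih_d2 {G : Type} [NormedAddCommGroup G] [NormedSpace ℝ G] {g : Eu n → G}
    (hg : DifferentiableAt ℝ (fderiv ℝ g) x) (v w : Eu n) :
    fderiv ℝ (fun y => fderiv ℝ g y w) x v = fderiv ℝ (fderiv ℝ g) x v w := by
  rw [(CBih_app hg w).fderiv]
  rfl

theorem CBih_dd {G : Type} [NormedAddCommGroup G] [NormedSpace ℝ G] {g : Eu n → G}
    (hU : IsOpen U) (hg : ContDiffOn ℝ ∞ g U) (hx : x ∈ U) :
    DifferentiableAt ℝ (fderiv ℝ g) x :=
  GBasic_diff hU (hg.fderiv_of_isOpen hU (by simp)) hx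

theorem CBih_prod1 (hU : IsOpen U) {φ : Eu n → ℝ} (hφ : ContDiffOn ℝ ∞ φ U)
    (hN : ContDiffOn ℝ ∞ N U) (hx : x ∈ U) (w : Eu n) :
    fderiv ℝ (fun y => φ y • N y) x w = φ x • fderiv ℝ N x w + fderiv ℝ φ x w • N x := by
  have h1 := (GBasic_diff hU hφ hx).hasFDerivAt.smul (GBasic_diff hU hN hx).hasFDerivAt
  have h2 : fderiv ℝ (fun y => φ y • N y) x = _ := h1.fderiv
  rw [h2]
  rfl

theorem CBih_prod2 (hU : IsOpen U) {φ : Eu n → ℝ} (hφ : ContDiffOn ℝ ∞ φ U)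
    (hN : ContDiffOn ℝ ∞ N U) (hx : x ∈ U) (v w : Eu n) :
    fderiv ℝ (fderiv ℝ (fun y => φ y • N y)) x v w =
      (φ x • fderiv ℝ (fderiv ℝ N) x v w + fderiv ℝ φ x v • fderiv ℝ N x w) +
      (fderiv ℝ φ x w • fderiv ℝ N x v + fderiv ℝ (fderiv ℝ φ) x v w • N x) := by
  have h0 : DifferentiableAt ℝ (fderiv ℝ (fun y => φ y • N y)) x :=
    CBih_dd hU (hφ.smul hN) hx
  rw [← CBih_d2 h0]
  have h1 : (fun y => fderiv ℝ (fun y => φ y • N y) y w) =ᶠ[nhds x]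
      fun y => φ y • fderiv ℝ N y w + fderiv ℝ φ y w • N y := by
    filter_upwards [hU.mem_nhds hx] with y hy
    exact CBih_prod1 hU hφ hN hy w
  rw [h1.fderiv_eq]
  have h2 := (GBasic_diff hU hφ hx).hasFDerivAt.smul (CBih_app (CBih_dd hU hN hx) w)
  have h3 := (CBih_app (CBih_dd hU hφ hx) w).smul (GBasic_diff hU hN hx).hasFDerivAt
  have h4 : fderiv ℝ (fun y => φ y • fderiv ℝ N y w + fderiv ℝ φ y w • N y) x = _ :=
    (h2.add h3).fderiv
  rw [h4]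
  rfl

theorem Patch.prod_eq (hi : Imc U f) (h : Patch U f N (Jm f)) (hx : x ∈ U) {φ : Eu n → ℝ}
    (hφ : ContDiffOn ℝ ∞ φ U) :
    lb f (fun y => φ y • N y) x =
      (mt f x (fun v w => fderiv ℝ (fderiv ℝ φ) x v w -
        fderiv ℝ φ x (Jm f x (fderiv ℝ (fderiv ℝ f) x v w)))) • N x +
      (2 : ℝ) • mt f x (fun v w => fderiv ℝ φ x v • fderiv ℝ N x w) +
      φ x • mt f x (fun v w => fderiv ℝ (fderiv ℝ N) x v w -
        fderiv ℝ N x (Jm f x (fderiv ℝ (fderiv ℝ f) x v w))) := by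
  have hu : ContDiffAt ℝ ∞ (fun y => φ y • N y) x :=
    (hφ.smul h.Ns).contDiffAt (h.op.mem_nhds hx)
  rw [hi.lb_eq hx hu]
  have h1 : (fun v w => fderiv ℝ (fderiv ℝ (fun y => φ y • N y)) x v w -
      fderiv ℝ (fun y => φ y • N y) x (Jm f x (fderiv ℝ (fderiv ℝ f) x v w))) =
      fun v w => ((fderiv ℝ (fderiv ℝ φ) x v w -
        fderiv ℝ φ x (Jm f x (fderiv ℝ (fderiv ℝ f) x v w))) • N x +
        (fderiv ℝ φ x v • fderiv ℝ N x w + fderiv ℝ φ x w • fderiv ℝ N x v)) +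
        φ x • (fderiv ℝ (fderiv ℝ N) x v w -
          fderiv ℝ N x (Jm f x (fderiv ℝ (fderiv ℝ f) x v w))) := by
    funext v w
    rw [CBih_prod2 h.op hφ h.Ns hx, CBih_prod1 h.op hφ h.Ns hx]
    rw [sub_smul, smul_sub]
    abel
  rw [h1, mt_add, mt_add, mt_add, mt_smul]
  have h2 : mt f x (fun v w => (fderiv ℝ (fderiv ℝ φ) x v w -
        fderiv ℝ φ x (Jm f x (fderiv ℝ (fderiv ℝ f) x v w))) • N x) =
      (mt f x (fun v w => fderiv ℝ (fderiv ℝ φ) x v w -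
        fderiv ℝ φ x (Jm f x (fderiv ℝ (fderiv ℝ f) x v w)))) • N x :=
    (mt_map f x (LinearMap.toSpanSingleton ℝ (Eu m) (N x)) (fun v w =>
      fderiv ℝ (fderiv ℝ φ) x v w -
        fderiv ℝ φ x (Jm f x (fderiv ℝ (fderiv ℝ f) x v w)))).symm
  have h3 : mt f x (fun v w => fderiv ℝ φ x w • fderiv ℝ N x v) =
      mt f x (fun v w => fderiv ℝ φ x v • fderiv ℝ N x w) :=
    mt_swap f x (fun v w => fderiv ℝ φ x w • fderiv ℝ N x v)
  rw [h2, h3, two_smul]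

theorem Patch.hess_tr (h : Patch U f N (Jm f)) (hx : x ∈ U) :
    mt f x (fun v w => fderiv ℝ (fderiv ℝ (ph N (Jm f))) x v w -
        fderiv ℝ (ph N (Jm f)) x (Jm f x (fderiv ℝ (fderiv ℝ f) x v w))) =
      tr ((fderiv ℝ (gr N (Jm f)) x).comp (Jm f x)) := by
  rw [← mt_tr]
  congr 1
  funext v w
  have h0 := CBih_dd h.op h.ph_smooth hx
  have h1 : (fun y => fderiv ℝ (ph N (Jm f)) y w) =ᶠ[nhds x]
      fun y => inner ℝ (gr N (Jm f) y) (fderiv ℝ f y w) := by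
    filter_upwards [h.op.mem_nhds hx] with y hy
    exact h.dph hy w
  have h2 := CBih_app (CBih_dd h.op h.fs hx) w
  rw [← CBih_d2 h0, h1.fderiv_eq, fderiv_inner_apply ℝ (GBasic_diff h.op h.gr_smooth hx)
    h2.differentiableAt, h2.fderiv, ← h.gr_inner hx]
  simp only [ContinuousLinearMap.comp_apply, ContinuousLinearMap.apply_apply]
  ring

theorem CBih_cross (h : Patch U f N (Jm f)) (hx : x ∈ U) (k : Eu n) :
    inner ℝ (mt f x (fun v w => fderiv ℝ (ph N (Jm f)) x v • fderiv ℝ N x w)) (fderiv ℝ f x k) =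
      -inner ℝ (Sh N (Jm f) x (gr N (Jm f) x)) (fderiv ℝ f x k) := by
  have h1 : (fun v w => (inner ℝ (fderiv ℝ (ph N (Jm f)) x v • fderiv ℝ N x w)
      (fderiv ℝ f x k) : ℝ)) = fun v w => (inner ℝ
        ((((innerSL ℝ (gr N (Jm f) x)).comp (fderiv ℝ f x)).smulRight
          (-Sh N (Jm f) x (fderiv ℝ f x k)) : Eu n →L[ℝ] Eu m) v) (fderiv ℝ f x w) : ℝ) := by
    funext v w
    rw [h.DN_eq hx, h.dph hx, inner_smul_left, inner_neg_left, h.Sh_symm hx,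
      ContinuousLinearMap.smulRight_apply, inner_smul_left, inner_neg_left,
      real_inner_comm (fderiv ℝ f x w) (Sh N (Jm f) x (fderiv ℝ f x k))]
    rfl
  rw [mt_inner, h1, mt_tr]
  have h2 : (((((innerSL ℝ (gr N (Jm f) x)).comp (fderiv ℝ f x)).smulRight
          (-Sh N (Jm f) x (fderiv ℝ f x k)) : Eu n →L[ℝ] Eu m).comp (Jm f x) :
          Eu m →L[ℝ] Eu m) : Eu m →ₗ[ℝ] Eu m) =
      ((((innerSL ℝ (gr N (Jm f) x)).comp (fderiv ℝ f x)).comp (Jm f x) : Eu m →L[ℝ] ℝ) :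
        Eu m →ₗ[ℝ] ℝ).smulRight (-Sh N (Jm f) x (fderiv ℝ f x k)) := by
    ext w
    rfl
  rw [tr, h2, LinearMap.trace_smulRight]
  have h3 : fderiv ℝ f x (Jm f x (-Sh N (Jm f) x (fderiv ℝ f x k))) =
      -Sh N (Jm f) x (fderiv ℝ f x k) := by
    refine h.tan hx ?_
    rw [inner_neg_right, h.N_Sh hx, neg_zero]
  show inner ℝ (gr N (Jm f) x) (fderiv ℝ f x (Jm f x (-Sh N (Jm f) x (fderiv ℝ f x k)))) = _
  rw [h3, inner_neg_right, h.Sh_symm hx]

theorem CBih_crossN (h : Patch U f N (Jm f)) (hx : x ∈ U) :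
    inner ℝ (mt f x (fun v w => fderiv ℝ (ph N (Jm f)) x v • fderiv ℝ N x w)) (N x) = 0 := by
  have h1 : (fun v w => (inner ℝ (fderiv ℝ (ph N (Jm f)) x v • fderiv ℝ N x w)
      (N x) : ℝ)) = fun v w => (inner ℝ ((0 : Eu n →L[ℝ] Eu m) v) (fderiv ℝ f x w) : ℝ) := by
    funext v w
    rw [inner_smul_left, real_inner_comm (N x), GBasic_N_DN h hx, mul_zero,
      zero_apply, inner_zero_left]
  rw [mt_inner, h1, mt_tr, ContinuousLinearMap.zero_comp, tr]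
  exact map_zero _

theorem Patch.bih (hi : Imc U f) (h : Patch U f N (Jm f))
    (hb : ∀ x ∈ U, lb f (fun y => ph N (Jm f) y • N y) x = 0) : Bih U f N (Jm f) := by
  have key : ∀ x ∈ U, tr ((fderiv ℝ (gr N (Jm f)) x).comp (Jm f x)) • N x +
      (2 : ℝ) • mt f x (fun v w => fderiv ℝ (ph N (Jm f)) x v • fderiv ℝ N x w) +
      ph N (Jm f) x • mt f x (fun v w => fderiv ℝ (fderiv ℝ N) x v w -
        fderiv ℝ N x (Jm f x (fderiv ℝ (fderiv ℝ f) x v w))) = 0 := by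
    intro x hx
    rw [← h.hess_tr hx, ← h.prod_eq hi hx h.ph_smooth]
    exact hb x hx
  refine { toPatch := h, tang := ?_, nrml := ?_ }
  · intro x hx
    have h1 : inner ℝ (N x) (Sh N (Jm f) x (gr N (Jm f) x)) = 0 := h.N_Sh hx _
    have h2 : inner ℝ (N x) (-(ph N (Jm f) x / 2) • gr N (Jm f) x) = 0 := by
      rw [inner_smul_right, h.gr_N hx, mul_zero]
    refine h.ext_tan hx h1 h2 fun k => ?_
    have h3 := congrArg (fun y : Eu m => (inner ℝ y (fderiv ℝ f x k) : ℝ)) (key x hx)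
    simp only [inner_add_left, inner_smul_left, inner_zero_left, conj_trivial] at h3
    rw [h.normal x hx, CBih_cross h hx, h.LN_tan hx, h.dph hx] at h3
    rw [inner_smul_left, conj_trivial]
    linarith
  · intro x hx
    have h3 := congrArg (fun y : Eu m => (inner ℝ y (N x) : ℝ)) (key x hx)
    simp only [inner_add_left, inner_smul_left, inner_zero_left, conj_trivial] at h3
    rw [h.unit x hx, CBih_crossN h hx, h.LN_N hx] at h3
    linarith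

end Pool.Agent.Lib.MP_3248c9_gt.Hy
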