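import Pool.Agent.Lib.MP_3248c9_gt.Hy.GDefs

/-!
# The coordinate expressions

`gm f` is the induced metric, `lb f` its Laplace-Beltrami operator (as in the frozen statement),
`Jm f x w = sum g^{ij} <d_j f, w> e_i` the left inverse of `Df`, `mt f x q = sum g^{ij} q(e_i, e_j)` the
metric trace.
-/

set_option autoImplicit false

namespace Pool.Agent.Lib.MP_3248c9_gt.Hy

open Set
open scoped ContDiff

/-- Euclidean space. -/
abbrev Eu (n : ℕ) := EuclideanSpace ℝ (Fin n)

/-- The standard basis. -/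
noncomputable def bs {n : ℕ} (i : Fin n) : Eu n := EuclideanSpace.single i (1 : ℝ)

variable {n m : ℕ}

/-- The induced metric. -/
noncomputable def gm (f : Eu n → Eu m) (x : Eu n) : Matrix (Fin n) (Fin n) ℝ :=
  fun i j => inner ℝ (fderiv ℝ f x (bs i)) (fderiv ℝ f x (bs j))

/-- The Laplace-Beltrami operator of the induced metric. -/
noncomputable def lb (f u : Eu n → Eu m) (x : Eu n) : Eu m :=
  (Real.sqrt (gm f x).det)⁻¹ •
    ∑ i, fderiv ℝ (fun y => Real.sqrt (gm f y).det •
      ∑ j, (gm f y)⁻¹ i j • fderiv ℝ u y (bs j)) x (bs i)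

/-- The left inverse of `Df` with kernel the orthogonal complement of the range. -/
noncomputable def Jm (f : Eu n → Eu m) (x : Eu n) : Eu m →L[ℝ] Eu n :=
  ∑ i, ∑ j, (gm f x)⁻¹ i j • (innerSL ℝ (fderiv ℝ f x (bs j))).smulRight (bs i)

/-- The metric trace. -/
noncomputable def mt {G : Type} [AddCommGroup G] [Module ℝ G] (f : Eu n → Eu m) (x : Eu n)
    (q : Eu n → Eu n → G) : G :=
  ∑ i, ∑ j, (gm f x)⁻¹ i j • q (bs i) (bs j)

/-- A smooth immersion of an open set. -/
structure Imc (U : Set (Eu n)) (f : Eu n → Eu m) : Prop where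
  op : IsOpen U
  fs : ContDiffOn ℝ ∞ f U
  inj : ∀ x ∈ U, Function.Injective (fderiv ℝ f x)

end Pool.Agent.Lib.MP_3248c9_gt.Hy
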