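import Mathlib

/-!
# Derivatives of the determinant and of the inverse

`fderiv_det`: expand by `Matrix.det_apply'`, Leibniz rule for the products, and recognise the
adjugate (`Matrix.adjugate_apply`, `Matrix.det_updateRow...`/`det_updateCol`, or use
`Matrix.det_succ`... or multilinearity of `det` in the rows: `ContinuousMultilinearMap.hasFDerivAt`),
`adjugate = det • inverse`. `fderiv_inv`: `A⁻¹ = det⁻¹ • adjugate` gives differentiability; then differentiate
`A * A⁻¹ = 1`.
-/

set_option autoImplicit false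

namespace Pool.Agent.Lib.MP_3248c9_gt.Hy

open Set

variable {n : ℕ} {E : Type} [NormedAddCommGroup E] [NormedSpace ℝ E]
  {A : E → Matrix (Fin n) (Fin n) ℝ} {x : E}

/-- the derivative of the determinant, with columns replaced -/
theorem CDet_aux (hA : ∀ i j, DifferentiableAt ℝ (fun y => A y i j) x) :
    HasFDerivAt (fun y => (A y).det) (∑ σ : Equiv.Perm (Fin n), ((Equiv.Perm.sign σ : ℤ) : ℝ) •
      ∑ i, (∏ j ∈ Finset.univ.erase i, A x (σ j) j) • fderiv ℝ (fun y => A y (σ i) i) x) x := by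
  have e : (fun y => (A y).det) = fun y => ∑ σ : Equiv.Perm (Fin n),
      ((Equiv.Perm.sign σ : ℤ) : ℝ) * ∏ i, A y (σ i) i := by
    funext y
    rw [Matrix.det_apply']
  rw [e]
  refine HasFDerivAt.fun_sum fun σ _ => ?_
  refine HasFDerivAt.const_mul ?_ _
  exact HasFDerivAt.finset_prod fun i _ => (hA (σ i) i).hasFDerivAt

theorem differentiableAt_det (hA : ∀ i j, DifferentiableAt ℝ (fun y => A y i j) x) :
    DifferentiableAt ℝ (fun y => (A y).det) x := (CDet_aux hA).differentiableAt

theorem fderiv_det (hA : ∀ i j, DifferentiableAt ℝ (fun y => A y i j) x) (h0 : (A x).det ≠ 0)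
    (v : E) :
    fderiv ℝ (fun y => (A y).det) x v =
      (A x).det * ∑ i, ∑ j, (A x)⁻¹ j i * fderiv ℝ (fun y => A y i j) x v := by
  rw [(CDet_aux hA).fderiv]
  simp only [ContinuousLinearMap.sum_apply, ContinuousLinearMap.smul_apply, smul_eq_mul]
  have h1 : ∀ i, ∑ σ : Equiv.Perm (Fin n), ((Equiv.Perm.sign σ : ℤ) : ℝ) *
      ((∏ j ∈ Finset.univ.erase i, A x (σ j) j) * fderiv ℝ (fun y => A y (σ i) i) x v) =
      ∑ k, (A x).adjugate i k * fderiv ℝ (fun y => A y k i) x v := by
    intro i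
    have h2 : ((A x).updateCol i fun k => fderiv ℝ (fun y => A y k i) x v).det =
        ∑ σ : Equiv.Perm (Fin n), ((Equiv.Perm.sign σ : ℤ) : ℝ) *
          ((∏ j ∈ Finset.univ.erase i, A x (σ j) j) * fderiv ℝ (fun y => A y (σ i) i) x v) := by
      rw [Matrix.det_apply']
      refine Finset.sum_congr rfl fun σ _ => ?_
      congr 1
      rw [← Finset.prod_erase_mul _ _ (Finset.mem_univ i), Matrix.updateCol_self]
      congr 1
      refine Finset.prod_congr rfl fun j hj => ?_
      rw [Matrix.updateCol_ne (Finset.ne_of_mem_erase hj)]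
    rw [← h2, ← Matrix.cramer_apply, Matrix.cramer_eq_adjugate_mulVec]
    rfl
  have h3 : (A x).adjugate = (A x).det • (A x)⁻¹ := by
    rw [Matrix.inv_def, Ring.inverse_eq_inv', smul_smul, mul_inv_cancel₀ h0, one_smul]
  calc ∑ σ : Equiv.Perm (Fin n), ((Equiv.Perm.sign σ : ℤ) : ℝ) *
        ∑ i, (∏ j ∈ Finset.univ.erase i, A x (σ j) j) * fderiv ℝ (fun y => A y (σ i) i) x v
      = ∑ i, ∑ σ : Equiv.Perm (Fin n), ((Equiv.Perm.sign σ : ℤ) : ℝ) *
        ((∏ j ∈ Finset.univ.erase i, A x (σ j) j) * fderiv ℝ (fun y => A y (σ i) i) x v) := by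
        rw [Finset.sum_comm]
        exact Finset.sum_congr rfl fun σ _ => Finset.mul_sum _ _ _
    _ = ∑ i, ∑ k, (A x).adjugate i k * fderiv ℝ (fun y => A y k i) x v :=
        Finset.sum_congr rfl fun i _ => h1 i
    _ = ∑ k, ∑ i, (A x).adjugate i k * fderiv ℝ (fun y => A y k i) x v := Finset.sum_comm
    _ = _ := by
        rw [Finset.mul_sum]
        refine Finset.sum_congr rfl fun k _ => ?_
        rw [Finset.mul_sum]
        refine Finset.sum_congr rfl fun i _ => ?_
        rw [h3, Matrix.smul_apply, smul_eq_mul, mul_assoc]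

theorem differentiableAt_inv (hA : ∀ i j, DifferentiableAt ℝ (fun y => A y i j) x)
    (h0 : (A x).det ≠ 0) (i j : Fin n) : DifferentiableAt ℝ (fun y => (A y)⁻¹ i j) x := by
  have e : (fun y => (A y)⁻¹ i j) =
      fun y => ((A y).det)⁻¹ * ((A y).updateRow j (Pi.single i 1)).det := by
    funext y
    rw [Matrix.inv_def, Ring.inverse_eq_inv', Matrix.smul_apply, smul_eq_mul,
      Matrix.adjugate_apply]
  rw [e]
  refine ((differentiableAt_det hA).inv h0).mul (differentiableAt_det fun k l => ?_)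
  by_cases hk : k = j
  · subst hk
    simp only [Matrix.updateRow_self]
    exact differentiableAt_const _
  · simp only [Matrix.updateRow_ne hk]
    exact hA k l

theorem fderiv_inv (hA : ∀ i j, DifferentiableAt ℝ (fun y => A y i j) x) (h0 : (A x).det ≠ 0)
    (v : E) (i j : Fin n) :
    fderiv ℝ (fun y => (A y)⁻¹ i j) x v =
      -∑ p, ∑ q, (A x)⁻¹ i p * fderiv ℝ (fun y => A y p q) x v * (A x)⁻¹ q j := by
  set D : Matrix (Fin n) (Fin n) ℝ := fun p q => fderiv ℝ (fun y => A y p q) x v with hD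
  set G : Matrix (Fin n) (Fin n) ℝ := fun p q => fderiv ℝ (fun y => (A y)⁻¹ p q) x v with hG
  have hev : ∀ᶠ y in nhds x, (A y).det ≠ 0 :=
    (differentiableAt_det hA).continuousAt.eventually_ne h0
  have hu : IsUnit (A x).det := isUnit_iff_ne_zero.2 h0
  have h1 : D * (A x)⁻¹ + A x * G = 0 := by
    ext p q
    have h2 : HasFDerivAt (fun y => ∑ k, A y p k * (A y)⁻¹ k q)
        (∑ k, (A x p k • fderiv ℝ (fun y => (A y)⁻¹ k q) x +
          (A x)⁻¹ k q • fderiv ℝ (fun y => A y p k) x)) x :=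
      HasFDerivAt.fun_sum fun k _ =>
        (hA p k).hasFDerivAt.mul (differentiableAt_inv hA h0 k q).hasFDerivAt
    have h3 : (fun y => ∑ k, A y p k * (A y)⁻¹ k q) =ᶠ[nhds x]
        fun _ => (1 : Matrix (Fin n) (Fin n) ℝ) p q := by
      filter_upwards [hev] with y hy
      rw [← Matrix.mul_apply, Matrix.mul_nonsing_inv _ (isUnit_iff_ne_zero.2 hy)]
    have h4 := h3.fderiv_eq (𝕜 := ℝ)
    rw [h2.fderiv] at h4
    have h5 := congrArg (fun L : E →L[ℝ] ℝ => L v) h4
    simp only [ContinuousLinearMap.sum_apply, ContinuousLinearMap.add_apply,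
      ContinuousLinearMap.smul_apply, smul_eq_mul, fderiv_const_apply,
      ContinuousLinearMap.zero_apply] at h5
    rw [Matrix.add_apply, Matrix.mul_apply, Matrix.mul_apply, Matrix.zero_apply, ← h5,
      ← Finset.sum_add_distrib]
    refine Finset.sum_congr rfl fun k _ => ?_
    rw [hD, hG]
    ring
  have h6 : G = -((A x)⁻¹ * D * (A x)⁻¹) := by
    have h7 : (A x)⁻¹ * (A x * G) = G := by
      rw [← Matrix.mul_assoc, Matrix.nonsing_inv_mul _ hu, Matrix.one_mul]
    rw [← h7, eq_neg_of_add_eq_zero_right h1, Matrix.mul_neg, Matrix.mul_assoc]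
  have h8 : G i j = _ := congrFun (congrFun h6 i) j
  change G i j = _
  rw [h8, Matrix.neg_apply, Matrix.mul_apply]
  congr 1
  simp only [Matrix.mul_apply, Finset.sum_mul]
  rw [Finset.sum_comm]

end Pool.Agent.Lib.MP_3248c9_gt.Hy
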