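import Pool.Agent.Lib.MP_3248c9_gt.Hy.GDefs

/-!
# Basic facts on patches

* `f2_symm`: symmetry of the second derivative (`ContDiffAt.isSymmSndFDerivAt`).
* `DN_eq`: `DN v = - Sh (Df v)` because `J (Df v) = v`.
* `N_Sh`: differentiate `<N, N> = 1`.
* `Sh_symm`: differentiate `<N, Df w> = 0` in the direction `v`: `<DN v, Df w> + <N, D^2f(v, w)> = 0`, symmetric;
  decompose `w = Df (J w) + <N, w> N`.
* `DJ`: differentiate `J (Df v) = v`.
* `gr`: `InnerProductSpace.toDual_symm_apply`.
-/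

set_option autoImplicit false

namespace Pool.Agent.Lib.MP_3248c9_gt.Hy

open Set
open scoped ContDiff

variable {E F : Type} [NormedAddCommGroup E] [NormedSpace ℝ E] [FiniteDimensional ℝ E]
  [NormedAddCommGroup F] [InnerProductSpace ℝ F] [FiniteDimensional ℝ F] [CompleteSpace F]
  {U : Set E} {f N : E → F} {J : E → F →L[ℝ] E} {x : E}

theorem rk_apply (u w : F) : rk u w = (inner ℝ u w : ℝ) • u := by
  rfl

theorem tr_rk_comp (u : F) (A : F →L[ℝ] F) : tr (A * rk u) = inner ℝ u (A u) := by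
  have h : ((A * rk u : F →L[ℝ] F) : F →ₗ[ℝ] F) =
      ((innerSL ℝ u : F →L[ℝ] ℝ) : F →ₗ[ℝ] ℝ).smulRight (A u) := by
    ext w
    show A (rk u w) = (inner ℝ u w : ℝ) • A u
    rw [rk_apply, map_smul]
  rw [tr, h, LinearMap.trace_smulRight]
  rfl

theorem tr_sub (A B : F →L[ℝ] F) : tr (A - B) = tr A - tr B := by
  rw [tr, tr, tr, ← map_sub]
  rfl

theorem tr_smul (r : ℝ) (A : F →L[ℝ] F) : tr (r • A) = r * tr A := by
  rw [tr, tr, ← smul_eq_mul, ← map_smul]
  rfl

/-- The trace as a continuous linear map. -/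
noncomputable def GBasic_trL (F : Type) [NormedAddCommGroup F] [InnerProductSpace ℝ F]
    [FiniteDimensional ℝ F] : (F →L[ℝ] F) →L[ℝ] ℝ :=
  LinearMap.toContinuousLinearMap
    { toFun := fun A => tr A
      map_add' := fun A B => by
        rw [tr, tr, tr, ← map_add]
        rfl
      map_smul' := fun r A => by
        rw [tr_smul, RingHom.id_apply, smul_eq_mul] }

theorem GBasic_trL_apply (A : F →L[ℝ] F) : GBasic_trL F A = tr A := rfl

theorem tr_smooth : ContDiff ℝ ∞ (fun A : F →L[ℝ] F => tr A) := by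
  exact (GBasic_trL F).contDiff

/-- The derivative of the trace. -/
theorem fderiv_tr {A : E → F →L[ℝ] F} (hA : DifferentiableAt ℝ A x) (v : E) :
    fderiv ℝ (fun y => tr (A y)) x v = tr (fderiv ℝ A x v) := by
  have h := ((GBasic_trL F).hasFDerivAt.comp x hA.hasFDerivAt).fderiv
  have h1 : ((GBasic_trL F : (F →L[ℝ] F) → ℝ) ∘ A) = fun y => tr (A y) := rfl
  rw [h1] at h
  rw [h]
  rfl

theorem Patch.f2_symm (h : Patch U f N J) (hx : x ∈ U) (v w : E) :
    fderiv ℝ (fderiv ℝ f) x v w = fderiv ℝ (fderiv ℝ f) x w v := by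
  have h1 : ContDiffAt ℝ ∞ f x := h.fs.contDiffAt (h.op.mem_nhds hx)
  refine h1.isSymmSndFDerivAt ?_ v w
  rw [minSmoothness_of_isRCLikeNormedField]
  norm_cast

theorem Patch.Df_smooth (h : Patch U f N J) : ContDiffOn ℝ ∞ (fderiv ℝ f) U := by
  exact h.fs.fderiv_of_isOpen h.op (by simp)

theorem Patch.Sh_smooth (h : Patch U f N J) : ContDiffOn ℝ ∞ (Sh N J) U := by
  exact ((h.Ns.fderiv_of_isOpen h.op (by simp)).clm_comp h.Js).neg

theorem Patch.ph_smooth (h : Patch U f N J) : ContDiffOn ℝ ∞ (ph N J) U := by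
  exact tr_smooth.comp_contDiffOn h.Sh_smooth

/-- The inverse of the Riesz map as a continuous linear map. -/
noncomputable def GBasic_dualL (F : Type) [NormedAddCommGroup F] [InnerProductSpace ℝ F]
    [FiniteDimensional ℝ F] [CompleteSpace F] : (F →L[ℝ] ℝ) →L[ℝ] F :=
  LinearMap.toContinuousLinearMap
    { toFun := fun A => (InnerProductSpace.toDual ℝ F).symm A
      map_add' := fun A B => map_add _ A B
      map_smul' := fun r A => by
        rw [map_smulₛₗ]
        rfl }

theorem Patch.gr_smooth (h : Patch U f N J) : ContDiffOn ℝ ∞ (gr N J) U := by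
  have h1 : ContDiffOn ℝ ∞ (fun x => (fderiv ℝ (ph N J) x).comp (J x)) U :=
    (h.ph_smooth.fderiv_of_isOpen h.op (by simp)).clm_comp h.Js
  exact (GBasic_dualL F).contDiff.comp_contDiffOn h1

theorem Patch.DN_eq (h : Patch U f N J) (hx : x ∈ U) (v : E) :
    fderiv ℝ N x v = -Sh N J x (fderiv ℝ f x v) := by
  rw [Sh, ContinuousLinearMap.neg_apply, ContinuousLinearMap.comp_apply, h.left x hx, neg_neg]

theorem Patch.Sh_N (h : Patch U f N J) (hx : x ∈ U) : Sh N J x (N x) = 0 := by
  rw [Sh, ContinuousLinearMap.neg_apply, ContinuousLinearMap.comp_apply, h.JN x hx, map_zero,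
    neg_zero]

theorem GBasic_diff {G : Type*} [NormedAddCommGroup G] [NormedSpace ℝ G] {g : E → G}
    (hU : IsOpen U) (hg : ContDiffOn ℝ ∞ g U) (hx : x ∈ U) : DifferentiableAt ℝ g x :=
  (hg.contDiffAt (hU.mem_nhds hx)).differentiableAt (by simp)

/-- A function which is constant on an open set has derivative zero. -/
theorem GBasic_const {G : Type*} [NormedAddCommGroup G] [NormedSpace ℝ G] {g : E → G} {c : G}
    (hU : IsOpen U) (hg : ∀ y ∈ U, g y = c) (hx : x ∈ U) : fderiv ℝ g x = 0 := by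
  have h1 : g =ᶠ[nhds x] fun _ => c := by
    filter_upwards [hU.mem_nhds hx] with y hy
    exact hg y hy
  rw [h1.fderiv_eq, fderiv_fun_const]
  rfl

theorem GBasic_N_DN (h : Patch U f N J) (hx : x ∈ U) (v : E) :
    inner ℝ (N x) (fderiv ℝ N x v) = 0 := by
  have h1 := GBasic_const (g := fun y => inner ℝ (N y) (N y)) h.op h.unit hx
  have h2 := GBasic_diff h.op h.Ns hx
  have h3 := fderiv_inner_apply ℝ h2 h2 v
  rw [h1, ContinuousLinearMap.zero_apply, real_inner_comm] at h3
  rw [real_inner_comm]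
  linarith

theorem Patch.N_Sh (h : Patch U f N J) (hx : x ∈ U) (w : F) : inner ℝ (N x) (Sh N J x w) = 0 := by
  rw [Sh, ContinuousLinearMap.neg_apply, ContinuousLinearMap.comp_apply, inner_neg_right,
    GBasic_N_DN h hx, neg_zero]

theorem GBasic_DN_Df (h : Patch U f N J) (hx : x ∈ U) (v v' : E) :
    inner ℝ (fderiv ℝ N x v) (fderiv ℝ f x v') =
      -inner ℝ (N x) (fderiv ℝ (fderiv ℝ f) x v v') := by
  have h1 := GBasic_const (g := fun y => inner ℝ (N y) (fderiv ℝ f y v')) h.op
    (fun y hy => h.normal y hy v') hx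
  have h2 := GBasic_diff h.op h.Ns hx
  have h3 := GBasic_diff h.op h.Df_smooth hx
  have h4 : HasFDerivAt (fun y => fderiv ℝ f y v')
      ((ContinuousLinearMap.apply ℝ F v').comp (fderiv ℝ (fderiv ℝ f) x)) x :=
    (ContinuousLinearMap.apply ℝ F v').hasFDerivAt.comp x h3.hasFDerivAt
  have h5 := fderiv_inner_apply ℝ h2 h4.differentiableAt v
  rw [h1, ContinuousLinearMap.zero_apply, h4.fderiv, ContinuousLinearMap.comp_apply,
    ContinuousLinearMap.apply_apply] at h5
  linarith

theorem Patch.Sh_symm (h : Patch U f N J) (hx : x ∈ U) (w w' : F) :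
    inner ℝ (Sh N J x w) w' = inner ℝ w (Sh N J x w') := by
  have key : ∀ w w' : F, inner ℝ (Sh N J x w) w' =
      inner ℝ (N x) (fderiv ℝ (fderiv ℝ f) x (J x w) (J x w')) := by
    intro w w'
    have h1 : w' = fderiv ℝ f x (J x w') + inner ℝ (N x) w' • N x := by
      rw [h.dec x hx w']
      abel
    have h2 : inner ℝ (Sh N J x w) w' = inner ℝ (Sh N J x w) (fderiv ℝ f x (J x w')) := by
      conv_lhs => rw [h1]
      rw [inner_add_right, inner_smul_right, real_inner_comm (N x) (Sh N J x w), h.N_Sh hx w,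
        mul_zero, add_zero]
    rw [h2, Sh, ContinuousLinearMap.neg_apply, ContinuousLinearMap.comp_apply, inner_neg_left,
      GBasic_DN_Df h hx, neg_neg]
  rw [key, real_inner_comm (Sh N J x w') w, key, h.f2_symm hx]

theorem Patch.DJ (h : Patch U f N J) (hx : x ∈ U) (k v : E) :
    fderiv ℝ J x k (fderiv ℝ f x v) = -J x (fderiv ℝ (fderiv ℝ f) x k v) := by
  have h1 := GBasic_const (g := fun y => J y (fderiv ℝ f y v)) h.op
    (fun y hy => h.left y hy v) hx
  have h2 := GBasic_diff h.op h.Js hx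
  have h3 := GBasic_diff h.op h.Df_smooth hx
  have h4 : HasFDerivAt (fun y => fderiv ℝ f y v)
      ((ContinuousLinearMap.apply ℝ F v).comp (fderiv ℝ (fderiv ℝ f) x)) x :=
    (ContinuousLinearMap.apply ℝ F v).hasFDerivAt.comp x h3.hasFDerivAt
  have h5 := (h2.hasFDerivAt.clm_apply h4).fderiv
  rw [h1] at h5
  have h6 := congrArg (fun L : E →L[ℝ] E => L k) h5
  simp only [ContinuousLinearMap.zero_apply, ContinuousLinearMap.add_apply,
    ContinuousLinearMap.comp_apply, ContinuousLinearMap.flip_apply,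
    ContinuousLinearMap.apply_apply] at h6
  rw [eq_neg_iff_add_eq_zero, add_comm]
  exact h6.symm

theorem Patch.gr_inner (h : Patch U f N J) (hx : x ∈ U) (w : F) :
    inner ℝ (gr N J x) w = fderiv ℝ (ph N J) x (J x w) := by
  rw [gr, InnerProductSpace.toDual_symm_apply, ContinuousLinearMap.comp_apply]

theorem Patch.gr_N (h : Patch U f N J) (hx : x ∈ U) : inner ℝ (N x) (gr N J x) = 0 := by
  rw [real_inner_comm, h.gr_inner hx, h.JN x hx, map_zero]

theorem Patch.dph (h : Patch U f N J) (hx : x ∈ U) (v : E) :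
    fderiv ℝ (ph N J) x v = inner ℝ (gr N J x) (fderiv ℝ f x v) := by
  rw [h.gr_inner hx, h.left x hx]

/-- A vector orthogonal to `N` is tangential. -/
theorem Patch.tan (h : Patch U f N J) (hx : x ∈ U) {w : F} (hw : inner ℝ (N x) w = 0) :
    fderiv ℝ f x (J x w) = w := by
  rw [h.dec x hx, hw, zero_smul, sub_zero]

/-- Two vectors orthogonal to `N` with equal products with all `Df v` are equal. -/
theorem Patch.ext_tan (h : Patch U f N J) (hx : x ∈ U) {w w' : F}
    (hw : inner ℝ (N x) w = 0) (hw' : inner ℝ (N x) w' = 0)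
    (hv : ∀ v, inner ℝ w (fderiv ℝ f x v) = inner ℝ w' (fderiv ℝ f x v)) : w = w' := by
  have h1 : inner ℝ (N x) (w - w') = 0 := by rw [inner_sub_right, hw, hw', sub_zero]
  have h2 := hv (J x (w - w'))
  rw [h.tan hx h1] at h2
  have h3 : inner ℝ (w - w') (w - w') = (0 : ℝ) := by
    rw [inner_sub_left, h2, sub_self]
  exact sub_eq_zero.1 (inner_self_eq_zero.1 h3)

end Pool.Agent.Lib.MP_3248c9_gt.Hy
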