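import Pool.Agent.Lib.MP_3248c9_gt.Hy.CHn
import Pool.Agent.Lib.MP_3248c9_gt.Hy.GBasic

/-!
# The patch of an immersed hypersurface where the mean curvature does not vanish

`N = h/|h|`, `h = lb f f`. `dec`: the orthogonal complement of the range of `Df` has dimension one
(rank-nullity: `finrank (range Df) = n`, `Submodule.finrank_add_finrank_orthogonal`) and contains `N != 0`, and
`w - Df (Jm w)` lies in it by `J_orth`; so it is `<N, w> N`.
`ph_eq`: `|h| = <h, N> = mt <D^2f, N> = - mt <DN v, Df w> = - tr (DN ∘ Jm) = tr Sh` (differentiate `<N, Df w> = 0`; `mt_tr`).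
-/

set_option autoImplicit false

namespace Pool.Agent.Lib.MP_3248c9_gt.Hy

open Set
open scoped ContDiff

variable {n : ℕ} {U : Set (Eu n)} {f : Eu n → Eu (n + 1)} {x : Eu n}

/-- The unit normal where the mean curvature vector does not vanish. -/
noncomputable def Nh (f : Eu n → Eu (n + 1)) (x : Eu n) : Eu (n + 1) :=
  ‖lb f f x‖⁻¹ • lb f f x

theorem Imc.isOpen_ne (h : Imc U f) : IsOpen {y | y ∈ U ∧ lb f f y ≠ 0} := by
  exact h.h_smooth.continuousOn.isOpen_inter_preimage h.op isOpen_compl_singleton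

/-- The mean curvature vector is normal to the hypersurface. -/
theorem CPatch_nrm (h : Imc U f) (hx : x ∈ U) (v : Eu n) :
    inner ℝ (Nh f x) (fderiv ℝ f x v) = 0 := by
  rw [Nh, real_inner_smul_left, h.h_normal hx, mul_zero]

theorem CPatch_unit (h0 : lb f f x ≠ 0) : inner ℝ (Nh f x) (Nh f x) = 1 := by
  have h1 : ‖lb f f x‖ ≠ 0 := norm_ne_zero_iff.2 h0
  rw [Nh, real_inner_smul_left, real_inner_smul_right, real_inner_self_eq_norm_sq]
  field_simp

theorem CPatch_dec (h : Imc U f) (hx : x ∈ U) (h0 : lb f f x ≠ 0) (w : Eu (n + 1)) :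
    fderiv ℝ f x (Jm f x w) = w - (inner ℝ (Nh f x) w : ℝ) • Nh f x := by
  set W : Submodule ℝ (Eu (n + 1)) :=
    LinearMap.range (fderiv ℝ f x : Eu n →ₗ[ℝ] Eu (n + 1)) with hW
  have hf1 : Module.finrank ℝ W = n := by
    rw [hW, LinearMap.finrank_range_of_inj (h.inj x hx), finrank_euclideanSpace_fin]
  have hf2 : Module.finrank ℝ Wᗮ = 1 := by
    have h3 := Submodule.finrank_add_finrank_orthogonal W
    rw [hf1, finrank_euclideanSpace_fin] at h3
    omega
  have hN : Nh f x ∈ Wᗮ := by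
    rw [Submodule.mem_orthogonal']
    rintro u ⟨v, rfl⟩
    exact CPatch_nrm h hx v
  have hz : w - fderiv ℝ f x (Jm f x w) ∈ Wᗮ := by
    rw [Submodule.mem_orthogonal']
    rintro u ⟨v, rfl⟩
    exact h.J_orth hx w v
  have hN0 : (⟨Nh f x, hN⟩ : Wᗮ) ≠ 0 := by
    intro h4
    have h5 : Nh f x = 0 := congrArg Subtype.val h4
    have h6 := CPatch_unit h0
    rw [h5, inner_zero_left] at h6
    exact zero_ne_one h6
  obtain ⟨c, hc⟩ := (finrank_eq_one_iff_of_nonzero' _ hN0).1 hf2 ⟨_, hz⟩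
  have hc1 : c • Nh f x = w - fderiv ℝ f x (Jm f x w) := congrArg Subtype.val hc
  have hc2 : c = inner ℝ (Nh f x) w := by
    have h7 := congrArg (fun z => (inner ℝ (Nh f x) z : ℝ)) hc1
    simp only [real_inner_smul_right, inner_sub_right] at h7
    rw [CPatch_unit h0, CPatch_nrm h hx, mul_one, sub_zero] at h7
    exact h7
  rw [← hc2, hc1, sub_sub_cancel]

theorem Imc.patch (h : Imc U f) : Patch {y | y ∈ U ∧ lb f f y ≠ 0} f (Nh f) (Jm f) := by
  have hs : {y | y ∈ U ∧ lb f f y ≠ 0} ⊆ U := fun y hy => hy.1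
  exact
    { op := h.isOpen_ne
      fs := h.fs.mono hs
      Ns := ((h.h_smooth.mono hs).norm ℝ fun y hy => hy.2).inv
        (fun y hy => norm_ne_zero_iff.2 hy.2) |>.smul (h.h_smooth.mono hs)
      Js := h.J_smooth.mono hs
      left := fun y hy v => h.J_left hy.1 v
      JN := fun y hy => J_zero f y fun v => by
        rw [real_inner_comm]
        exact CPatch_nrm h hy.1 v
      unit := fun y hy => CPatch_unit hy.2
      normal := fun y hy v => CPatch_nrm h hy.1 v
      dec := fun y hy w => CPatch_dec h hy.1 hy.2 w }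

theorem Imc.ph_eq (h : Imc U f) (hx : x ∈ U) (h0 : lb f f x ≠ 0) :
    ph (Nh f) (Jm f) x = ‖lb f f x‖ := by
  have hP := h.patch
  have hV : x ∈ {y | y ∈ U ∧ lb f f y ≠ 0} := ⟨hx, h0⟩
  have h1 : ph (Nh f) (Jm f) x = -tr ((fderiv ℝ (Nh f) x).comp (Jm f x)) := by
    rw [ph, Sh, tr, tr, ← map_neg]
    rfl
  have h2 : mt f x (fun v w => (inner ℝ (fderiv ℝ (Nh f) x v) (fderiv ℝ f x w) : ℝ)) =
      -mt f x (fun v w => (inner ℝ (fderiv ℝ (fderiv ℝ f) x v w) (Nh f x) : ℝ)) := by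
    simp only [mt, ← Finset.sum_neg_distrib]
    refine Finset.sum_congr rfl fun i _ => Finset.sum_congr rfl fun j _ => ?_
    rw [GBasic_DN_Df hP hV, real_inner_comm (Nh f x), smul_neg]
  have h3 : inner ℝ (lb f f x) (Nh f x) =
      mt f x (fun v w => (inner ℝ (fderiv ℝ (fderiv ℝ f) x v w) (Nh f x) : ℝ)) := by
    rw [h.lb_eq hx (h.fs.contDiffAt (h.op.mem_nhds hx)), mt_inner]
    simp only [mt]
    refine Finset.sum_congr rfl fun i _ => Finset.sum_congr rfl fun j _ => ?_
    rw [inner_sub_left, real_inner_comm (Nh f x) (fderiv ℝ f x _), CPatch_nrm h hx, sub_zero]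
  have h4 : inner ℝ (lb f f x) (Nh f x) = ‖lb f f x‖ := by
    have h5 : ‖lb f f x‖ ≠ 0 := norm_ne_zero_iff.2 h0
    rw [Nh, real_inner_smul_right, real_inner_self_eq_norm_sq]
    field_simp
  rw [h1, ← mt_tr, h2, neg_neg, ← h3, h4]

end Pool.Agent.Lib.MP_3248c9_gt.Hy
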