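import Pool.Agent.Lib.MP_3248c9_gt.Hy.CBih
import Pool.Agent.Lib.MP_3248c9_gt.Hy.CPatch
import Pool.Agent.Lib.MP_3248c9_gt.Hy.GMain

/-!
# Chen's biharmonic conjecture for hypersurfaces
-/

set_option autoImplicit false

namespace Pool.Agent.Lib.MP_3248c9_gt.Hy

open Set
open scoped ContDiff

variable {n : ℕ} {U : Set (Eu n)} {f : Eu n → Eu (n + 1)} {x : Eu n}

/-- `lb f` is a local operator. -/
theorem lb_congr {m : ℕ} {f : Eu n → Eu m} {u u' : Eu n → Eu m} (h : u =ᶠ[nhds x] u') :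
    lb f u x = lb f u' x := by
  unfold lb
  congr 1
  refine Finset.sum_congr rfl fun i _ => ?_
  have h1 : (fun y => Real.sqrt (gm f y).det • ∑ j, (gm f y)⁻¹ i j • fderiv ℝ u y (bs j)) =ᶠ[nhds x]
      fun y => Real.sqrt (gm f y).det • ∑ j, (gm f y)⁻¹ i j • fderiv ℝ u' y (bs j) := by
    filter_upwards [h.fderiv (𝕜 := ℝ)] with y hy
    rw [hy]
  rw [h1.fderiv_eq]

theorem Imc.minimal (h : Imc U f) (hb : ∀ x ∈ U, lb f (lb f f) x = 0) :
    ∀ x ∈ U, lb f f x = 0 := by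
  intro x hx
  by_contra hne
  have hP := h.patch
  have hI : Imc {y | y ∈ U ∧ lb f f y ≠ 0} f :=
    ⟨h.isOpen_ne, h.fs.mono fun y hy => hy.1, fun y hy => h.inj y hy.1⟩
  have hB : Bih {y | y ∈ U ∧ lb f f y ≠ 0} f (Nh f) (Jm f) := by
    refine Patch.bih hI hP fun y hy => ?_
    rw [← hb y hy.1]
    refine lb_congr ?_
    filter_upwards [h.isOpen_ne.mem_nhds hy] with z hz
    rw [h.ph_eq hz.1 hz.2, Nh, smul_smul, mul_inv_cancel₀ (norm_ne_zero_iff.mpr hz.2), one_smul]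
  have hE := hB.empty fun y hy => by
    rw [h.ph_eq hy.1 hy.2]
    exact norm_ne_zero_iff.mpr hy.2
  have : x ∈ ({y | y ∈ U ∧ lb f f y ≠ 0} : Set (Eu n)) := ⟨hx, hne⟩
  rw [hE] at this
  exact this

end Pool.Agent.Lib.MP_3248c9_gt.Hy
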