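import Pool.Agent.Lib.MP_3248c9_gt.Hy.CLB

/-!
# The mean curvature vector `lb f f`

`h_normal`: by `lb_eq` and `J_orth` (`D^2f - Df (Jm D^2f)` is orthogonal to the range of `Df`).
`h_smooth`: from the definition of `lb` (smooth coefficients) or from `lb_eq`.
-/

set_option autoImplicit false

namespace Pool.Agent.Lib.MP_3248c9_gt.Hy

open Set
open scoped ContDiff

variable {n m : ℕ} {U : Set (Eu n)} {f : Eu n → Eu m} {x : Eu n}

theorem Imc.h_normal (h : Imc U f) (hx : x ∈ U) (v : Eu n) :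
    inner ℝ (lb f f x) (fderiv ℝ f x v) = 0 := by
  rw [h.lb_eq hx (h.fs.contDiffAt (h.op.mem_nhds hx)), mt_inner]
  simp only [mt]
  refine Finset.sum_eq_zero fun i _ => Finset.sum_eq_zero fun j _ => ?_
  rw [h.J_orth hx, smul_zero]

theorem Imc.h_smooth (h : Imc U f) : ContDiffOn ℝ ∞ (lb f f) U := by
  have hD : ContDiffOn ℝ ∞ (fderiv ℝ f) U := h.fs.fderiv_of_isOpen h.op (by simp)
  have h1 : ContDiffOn ℝ ∞ (fun x => (Real.sqrt (gm f x).det)⁻¹) U :=
    h.sqrt_smooth.inv fun x hx => (Real.sqrt_pos.2 (h.det_pos hx)).ne'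
  refine h1.smul (ContDiffOn.sum fun i _ => ?_)
  have h2 : ContDiffOn ℝ ∞ (fun y => Real.sqrt (gm f y).det •
      ∑ j, (gm f y)⁻¹ i j • fderiv ℝ f y (bs j)) U :=
    h.sqrt_smooth.smul (ContDiffOn.sum fun j _ =>
      (h.gmi_smooth i j).smul (hD.clm_apply contDiffOn_const))
  exact (h2.fderiv_of_isOpen h.op (by simp)).clm_apply contDiffOn_const

end Pool.Agent.Lib.MP_3248c9_gt.Hy
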