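import Pool.Agent.Lib.MP_3248c9_gt.Hy.GBasic

/-!
# The Codazzi equations

`cod_eq`: from `Sh = - DN ∘ J` and `DJ`:
`(D_k Sh)(Df v) = - D^2N(k, v) + DN (J (D^2f(k, v)))`.
`cod12`: symmetric in `k, v` (symmetric second derivatives).
`cod23`: `Sh` is symmetric on all of `F`, so its derivative `D_k Sh` is.
`trace_DSh`: `tr (D_k Sh) = D_k ph`. `DSh_N`: `(D_k Sh) N = - Sh (D_k N)`, so `<(D_k Sh) N, N> = 0`.
-/

set_option autoImplicit false

namespace Pool.Agent.Lib.MP_3248c9_gt.Hy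

open Set
open scoped ContDiff

variable {E F : Type} [NormedAddCommGroup E] [NormedSpace ℝ E] [FiniteDimensional ℝ E]
  [NormedAddCommGroup F] [InnerProductSpace ℝ F] [FiniteDimensional ℝ F] [CompleteSpace F]
  {U : Set E} {f N : E → F} {J : E → F →L[ℝ] E} {x : E}

theorem Patch.cod_diffSh (h : Patch U f N J) (hx : x ∈ U) : DifferentiableAt ℝ (Sh N J) x :=
  (h.Sh_smooth.contDiffAt (h.op.mem_nhds hx)).differentiableAt (by simp)

theorem Patch.cod_diffJ (h : Patch U f N J) (hx : x ∈ U) : DifferentiableAt ℝ J x :=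
  (h.Js.contDiffAt (h.op.mem_nhds hx)).differentiableAt (by simp)

theorem Patch.cod_diffN (h : Patch U f N J) (hx : x ∈ U) : DifferentiableAt ℝ N x :=
  (h.Ns.contDiffAt (h.op.mem_nhds hx)).differentiableAt (by simp)

theorem Patch.cod_diffDN (h : Patch U f N J) (hx : x ∈ U) :
    DifferentiableAt ℝ (fderiv ℝ N) x := by
  have h1 : ContDiffOn ℝ ∞ (fderiv ℝ N) U := h.Ns.fderiv_of_isOpen h.op (by simp)
  exact (h1.contDiffAt (h.op.mem_nhds hx)).differentiableAt (by simp)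

theorem Patch.cod_eq (h : Patch U f N J) (hx : x ∈ U) (k v : E) :
    fderiv ℝ (Sh N J) x k (fderiv ℝ f x v) =
      -(fderiv ℝ (fderiv ℝ N) x k v) + fderiv ℝ N x (J x (fderiv ℝ (fderiv ℝ f) x k v)) := by
  have h1 := ((h.cod_diffDN hx).hasFDerivAt.clm_comp (h.cod_diffJ hx).hasFDerivAt).neg
  have h2 : HasFDerivAt (Sh N J) _ x := h1
  rw [h2.fderiv]
  simp only [neg_apply, add_apply,
    ContinuousLinearMap.comp_apply, ContinuousLinearMap.compL_apply,
    ContinuousLinearMap.flip_apply]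
  rw [h.DJ hx, h.left x hx, map_neg]
  abel

theorem Patch.cod_N2_symm (h : Patch U f N J) (hx : x ∈ U) (v w : E) :
    fderiv ℝ (fderiv ℝ N) x v w = fderiv ℝ (fderiv ℝ N) x w v :=
  (h.Ns.contDiffAt (h.op.mem_nhds hx)).isSymmSndFDerivAt
    (by rw [minSmoothness_of_isRCLikeNormedField]; exact WithTop.coe_le_coe.mpr le_top) v w

theorem Patch.cod12 (h : Patch U f N J) (hx : x ∈ U) (k v : E) :
    fderiv ℝ (Sh N J) x k (fderiv ℝ f x v) = fderiv ℝ (Sh N J) x v (fderiv ℝ f x k) := by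
  rw [h.cod_eq hx, h.cod_eq hx, h.cod_N2_symm hx k v, h.f2_symm hx k v]

theorem Patch.cod23 (h : Patch U f N J) (hx : x ∈ U) (k : E) (w w' : F) :
    inner ℝ (fderiv ℝ (Sh N J) x k w) w' = inner ℝ w (fderiv ℝ (Sh N J) x k w') := by
  obtain ⟨L, hL⟩ : ∃ L : (F →L[ℝ] F) →L[ℝ] ℝ, ∀ A, L A = inner ℝ w' (A w) :=
    ⟨(innerSL ℝ w').comp (ContinuousLinearMap.apply ℝ F w), fun _ => rfl⟩
  obtain ⟨R, hR⟩ : ∃ R : (F →L[ℝ] F) →L[ℝ] ℝ, ∀ A, R A = inner ℝ w (A w') :=
    ⟨(innerSL ℝ w).comp (ContinuousLinearMap.apply ℝ F w'), fun _ => rfl⟩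
  have h1 := (h.cod_diffSh hx).hasFDerivAt
  have h2 : HasFDerivAt (fun y => L (Sh N J y)) (L.comp (fderiv ℝ (Sh N J) x)) x :=
    L.hasFDerivAt.comp x h1
  have h3 : HasFDerivAt (fun y => R (Sh N J y)) (R.comp (fderiv ℝ (Sh N J) x)) x :=
    R.hasFDerivAt.comp x h1
  have h4 : (fun y => L (Sh N J y)) =ᶠ[nhds x] fun y => R (Sh N J y) := by
    filter_upwards [h.op.mem_nhds hx] with y hy
    rw [hL, hR, real_inner_comm]
    exact h.Sh_symm hy w w'
  have h5 := h2.unique (h3.congr_of_eventuallyEq h4)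
  have h6 := congrArg (fun A : E →L[ℝ] ℝ => A k) h5
  simp only [ContinuousLinearMap.comp_apply, hL, hR] at h6
  rw [real_inner_comm]
  exact h6

theorem Patch.DSh_N (h : Patch U f N J) (hx : x ∈ U) (k : E) :
    fderiv ℝ (Sh N J) x k (N x) = -Sh N J x (fderiv ℝ N x k) := by
  have h1 := (h.cod_diffSh hx).hasFDerivAt.clm_apply (h.cod_diffN hx).hasFDerivAt
  have h2 : HasFDerivAt (fun y => Sh N J y (N y)) (0 : E →L[ℝ] F) x := by
    refine (hasFDerivAt_const (0 : F) x).congr_of_eventuallyEq ?_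
    filter_upwards [h.op.mem_nhds hx] with y hy
    exact h.Sh_N hy
  have h3 := congrArg (fun A : E →L[ℝ] F => A k) (h1.unique h2)
  simp only [add_apply, ContinuousLinearMap.comp_apply,
    ContinuousLinearMap.flip_apply, zero_apply] at h3
  rw [eq_neg_iff_add_eq_zero, add_comm]
  exact h3

theorem Patch.trace_DSh (h : Patch U f N J) (hx : x ∈ U) (k : E) :
    tr (fderiv ℝ (Sh N J) x k) = fderiv ℝ (ph N J) x k :=
  (fderiv_tr (h.cod_diffSh hx) k).symm

end Pool.Agent.Lib.MP_3248c9_gt.Hy
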