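import Pool.Agent.Lib.MP_3248c9_gt.Hy.CDefs
import Pool.Agent.Lib.MP_3248c9_gt.Hy.CDet

/-!
# The induced metric and the left inverse

* `det_pos`: the Gram matrix of linearly independent vectors is positive definite
  (`Matrix.PosDef.det_pos`; `x ⬝ᵥ gm *ᵥ x = |Df (sum x_i e_i)|^2`).
* smoothness of the entries, of the determinant, of the entries of the inverse
  (`A⁻¹ = det⁻¹ • adjugate`, entries of the adjugate are polynomials in the entries).
* `J_left`: `Jm (Df v) = v` by `g⁻¹ g = 1` and `v = sum v_i e_i`; `J_orth`: by `g g⁻¹ = 1`.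
* `mt_tr`: `sum_ij g^{ij} <M e_i, d_j f> = tr (M ∘ Jm)`: `Jm = sum_ij g^{ij} <d_j f, .> e_i`, so
  `M ∘ Jm = sum_ij g^{ij} <d_j f, .> M e_i`, and the trace of `<a, .> b` is `<a, b>`.
* `mt_swap`: `g^{ij}` is symmetric.
-/

set_option autoImplicit false

namespace Pool.Agent.Lib.MP_3248c9_gt.Hy

open Set
open scoped ContDiff

variable {n m : ℕ} {U : Set (Eu n)} {f : Eu n → Eu m} {x : Eu n}

theorem CMet_ext {G : Type} [AddCommGroup G] [Module ℝ G] (L L' : Eu n →ₗ[ℝ] G)
    (h : ∀ i, L (bs i) = L' (bs i)) : L = L' := by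
  refine (EuclideanSpace.basisFun (Fin n) ℝ).toBasis.ext fun i => ?_
  rw [OrthonormalBasis.coe_toBasis, EuclideanSpace.basisFun_apply]
  exact h i

theorem Imc.det_pos (h : Imc U f) (hx : x ∈ U) : 0 < (gm f x).det := by
  have h1 : LinearIndependent ℝ (fun i : Fin n => fderiv ℝ f x (bs i)) := by
    have h2 := (EuclideanSpace.basisFun (Fin n) ℝ).toBasis.linearIndependent
    have h3 := h2.map' (fderiv ℝ f x : Eu n →ₗ[ℝ] Eu m) (LinearMap.ker_eq_bot.2 (h.inj x hx))
    have h4 : (fun i : Fin n => fderiv ℝ f x (bs i)) =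
        (fderiv ℝ f x : Eu n →ₗ[ℝ] Eu m) ∘ (EuclideanSpace.basisFun (Fin n) ℝ).toBasis := by
      funext i
      rw [Function.comp_apply, OrthonormalBasis.coe_toBasis, EuclideanSpace.basisFun_apply]
      rfl
    rw [h4]
    exact h3
  exact (Matrix.posDef_gram_iff_linearIndependent.2 h1).det_pos

theorem gm_symm (f : Eu n → Eu m) (x : Eu n) (i j : Fin n) : gm f x i j = gm f x j i :=
  real_inner_comm _ _

theorem CMet_transpose (f : Eu n → Eu m) (x : Eu n) : (gm f x).transpose = gm f x := by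
  ext i j
  exact gm_symm f x j i

theorem gmi_symm (f : Eu n → Eu m) (x : Eu n) (i j : Fin n) :
    (gm f x)⁻¹ i j = (gm f x)⁻¹ j i := by
  have h1 : ((gm f x)⁻¹).transpose = (gm f x)⁻¹ := by
    rw [Matrix.transpose_nonsing_inv, CMet_transpose]
  conv_lhs => rw [← h1]
  rfl

theorem Imc.gm_smooth (h : Imc U f) (i j : Fin n) : ContDiffOn ℝ ∞ (fun x => gm f x i j) U := by
  have h1 : ContDiffOn ℝ ∞ (fderiv ℝ f) U := h.fs.fderiv_of_isOpen h.op (by simp)
  exact (h1.clm_apply contDiffOn_const).inner ℝ (h1.clm_apply contDiffOn_const)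

theorem CMet_det {A : Eu n → Matrix (Fin n) (Fin n) ℝ}
    (hA : ∀ i j, ContDiffOn ℝ ∞ (fun x => A x i j) U) :
    ContDiffOn ℝ ∞ (fun x => (A x).det) U := by
  have h1 : (fun x => (A x).det) = fun x => ∑ σ : Equiv.Perm (Fin n),
      ((Equiv.Perm.sign σ : ℤ) : ℝ) * ∏ i, A x (σ i) i := by
    funext x
    exact Matrix.det_apply' _
  rw [h1]
  exact ContDiffOn.sum fun σ _ => contDiffOn_const.mul (contDiffOn_prod fun i _ => hA _ _)

theorem Imc.det_smooth (h : Imc U f) : ContDiffOn ℝ ∞ (fun x => (gm f x).det) U :=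
  CMet_det h.gm_smooth

theorem Imc.sqrt_smooth (h : Imc U f) :
    ContDiffOn ℝ ∞ (fun x => Real.sqrt (gm f x).det) U :=
  h.det_smooth.sqrt fun _ hx => (h.det_pos hx).ne'

theorem Imc.gmi_smooth (h : Imc U f) (i j : Fin n) :
    ContDiffOn ℝ ∞ (fun x => (gm f x)⁻¹ i j) U := by
  have h1 : (fun x => (gm f x)⁻¹ i j) = fun x => ((gm f x).det)⁻¹ *
      ((gm f x).updateRow j (Pi.single i 1)).det := by
    funext x
    rw [Matrix.inv_def, Matrix.smul_apply, Matrix.adjugate_apply, Ring.inverse_eq_inv',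
      smul_eq_mul]
  rw [h1]
  refine (h.det_smooth.inv fun _ hx => (h.det_pos hx).ne').mul (CMet_det fun p q => ?_)
  by_cases hp : p = j
  · subst hp
    simp only [Matrix.updateRow_self]
    exact contDiffOn_const
  · simp only [Matrix.updateRow_ne hp]
    exact h.gm_smooth p q

theorem Imc.J_smooth (h : Imc U f) : ContDiffOn ℝ ∞ (Jm f) U := by
  have h1 : ContDiffOn ℝ ∞ (fderiv ℝ f) U := h.fs.fderiv_of_isOpen h.op (by simp)
  refine ContDiffOn.sum fun i _ => ContDiffOn.sum fun j _ => (h.gmi_smooth i j).smul ?_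
  have h2 : ContDiffOn ℝ ∞ (fun x => innerSL ℝ (fderiv ℝ f x (bs j))) U :=
    (innerSL ℝ : Eu m →L[ℝ] Eu m →L[ℝ] ℝ).contDiff.comp_contDiffOn
      (h1.clm_apply contDiffOn_const)
  exact ((ContinuousLinearMap.smulRightL ℝ (Eu m) (Eu n)).flip (bs i)).contDiff.comp_contDiffOn h2

theorem Jm_apply (f : Eu n → Eu m) (x : Eu n) (w : Eu m) :
    Jm f x w = ∑ i, ∑ j, ((gm f x)⁻¹ i j * inner ℝ (fderiv ℝ f x (bs j)) w) • bs i := by
  unfold Jm
  simp only [ContinuousLinearMap.sum_apply, ContinuousLinearMap.smul_apply,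
    ContinuousLinearMap.smulRight_apply, innerSL_apply_apply, smul_smul]

theorem CMet_inv_mul (h : Imc U f) (hx : x ∈ U) (i k : Fin n) :
    ∑ j, (gm f x)⁻¹ i j * gm f x j k = if i = k then 1 else 0 := by
  have h1 : (gm f x)⁻¹ * gm f x = 1 :=
    Matrix.nonsing_inv_mul _ (isUnit_iff_ne_zero.2 (h.det_pos hx).ne')
  have h2 := congrFun (congrFun h1 i) k
  rw [Matrix.mul_apply, Matrix.one_apply] at h2
  exact h2

theorem Imc.J_left (h : Imc U f) (hx : x ∈ U) (v : Eu n) : Jm f x (fderiv ℝ f x v) = v := by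
  have h1 : ((Jm f x : Eu m →ₗ[ℝ] Eu n).comp (fderiv ℝ f x : Eu n →ₗ[ℝ] Eu m)) =
      LinearMap.id := by
    refine CMet_ext _ _ fun k => ?_
    show Jm f x (fderiv ℝ f x (bs k)) = bs k
    rw [Jm_apply]
    have h2 : ∀ i : Fin n, ∑ j, ((gm f x)⁻¹ i j *
        inner ℝ (fderiv ℝ f x (bs j)) (fderiv ℝ f x (bs k))) • (bs i : Eu n) =
        (if i = k then (1 : ℝ) else 0) • bs i := by
      intro i
      rw [← Finset.sum_smul, ← CMet_inv_mul h hx i k]
      rfl
    rw [Finset.sum_congr rfl fun i _ => h2 i]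
    simp
  exact congrArg (fun L : Eu n →ₗ[ℝ] Eu n => L v) h1

theorem Imc.J_orth (h : Imc U f) (hx : x ∈ U) (w : Eu m) (v : Eu n) :
    inner ℝ (w - fderiv ℝ f x (Jm f x w)) (fderiv ℝ f x v) = 0 := by
  have h1 : ((innerSL ℝ (w - fderiv ℝ f x (Jm f x w)) : Eu m →ₗ[ℝ] ℝ).comp
      (fderiv ℝ f x : Eu n →ₗ[ℝ] Eu m)) = 0 := by
    refine CMet_ext _ _ fun k => ?_
    show inner ℝ (w - fderiv ℝ f x (Jm f x w)) (fderiv ℝ f x (bs k)) = 0
    have h2 : inner ℝ (fderiv ℝ f x (Jm f x w)) (fderiv ℝ f x (bs k)) =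
        ∑ j, (∑ i, gm f x k i * (gm f x)⁻¹ i j) * inner ℝ (fderiv ℝ f x (bs j)) w := by
      rw [Jm_apply, map_sum, sum_inner]
      have h3 : ∀ i : Fin n, inner ℝ (fderiv ℝ f x (∑ j, ((gm f x)⁻¹ i j *
          inner ℝ (fderiv ℝ f x (bs j)) w) • bs i)) (fderiv ℝ f x (bs k)) =
          ∑ j, gm f x k i * (gm f x)⁻¹ i j * inner ℝ (fderiv ℝ f x (bs j)) w := by
        intro i
        rw [map_sum, sum_inner]
        refine Finset.sum_congr rfl fun j _ => ?_
        rw [map_smul, real_inner_smul_left, gm_symm f x k i]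
        unfold gm
        ring
      rw [Finset.sum_congr rfl fun i _ => h3 i, Finset.sum_comm]
      exact Finset.sum_congr rfl fun j _ => (Finset.sum_mul _ _ _).symm
    have h4 : ∀ j : Fin n, ∑ i, gm f x k i * (gm f x)⁻¹ i j = if k = j then 1 else 0 := by
      intro j
      have h5 : gm f x * (gm f x)⁻¹ = 1 :=
        Matrix.mul_nonsing_inv _ (isUnit_iff_ne_zero.2 (h.det_pos hx).ne')
      have h6 := congrFun (congrFun h5 k) j
      rw [Matrix.mul_apply, Matrix.one_apply] at h6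
      exact h6
    rw [inner_sub_left, h2, Finset.sum_congr rfl fun j _ => by rw [h4 j]]
    simp only [ite_mul, one_mul, zero_mul, Finset.sum_ite_eq, Finset.mem_univ, if_true]
    rw [real_inner_comm, sub_self]
  exact congrArg (fun L : Eu n →ₗ[ℝ] ℝ => L v) h1

theorem J_zero (f : Eu n → Eu m) (x : Eu n) {w : Eu m}
    (hw : ∀ v, inner ℝ (fderiv ℝ f x v) w = 0) : Jm f x w = 0 := by
  rw [Jm_apply]
  refine Finset.sum_eq_zero fun i _ => Finset.sum_eq_zero fun j _ => ?_
  rw [hw, mul_zero, zero_smul]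

theorem mt_tr (f : Eu n → Eu m) (x : Eu n) (M : Eu n →L[ℝ] Eu m) :
    mt f x (fun v w => (inner ℝ (M v) (fderiv ℝ f x w) : ℝ)) = tr (M.comp (Jm f x)) := by
  have h1 : ((M.comp (Jm f x) : Eu m →L[ℝ] Eu m) : Eu m →ₗ[ℝ] Eu m) =
      ∑ i, ∑ j, (gm f x)⁻¹ i j •
        ((innerSL ℝ (fderiv ℝ f x (bs j)) : Eu m →ₗ[ℝ] ℝ).smulRight (M (bs i))) := by
    ext1 w
    simp only [LinearMap.sum_apply, LinearMap.smul_apply, LinearMap.smulRight_apply]
    show M (Jm f x w) = _
    rw [Jm_apply, map_sum]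
    refine Finset.sum_congr rfl fun i _ => ?_
    rw [map_sum]
    refine Finset.sum_congr rfl fun j _ => ?_
    rw [map_smul, smul_smul]
    rfl
  unfold tr mt
  rw [h1, map_sum]
  refine Finset.sum_congr rfl fun i _ => ?_
  rw [map_sum]
  refine Finset.sum_congr rfl fun j _ => ?_
  rw [map_smul, LinearMap.trace_smulRight]
  congr 1
  exact real_inner_comm _ _

theorem mt_swap {G : Type} [AddCommGroup G] [Module ℝ G] (f : Eu n → Eu m) (x : Eu n)
    (q : Eu n → Eu n → G) : mt f x q = mt f x (fun v w => q w v) := by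
  unfold mt
  rw [Finset.sum_comm]
  exact Finset.sum_congr rfl fun i _ => Finset.sum_congr rfl fun j _ => by rw [gmi_symm]

theorem mt_add {G : Type} [AddCommGroup G] [Module ℝ G] (f : Eu n → Eu m) (x : Eu n)
    (q q' : Eu n → Eu n → G) : mt f x (fun v w => q v w + q' v w) = mt f x q + mt f x q' := by
  unfold mt
  simp only [smul_add, Finset.sum_add_distrib]

theorem mt_smul {G : Type} [AddCommGroup G] [Module ℝ G] (f : Eu n → Eu m) (x : Eu n)
    (r : ℝ) (q : Eu n → Eu n → G) : mt f x (fun v w => r • q v w) = r • mt f x q := by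
  unfold mt
  simp only [Finset.smul_sum, smul_comm r]

/-- The metric trace commutes with linear maps. -/
theorem mt_map {G G' : Type} [AddCommGroup G] [Module ℝ G] [AddCommGroup G'] [Module ℝ G']
    (f : Eu n → Eu m) (x : Eu n) (l : G →ₗ[ℝ] G') (q : Eu n → Eu n → G) :
    l (mt f x q) = mt f x (fun v w => l (q v w)) := by
  unfold mt
  simp only [map_sum, map_smul]

theorem mt_inner (f : Eu n → Eu m) (x : Eu n) (q : Eu n → Eu n → Eu m) (y : Eu m) :
    inner ℝ (mt f x q) y = mt f x (fun v w => (inner ℝ (q v w) y : ℝ)) := by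
  unfold mt
  simp only [sum_inner, real_inner_smul_left, smul_eq_mul]

end Pool.Agent.Lib.MP_3248c9_gt.Hy
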