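import Mathlib

/-!
# Simultaneous diagonalisation

`LinearMap.IsSymmetric.directSum_isInternal_of_commute`, `LinearMap.IsSymmetric.orthogonalFamily_eigenspace_inf_eigenspace`,
`DirectSum.IsInternal.subordinateOrthonormalBasis`.
-/

set_option autoImplicit false

namespace Pool.Agent.Lib.MP_3248c9_gt.Hy

open Module

theorem simdiag {E : Type} [NormedAddCommGroup E] [InnerProductSpace ℝ E] [FiniteDimensional ℝ E]
    (S B : E →L[ℝ] E) (hS : (S : E →ₗ[ℝ] E).IsSymmetric) (hB : (B : E →ₗ[ℝ] E).IsSymmetric)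
    (hSB : S * B = B * S) :
    ∃ (e : OrthonormalBasis (Fin (finrank ℝ E)) ℝ E) (s c : Fin (finrank ℝ E) → ℝ),
      ∀ i, S (e i) = s i • e i ∧ B (e i) = c i • e i := by
  classical
  have hinv : ∀ μ : End.Eigenvalues (S : E →ₗ[ℝ] E),
      ∀ v ∈ End.eigenspace (S : E →ₗ[ℝ] E) μ,
        (B : E →ₗ[ℝ] E) v ∈ End.eigenspace (S : E →ₗ[ℝ] E) μ := by
    intro μ v hv
    rw [End.mem_eigenspace_iff] at hv ⊢
    have h1 : S (B v) = B (S v) := congrArg (fun T : E →L[ℝ] E => T v) hSB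
    change S (B v) = (μ : ℝ) • B v
    change S v = (μ : ℝ) • v at hv
    rw [h1, hv, map_smul]
  have hV := hS.direct_sum_isInternal
  have hO := hS.orthogonalFamily_eigenspaces'
  let v : ∀ μ : End.Eigenvalues (S : E →ₗ[ℝ] E),
      OrthonormalBasis (Fin (finrank ℝ (End.eigenspace (S : E →ₗ[ℝ] E) μ))) ℝ
        (End.eigenspace (S : E →ₗ[ℝ] E) μ) := fun μ =>
    (hB.restrict_invariant (hinv μ)).eigenvectorBasis rfl
  let b := hV.collectedOrthonormalBasis hO v
  let eq : (Σ μ : End.Eigenvalues (S : E →ₗ[ℝ] E),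
      Fin (finrank ℝ (End.eigenspace (S : E →ₗ[ℝ] E) μ))) ≃ Fin (finrank ℝ E) :=
    Fintype.equivFinOfCardEq (finrank_eq_card_basis b.toBasis).symm
  let cc : (Σ μ : End.Eigenvalues (S : E →ₗ[ℝ] E),
      Fin (finrank ℝ (End.eigenspace (S : E →ₗ[ℝ] E) μ))) → ℝ := fun x =>
    (hB.restrict_invariant (hinv x.1)).eigenvalues rfl x.2
  refine ⟨b.reindex eq, fun i => ((eq.symm i).1 : ℝ), fun i => cc (eq.symm i), fun i => ?_⟩
  obtain ⟨x, rfl⟩ := eq.surjective i
  have hx : (b.reindex eq) (eq x) = ((v x.1 x.2 : End.eigenspace (S : E →ₗ[ℝ] E) x.1) : E) := by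
    rw [OrthonormalBasis.reindex_apply, Equiv.symm_apply_apply]
    change (hV.collectedOrthonormalBasis hO v) x = _
    simp [DirectSum.IsInternal.collectedOrthonormalBasis]
  rw [hx]
  simp only [Equiv.symm_apply_apply]
  constructor
  · have h1 := (v x.1 x.2).2
    rw [End.mem_eigenspace_iff] at h1
    exact h1
  · have h1 := (hB.restrict_invariant (hinv x.1)).apply_eigenvectorBasis rfl x.2
    exact congrArg Subtype.val h1

/-- The trace of an operator which is diagonal in an orthonormal basis. -/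
theorem trace_diag {E : Type} [NormedAddCommGroup E] [InnerProductSpace ℝ E]
    [FiniteDimensional ℝ E] (e : OrthonormalBasis (Fin (finrank ℝ E)) ℝ E) (A : E →L[ℝ] E)
    (l : Fin (finrank ℝ E) → ℝ) (h : ∀ i, A (e i) = l i • e i) :
    LinearMap.trace ℝ E (A : E →ₗ[ℝ] E) = ∑ i, l i := by
  rw [LinearMap.trace_eq_sum_inner _ e]
  refine Finset.sum_congr rfl fun i _ => ?_
  change inner ℝ (e i) (A (e i)) = l i
  rw [h, inner_smul_right, real_inner_self_eq_norm_sq, e.orthonormal.1 i]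
  ring

end Pool.Agent.Lib.MP_3248c9_gt.Hy
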