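import Mathlib

/-!
# Global solutions for bounded Lipschitz fields

Picard-Lindelof on `[-T, T]` for every `T` (ball of radius `L * T`, so one application of
`IsPicardLindelof` suffices), then glue by uniqueness (`ODE_solution_unique_univ` /
`ODE_solution_unique_of_mem_Ioo`).
-/

set_option autoImplicit false

namespace Pool.Agent.Lib.MP_3248c9_gt.Hy

open Set

/-- Solutions on every symmetric interval. -/
private theorem glob_local {E : Type} [NormedAddCommGroup E] [NormedSpace ℝ E] [CompleteSpace E]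
    (v : E → E) (K : NNReal) (hv : LipschitzWith K v) (L : ℝ) (hb : ∀ x, ‖v x‖ ≤ L) (x0 : E)
    (T : ℝ) (hT : 0 ≤ T) :
    ∃ z : ℝ → E, z 0 = x0 ∧ ∀ t ∈ Ioo (-T) T, HasDerivAt z (v (z t)) t := by
  have hL : 0 ≤ L := (norm_nonneg _).trans (hb x0)
  have h0 : (0 : ℝ) ∈ Icc (-T) T := ⟨by linarith, hT⟩
  have hp : IsPicardLindelof (fun _ : ℝ => v) (tmin := -T) (tmax := T) ⟨0, h0⟩ x0
      (⟨L, hL⟩ * ⟨T, hT⟩) 0 ⟨L, hL⟩ K := by
    refine ⟨fun t _ => hv.lipschitzOnWith, fun x _ => continuousOn_const,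
      fun t _ x _ => hb x, ?_⟩
    simp only [sub_zero, zero_sub, neg_neg, max_self, NNReal.coe_zero]
    exact le_refl _
  obtain ⟨z, hz0, hz⟩ := hp.exists_eq_forall_mem_Icc_hasDerivWithinAt₀
  exact ⟨z, hz0, fun t ht => (hz t (Ioo_subset_Icc_self ht)).hasDerivAt
    (Icc_mem_nhds ht.1 ht.2)⟩

theorem exists_global {E : Type} [NormedAddCommGroup E] [NormedSpace ℝ E] [CompleteSpace E]
    (v : E → E) (K : NNReal) (hv : LipschitzWith K v) (L : ℝ) (hb : ∀ x, ‖v x‖ ≤ L) (x0 : E) :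
    ∃ z : ℝ → E, z 0 = x0 ∧ ∀ t, HasDerivAt z (v (z t)) t := by
  have h1 : ∀ n : ℕ, ∃ z : ℝ → E, z 0 = x0 ∧
      ∀ t ∈ Ioo (-((n : ℝ) + 1)) ((n : ℝ) + 1), HasDerivAt z (v (z t)) t :=
    fun n => glob_local v K hv L hb x0 ((n : ℝ) + 1) (by positivity)
  choose Z hZ0 hZ using h1
  have agree : ∀ m n : ℕ, m ≤ n → ∀ t ∈ Ioo (-((m : ℝ) + 1)) ((m : ℝ) + 1), Z m t = Z n t := by
    intro m n hmn
    have hmn' : (m : ℝ) ≤ n := by exact_mod_cast hmn
    have hm0 : (0 : ℝ) ≤ m := Nat.cast_nonneg m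
    have := ODE_solution_unique_of_mem_Ioo (v := fun _ : ℝ => v) (s := fun _ => univ) (K := K)
      (f := Z m) (g := Z n) (a := -((m : ℝ) + 1)) (b := (m : ℝ) + 1) (t₀ := 0)
      (fun t _ => hv.lipschitzOnWith) ⟨by linarith, by linarith⟩
      (fun t ht => ⟨hZ m t ht, mem_univ _⟩)
      (fun t ht => ⟨hZ n t ⟨by linarith [ht.1], by linarith [ht.2]⟩, mem_univ _⟩)
      (by rw [hZ0, hZ0])
    exact this
  refine ⟨fun t => Z ⌈|t|⌉₊ t, ?_, fun t => ?_⟩
  · exact hZ0 _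
  · set N : ℕ := ⌈|t|⌉₊ with hN
    have htN : |t| ≤ N := Nat.le_ceil _
    have ht2 : t ∈ Ioo (-((N : ℝ) + 1)) ((N : ℝ) + 1) := by
      rw [abs_le] at htN
      exact ⟨by linarith [htN.1], by linarith [htN.2]⟩
    have hev : (fun s => Z ⌈|s|⌉₊ s) =ᶠ[nhds t] Z N := by
      filter_upwards [Ioo_mem_nhds ht2.1 ht2.2] with s hs
      have hsm : |s| ≤ (⌈|s|⌉₊ : ℕ) := Nat.le_ceil _
      rcases le_total (⌈|s|⌉₊) N with h | h
      · refine agree _ _ h s ?_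
        rw [abs_le] at hsm
        exact ⟨by linarith [hsm.1], by linarith [hsm.2]⟩
      · exact (agree _ _ h s hs).symm
    exact (hZ N t ht2).congr_of_eventuallyEq hev

end Pool.Agent.Lib.MP_3248c9_gt.Hy
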