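import Pool.Agent.Lib.MP_3248c9_gt.Hy.PDefs

/-!
# Kneser's nested osculating discs

`ctr t = X + nu/k` with `X = a + i b`, `nu = (-sin th, cos th)`. Its derivative is
`- (m/k^2) nu`, of norm `m/k^2`, the derivative of `-1/k`
(use `norm_image_sub_le_of_norm_deriv_le_segment'`-type lemmas, e.g.
`image_norm_le_of_norm_deriv_right_le_deriv_boundary`).
-/

set_option autoImplicit false

namespace Pool.Agent.Lib.MP_3248c9_gt.Hy

open Finset Filter Topology

variable {ι : Type} [Fintype ι] [DecidableEq ι] {s c : ι → ℝ} {a b th k m : ℝ → ℝ}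

/-- The centre of curvature. -/
noncomputable def ctr (a b th k : ℝ → ℝ) (t : ℝ) : ℂ :=
  ⟨a t - Real.sin (th t) / k t, b t + Real.cos (th t) / k t⟩

/-- Restriction of a ray to a smaller time set. -/
theorem Ray.subset {I I' : Set ℝ} (h : Ray s c I a b th k m) (hI : I' ⊆ I) :
    Ray s c I' a b th k m where
  ha t ht := h.ha t (hI ht)
  hb t ht := h.hb t (hI ht)
  hth t ht := h.hth t (hI ht)
  hk t ht := h.hk t (hI ht)
  pos t ht := h.pos t (hI ht)
  ray t ht := h.ray t (hI ht)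
  mm t ht := h.mm t (hI ht)
  k0 := h.k0
  m0 := h.m0

theorem Ray.k_lower {T : ℝ} (h : Ray s c (Set.Icc 0 T) a b th k m) {t : ℝ}
    (ht : t ∈ Set.Icc (0 : ℝ) T) : k 0 + m 0 * t ≤ k t := by
  have hd : ∀ x ∈ Set.Icc (0 : ℝ) T, HasDerivAt (fun x => k x - m 0 * x) (m x - m 0) x := by
    intro x hx
    have h1 := (h.hk x hx).sub ((hasDerivAt_id x).const_mul (m 0))
    exact h1.congr_deriv (by simp)
  have hmono : MonotoneOn (fun x => k x - m 0 * x) (Set.Icc 0 T) := by
    apply monotoneOn_of_deriv_nonneg (convex_Icc 0 T)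
    · exact fun x hx => (hd x hx).continuousAt.continuousWithinAt
    · exact fun x hx => (hd x (interior_subset hx)).differentiableAt.differentiableWithinAt
    · intro x hx
      rw [(hd x (interior_subset hx)).deriv]
      have := h.mm x (interior_subset hx)
      linarith
  have h0 : (0 : ℝ) ∈ Set.Icc (0 : ℝ) T := ⟨le_rfl, ht.1.trans ht.2⟩
  have := hmono h0 ht ht.1
  simp only [mul_zero, sub_zero] at this
  linarith

private theorem Ray.kpos_Nest {T : ℝ} (h : Ray s c (Set.Icc 0 T) a b th k m) {t : ℝ}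
    (ht : t ∈ Set.Icc (0 : ℝ) T) : 0 < k t := by
  have h1 := h.k_lower ht
  have h2 := mul_nonneg h.m0.le ht.1
  have h3 := h.k0
  linarith

private theorem Ray.ctr_deriv_Nest {T : ℝ} (h : Ray s c (Set.Icc 0 T) a b th k m) {t : ℝ}
    (ht : t ∈ Set.Icc (0 : ℝ) T) :
    HasDerivAt (ctr a b th k)
      ((m t / k t ^ 2 : ℝ) * (⟨Real.sin (th t), - Real.cos (th t)⟩ : ℂ)) t := by
  have hk0 := h.kpos_Nest ht
  have hne : k t ≠ 0 := hk0.ne'
  have h1 : HasDerivAt (fun x => a x - Real.sin (th x) / k x)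
      (m t / k t ^ 2 * Real.sin (th t)) t := by
    have := (h.ha t ht).sub (((h.hth t ht).sin).div (h.hk t ht) hne)
    refine this.congr_deriv ?_
    field_simp
    ring
  have h2 : HasDerivAt (fun x => b x + Real.cos (th x) / k x)
      (m t / k t ^ 2 * (- Real.cos (th t))) t := by
    have := (h.hb t ht).add (((h.hth t ht).cos).div (h.hk t ht) hne)
    refine this.congr_deriv ?_
    field_simp
    ring
  have h3 : ctr a b th k = fun x => ((a x - Real.sin (th x) / k x : ℝ) : ℂ) +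
      ((b x + Real.cos (th x) / k x : ℝ) : ℂ) * Complex.I := by
    funext x
    exact Complex.mk_eq_add_mul_I _ _
  rw [h3]
  have h4 := h1.ofReal_comp.add (h2.ofReal_comp.mul_const Complex.I)
  refine h4.congr_deriv ?_
  rw [Complex.mk_eq_add_mul_I]
  push_cast
  ring

private theorem norm_nu_Nest (x : ℝ) : ‖(⟨Real.sin x, - Real.cos x⟩ : ℂ)‖ = 1 := by
  have h1 : ‖(⟨Real.sin x, - Real.cos x⟩ : ℂ)‖ ^ 2 = 1 := by
    rw [← Complex.normSq_eq_norm_sq, Complex.normSq_mk]
    have := Real.sin_sq_add_cos_sq x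
    nlinarith
  have h2 : (0 : ℝ) ≤ ‖(⟨Real.sin x, - Real.cos x⟩ : ℂ)‖ := norm_nonneg _
  nlinarith

theorem Ray.nested {T : ℝ} (h : Ray s c (Set.Icc 0 T) a b th k m) {r t : ℝ}
    (hr : 0 ≤ r) (hrt : r ≤ t) (ht : t ≤ T) :
    ‖ctr a b th k t - ctr a b th k r‖ ≤ 1 / k r - 1 / k t := by
  have hmem : ∀ x ∈ Set.Icc r t, x ∈ Set.Icc (0 : ℝ) T := fun x hx =>
    ⟨hr.trans hx.1, hx.2.trans ht⟩
  have hf : ∀ x ∈ Set.Icc r t, HasDerivAt (fun x => ctr a b th k x - ctr a b th k r)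
      ((m x / k x ^ 2 : ℝ) * (⟨Real.sin (th x), - Real.cos (th x)⟩ : ℂ)) x := fun x hx =>
    (h.ctr_deriv_Nest (hmem x hx)).sub_const _
  have hB : ∀ x ∈ Set.Icc r t, HasDerivAt (fun x => 1 / k r - 1 / k x) (m x / k x ^ 2) x := by
    intro x hx
    have hne : k x ≠ 0 := (h.kpos_Nest (hmem x hx)).ne'
    have h1 := ((h.hk x (hmem x hx)).inv hne).const_sub (1 / k r)
    have h2 : (fun x => 1 / k r - 1 / k x) = fun x => 1 / k r - (k x)⁻¹ := by
      funext x; rw [one_div (k x)]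
    rw [h2]
    refine h1.congr_deriv ?_
    field_simp
  have key := image_norm_le_of_norm_deriv_right_le_deriv_boundary'
    (f := fun x => ctr a b th k x - ctr a b th k r)
    (f' := fun x => (m x / k x ^ 2 : ℝ) * (⟨Real.sin (th x), - Real.cos (th x)⟩ : ℂ))
    (a := r) (b := t) (B := fun x => 1 / k r - 1 / k x) (B' := fun x => m x / k x ^ 2)
    (fun x hx => (hf x hx).continuousAt.continuousWithinAt)
    (fun x hx => (hf x ⟨hx.1, hx.2.le⟩).hasDerivWithinAt)
    (by simp)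
    (fun x hx => (hB x hx).continuousAt.continuousWithinAt)
    (fun x hx => (hB x ⟨hx.1, hx.2.le⟩).hasDerivWithinAt)
    (by
      intro x hx
      have hx' := hmem x ⟨hx.1, hx.2.le⟩
      rw [norm_mul, norm_nu_Nest, mul_one, Complex.norm_real, Real.norm_eq_abs, abs_of_nonneg]
      exact div_nonneg (h.m0.le.trans (h.mm x hx')) (sq_nonneg _))
  exact key ⟨hrt, le_rfl⟩

/-- The curve stays within distance `2 / k 0` of its initial point. -/
theorem Ray.bdd {T : ℝ} (h : Ray s c (Set.Icc 0 T) a b th k m) {t : ℝ}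
    (ht : t ∈ Set.Icc (0 : ℝ) T) : |a t - a 0| ≤ 2 / k 0 ∧ |b t - b 0| ≤ 2 / k 0 := by
  have hn := h.nested le_rfl ht.1 ht.2
  have h0 : (0 : ℝ) ∈ Set.Icc (0 : ℝ) T := ⟨le_rfl, ht.1.trans ht.2⟩
  have hk0 := h.kpos_Nest h0
  have hkt := h.kpos_Nest ht
  have hre := (Complex.abs_re_le_norm (ctr a b th k t - ctr a b th k 0)).trans hn
  have him := (Complex.abs_im_le_norm (ctr a b th k t - ctr a b th k 0)).trans hn
  have hs : ∀ (x y : ℝ), 0 < y → |x| ≤ 1 → |x / y| ≤ 1 / y := by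
    intro x y hy hx
    rw [abs_div, abs_of_pos hy]
    exact div_le_div_of_nonneg_right hx hy.le
  have s0 := hs _ _ hk0 (Real.abs_sin_le_one (th 0))
  have st := hs _ _ hkt (Real.abs_sin_le_one (th t))
  have c0 := hs _ _ hk0 (Real.abs_cos_le_one (th 0))
  have ct := hs _ _ hkt (Real.abs_cos_le_one (th t))
  simp only [ctr, Complex.sub_re, Complex.sub_im] at hre him
  have h2 : 2 / k 0 = 1 / k 0 + 1 / k 0 := by ring
  rw [h2]
  rw [abs_le] at hre him s0 st c0 ct
  rw [abs_le, abs_le]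
  constructor
  · constructor <;> linarith [hre.1, hre.2, s0.1, s0.2, st.1, st.2]
  · constructor <;> linarith [him.1, him.2, c0.1, c0.2, ct.1, ct.2]

end Pool.Agent.Lib.MP_3248c9_gt.Hy
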