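import Pool.Agent.Lib.MP_3248c9_gt.Hy.RayOf
import Pool.Agent.Lib.MP_3248c9_gt.Hy.Nest
import Pool.Agent.Lib.MP_3248c9_gt.Hy.Glob

/-!
# The ray exists for all positive times

Let `R = 2 / k 0 + 1` with `k 0 = eval (pt 0 0 0) (KP s c)` (the product of the `d_i` is `1` at the
origin), `cl x = max (-R) (min x R)`. Apply `exists_global` on `ℝ × ℝ × ℝ` to the clamped field
`(a, b, th) ↦ (pv (cl a) (cl b) * cos th, pv (cl a) (cl b) * sin th, kv (cl a) (cl b) th)`, which is
bounded and Lipschitz: it is `W ∘ q` with `q (a, b, th) = (cl a, cl b, cos th, sin th)` Lipschitz with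
values in a compact box and `W` smooth (`ContDiffOn.exists_lipschitzOnWith` on the compact convex
box, or by hand). By `ray_of_solution` and `Ray.bdd`: if the solution stays in the open box
`|a|, |b| < R` on `[0, T]` then it satisfies `|a|, |b| <= 2/k 0 = R - 1` there; a connectedness
argument (`IsClosed.Icc_subset_of_forall_exists_gt`) shows that it stays in the box for all
`t >= 0`, where the clamped field is the true one.
-/

set_option autoImplicit false

namespace Pool.Agent.Lib.MP_3248c9_gt.Hy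

open Finset MvPolynomial

/-- Bounded and Lipschitz functions. -/
private def ExiBL {X : Type} [PseudoMetricSpace X] (f : X → ℝ) : Prop :=
  ∃ B K : ℝ, 0 ≤ B ∧ 0 ≤ K ∧ (∀ x, |f x| ≤ B) ∧ ∀ x y, |f x - f y| ≤ K * dist x y

section BL

variable {X : Type} [PseudoMetricSpace X]

private theorem ExiBL.const (r : ℝ) : ExiBL (fun _ : X => r) :=
  ⟨|r|, 0, abs_nonneg _, le_rfl, fun _ => le_rfl, fun _ _ => by simp⟩

private theorem ExiBL.add {f g : X → ℝ} (hf : ExiBL f) (hg : ExiBL g) :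
    ExiBL (fun x => f x + g x) := by
  obtain ⟨B, K, hB, hK, h1, h2⟩ := hf
  obtain ⟨B', K', hB', hK', h1', h2'⟩ := hg
  refine ⟨B + B', K + K', by positivity, by positivity, fun x => ?_, fun x y => ?_⟩
  · exact (abs_add_le _ _).trans (add_le_add (h1 x) (h1' x))
  · have e : f x + g x - (f y + g y) = (f x - f y) + (g x - g y) := by ring
    rw [e, add_mul]
    exact (abs_add_le _ _).trans (add_le_add (h2 x y) (h2' x y))

private theorem ExiBL.mul {f g : X → ℝ} (hf : ExiBL f) (hg : ExiBL g) :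
    ExiBL (fun x => f x * g x) := by
  obtain ⟨B, K, hB, hK, h1, h2⟩ := hf
  obtain ⟨B', K', hB', hK', h1', h2'⟩ := hg
  refine ⟨B * B', B * K' + K * B', by positivity, by positivity, fun x => ?_, fun x y => ?_⟩
  · rw [abs_mul]
    exact mul_le_mul (h1 x) (h1' x) (abs_nonneg _) hB
  · have e : f x * g x - f y * g y = f x * (g x - g y) + (f x - f y) * g y := by ring
    rw [e]
    refine (abs_add_le _ _).trans ?_
    rw [abs_mul, abs_mul, add_mul]
    refine add_le_add ?_ ?_
    · calc |f x| * |g x - g y| ≤ B * (K' * dist x y) :=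
            mul_le_mul (h1 x) (h2' x y) (abs_nonneg _) hB
        _ = B * K' * dist x y := by ring
    · calc |f x - f y| * |g y| ≤ (K * dist x y) * B' :=
            mul_le_mul (h2 x y) (h1' y) (abs_nonneg _) (by positivity)
        _ = K * B' * dist x y := by ring

private theorem ExiBL.neg {f : X → ℝ} (hf : ExiBL f) : ExiBL (fun x => -f x) := by
  have h := (ExiBL.const (X := X) (-1)).mul hf
  have e : (fun x => -1 * f x) = fun x => -f x := by
    funext x
    ring
  rwa [e] at h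

private theorem ExiBL.sub {f g : X → ℝ} (hf : ExiBL f) (hg : ExiBL g) :
    ExiBL (fun x => f x - g x) := by
  have h := hf.add hg.neg
  have e : (fun x => f x + -g x) = fun x => f x - g x := by
    funext x
    ring
  rwa [e] at h

private theorem ExiBL.sum {κ : Type} (u : Finset κ) (f : κ → X → ℝ) (hf : ∀ i ∈ u, ExiBL (f i)) :
    ExiBL (fun x => ∑ i ∈ u, f i x) := by
  classical
  induction u using Finset.induction_on with
  | empty => simpa using ExiBL.const (X := X) 0
  | insert a u ha ih =>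
    have h := (hf a (Finset.mem_insert_self a u)).add
      (ih fun i hi => hf i (Finset.mem_insert_of_mem hi))
    have e : (fun x => f a x + ∑ i ∈ u, f i x) = fun x => ∑ i ∈ insert a u, f i x := by
      funext x
      rw [Finset.sum_insert ha]
    rwa [e] at h

private theorem ExiBL.prod {κ : Type} (u : Finset κ) (f : κ → X → ℝ)
    (hf : ∀ i ∈ u, ExiBL (f i)) : ExiBL (fun x => ∏ i ∈ u, f i x) := by
  classical
  induction u using Finset.induction_on with
  | empty => simpa using ExiBL.const (X := X) 1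
  | insert a u ha ih =>
    have h := (hf a (Finset.mem_insert_self a u)).mul
      (ih fun i hi => hf i (Finset.mem_insert_of_mem hi))
    have e : (fun x => f a x * ∏ i ∈ u, f i x) = fun x => ∏ i ∈ insert a u, f i x := by
      funext x
      rw [Finset.prod_insert ha]
    rwa [e] at h

end BL

private theorem exi_clamp_abs (R x : ℝ) (hR : 0 < R) : |max (-R) (min x R)| ≤ R := by
  rw [abs_le]
  exact ⟨le_max_left _ _, max_le (by linarith) (min_le_right _ _)⟩

private theorem exi_clamp_sub (R x y : ℝ) :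
    |max (-R) (min x R) - max (-R) (min y R)| ≤ |x - y| := by
  have h1 := abs_max_sub_max_le_max (-R) (min x R) (-R) (min y R)
  have h2 := abs_min_sub_min_le_max x R y R
  simp only [sub_self, abs_zero] at h1 h2
  refine h1.trans (max_le (abs_nonneg _) (h2.trans (max_le le_rfl (abs_nonneg _))))

private theorem exi_clamp_self (R x : ℝ) (h : |x| ≤ R) : max (-R) (min x R) = x := by
  rw [abs_le] at h
  rw [min_eq_left h.2, max_eq_right h.1]

private theorem exi_bl_a (R : ℝ) (hR : 0 < R) :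
    ExiBL (fun z : ℝ × ℝ × ℝ => max (-R) (min z.1 R)) := by
  refine ⟨R, 1, hR.le, zero_le_one, fun z => exi_clamp_abs R _ hR, fun z w => ?_⟩
  rw [one_mul]
  refine (exi_clamp_sub R _ _).trans ?_
  rw [← Real.dist_eq, Prod.dist_eq]
  exact le_max_left _ _

private theorem exi_bl_b (R : ℝ) (hR : 0 < R) :
    ExiBL (fun z : ℝ × ℝ × ℝ => max (-R) (min z.2.1 R)) := by
  refine ⟨R, 1, hR.le, zero_le_one, fun z => exi_clamp_abs R _ hR, fun z w => ?_⟩
  rw [one_mul]
  refine (exi_clamp_sub R _ _).trans ?_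
  rw [← Real.dist_eq, Prod.dist_eq, Prod.dist_eq]
  exact (le_max_left _ _).trans (le_max_right _ _)

private theorem exi_bl_cos : ExiBL (fun z : ℝ × ℝ × ℝ => Real.cos z.2.2) := by
  refine ⟨1, 1, zero_le_one, zero_le_one, fun z => Real.abs_cos_le_one _, fun z w => ?_⟩
  rw [one_mul]
  refine (Real.abs_cos_sub_cos_le _ _).trans ?_
  rw [← Real.dist_eq, Prod.dist_eq, Prod.dist_eq]
  exact (le_max_right _ _).trans (le_max_right _ _)

private theorem exi_bl_sin : ExiBL (fun z : ℝ × ℝ × ℝ => Real.sin z.2.2) := by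
  refine ⟨1, 1, zero_le_one, zero_le_one, fun z => Real.abs_sin_le_one _, fun z w => ?_⟩
  rw [one_mul]
  refine (Real.abs_sin_sub_sin_le _ _).trans ?_
  rw [← Real.dist_eq, Prod.dist_eq, Prod.dist_eq]
  exact (le_max_right _ _).trans (le_max_right _ _)

variable {ι : Type} [Fintype ι] [DecidableEq ι] (s c : ι → ℝ)

omit [Fintype ι] [DecidableEq ι] in
private theorem exi_bl_dv (R : ℝ) (hR : 0 < R) (i : ι) :
    ExiBL (fun z : ℝ × ℝ × ℝ => dv s c (max (-R) (min z.1 R)) (max (-R) (min z.2.1 R)) i) := by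
  unfold dv
  exact ((ExiBL.const 1).add ((ExiBL.const (s i)).mul (exi_bl_a R hR))).sub
    ((ExiBL.const (c i)).mul (exi_bl_b R hR))

omit [DecidableEq ι] in
private theorem exi_bl_pv (R : ℝ) (hR : 0 < R) :
    ExiBL (fun z : ℝ × ℝ × ℝ => pv s c (max (-R) (min z.1 R)) (max (-R) (min z.2.1 R))) := by
  unfold pv
  exact ExiBL.prod _ _ fun i _ => exi_bl_dv s c R hR i

private theorem exi_bl_kv (R : ℝ) (hR : 0 < R) :
    ExiBL (fun z : ℝ × ℝ × ℝ =>
      kv s c (max (-R) (min z.1 R)) (max (-R) (min z.2.1 R)) z.2.2) := by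
  unfold kv gv
  exact (ExiBL.const (1 / 3)).mul (ExiBL.sum _ _ fun i _ =>
    (((ExiBL.const (s i)).mul exi_bl_sin).add ((ExiBL.const (c i)).mul exi_bl_cos)).neg.mul
      (ExiBL.prod _ _ fun j _ => exi_bl_dv s c R hR j))

/-- The clamped system has a global solution. -/
theorem exists_clamped (R : ℝ) (hR : 0 < R) :
    ∃ a b th : ℝ → ℝ, a 0 = 0 ∧ b 0 = 0 ∧ th 0 = 0 ∧
      (∀ t, HasDerivAt a (pv s c (max (-R) (min (a t) R)) (max (-R) (min (b t) R)) *
        Real.cos (th t)) t) ∧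
      (∀ t, HasDerivAt b (pv s c (max (-R) (min (a t) R)) (max (-R) (min (b t) R)) *
        Real.sin (th t)) t) ∧
      (∀ t, HasDerivAt th (kv s c (max (-R) (min (a t) R)) (max (-R) (min (b t) R)) (th t)) t) := by
  obtain ⟨B1, K1, hB1, hK1, b1, l1⟩ := (exi_bl_pv s c R hR).mul exi_bl_cos
  obtain ⟨B2, K2, hB2, hK2, b2, l2⟩ := (exi_bl_pv s c R hR).mul exi_bl_sin
  obtain ⟨B3, K3, hB3, hK3, b3, l3⟩ := exi_bl_kv s c R hR
  set v : ℝ × ℝ × ℝ → ℝ × ℝ × ℝ := fun z =>
    (pv s c (max (-R) (min z.1 R)) (max (-R) (min z.2.1 R)) * Real.cos z.2.2,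
      pv s c (max (-R) (min z.1 R)) (max (-R) (min z.2.1 R)) * Real.sin z.2.2,
      kv s c (max (-R) (min z.1 R)) (max (-R) (min z.2.1 R)) z.2.2) with hv
  have hlip : LipschitzWith (Real.toNNReal (K1 + K2 + K3)) v := by
    refine LipschitzWith.of_dist_le_mul fun z w => ?_
    have hd : 0 ≤ dist z w := dist_nonneg
    rw [Real.coe_toNNReal _ (by positivity), Prod.dist_eq, Prod.dist_eq]
    refine max_le ?_ (max_le ?_ ?_)
    · rw [Real.dist_eq]
      refine (l1 z w).trans ?_
      nlinarith [mul_nonneg hK2 hd, mul_nonneg hK3 hd]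
    · rw [Real.dist_eq]
      refine (l2 z w).trans ?_
      nlinarith [mul_nonneg hK1 hd, mul_nonneg hK3 hd]
    · rw [Real.dist_eq]
      refine (l3 z w).trans ?_
      nlinarith [mul_nonneg hK1 hd, mul_nonneg hK2 hd]
  have hbd : ∀ z, ‖v z‖ ≤ B1 + B2 + B3 := by
    intro z
    rw [Prod.norm_def, Prod.norm_def]
    refine max_le ?_ (max_le ?_ ?_)
    · rw [Real.norm_eq_abs]
      refine (b1 z).trans ?_
      linarith
    · rw [Real.norm_eq_abs]
      refine (b2 z).trans ?_
      linarith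
    · rw [Real.norm_eq_abs]
      refine (b3 z).trans ?_
      linarith
  obtain ⟨z, hz0, hz⟩ := exists_global v _ hlip (B1 + B2 + B3) hbd (0, 0, 0)
  refine ⟨fun t => (z t).1, fun t => (z t).2.1, fun t => (z t).2.2, ?_, ?_, ?_, ?_, ?_, ?_⟩
  · change (z 0).1 = 0
    rw [hz0]
  · change (z 0).2.1 = 0
    rw [hz0]
  · change (z 0).2.2 = 0
    rw [hz0]
  · intro t
    exact (ContinuousLinearMap.fst ℝ ℝ (ℝ × ℝ)).hasFDerivAt.comp_hasDerivAt t (hz t)
  · intro t
    exact ((ContinuousLinearMap.fst ℝ ℝ ℝ).comp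
      (ContinuousLinearMap.snd ℝ ℝ (ℝ × ℝ))).hasFDerivAt.comp_hasDerivAt t (hz t)
  · intro t
    exact ((ContinuousLinearMap.snd ℝ ℝ ℝ).comp
      (ContinuousLinearMap.snd ℝ ℝ (ℝ × ℝ))).hasFDerivAt.comp_hasDerivAt t (hz t)

theorem exists_ray (hK : 0 < eval (pt 0 0 0) (KP s c)) (hM : 0 < eval (pt 0 0 0) (MP s c))
    (hF : ∀ j : ℕ, eval (pt 0 0 0) ((VF s c)^[j] (FP s c)) = 0) :
    ∃ a b th k m : ℝ → ℝ, Ray s c (Set.Ici 0) a b th k m := by
  have hk : 0 < kv s c 0 0 0 := by rwa [eval_KP] at hK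
  have hp : pv s c 0 0 = 1 := by
    unfold pv
    refine Finset.prod_eq_one fun i _ => ?_
    unfold dv
    ring
  set R : ℝ := 2 / kv s c 0 0 0 + 1 with hRdef
  have hR2 : 0 < 2 / kv s c 0 0 0 := by positivity
  have hR : 0 < R := by linarith
  obtain ⟨a, b, th, a0, b0, th0, ha, hb, hth⟩ := exists_clamped s c R hR
  -- as long as the curve stays in the box it is a ray
  have key : ∀ T : ℝ, 0 ≤ T → (∀ t ∈ Set.Icc (0 : ℝ) T, |a t| ≤ R ∧ |b t| ≤ R) →
      Ray s c (Set.Icc 0 T) a b th (fun t => kv s c (a t) (b t) (th t) / pv s c (a t) (b t))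
        (fun t => eval (pt (a t) (b t) (th t)) (MP s c) / pv s c (a t) (b t)) := by
    intro T hT hbox
    refine ray_of_solution s c a b th T hT ?_ ?_ ?_ a0 b0 th0 hK hM hF
    · intro t ht
      have h := ha t
      rwa [exi_clamp_self R _ (hbox t ht).1, exi_clamp_self R _ (hbox t ht).2] at h
    · intro t ht
      have h := hb t
      rwa [exi_clamp_self R _ (hbox t ht).1, exi_clamp_self R _ (hbox t ht).2] at h
    · intro t ht
      have h := hth t
      rwa [exi_clamp_self R _ (hbox t ht).1, exi_clamp_self R _ (hbox t ht).2] at h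
  have key2 : ∀ T : ℝ, 0 ≤ T → (∀ t ∈ Set.Icc (0 : ℝ) T, |a t| ≤ R ∧ |b t| ≤ R) →
      |a T| ≤ R - 1 ∧ |b T| ≤ R - 1 := by
    intro T hT hbox
    have h := (key T hT hbox).bdd (t := T) ⟨hT, le_rfl⟩
    have e : R - 1 = 2 / kv s c 0 0 0 := by rw [hRdef]; ring
    simp only [a0, b0, th0, hp, div_one, sub_zero] at h
    rw [e]
    exact h
  have hac : Continuous a := continuous_iff_continuousAt.mpr fun t => (ha t).continuousAt
  have hbc : Continuous b := continuous_iff_continuousAt.mpr fun t => (hb t).continuousAt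
  have hgc : Continuous fun t => max |a t| |b t| := hac.abs.max hbc.abs
  have hbox : ∀ t : ℝ, 0 ≤ t → |a t| ≤ R ∧ |b t| ≤ R := by
    intro t1 ht1
    by_contra hcon
    have hg1 : R - 1 / 2 ≤ max |a t1| |b t1| := by
      by_contra hlt
      push Not at hlt
      refine hcon ⟨?_, ?_⟩
      · linarith [le_max_left |a t1| |b t1|]
      · linarith [le_max_right |a t1| |b t1|]
    have hcl : IsCompact (Set.Icc (0 : ℝ) t1 ∩ {t | R - 1 / 2 ≤ max |a t| |b t|}) :=
      isCompact_Icc.inter_right (isClosed_le continuous_const hgc)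
    obtain ⟨t2, ⟨ht2, hg2⟩, hleast⟩ := hcl.exists_isLeast ⟨t1, ⟨ht1, le_rfl⟩, hg1⟩
    have hg0 : max |a 0| |b 0| ≤ R - 1 / 2 := by
      rw [a0, b0, abs_zero, max_self]
      linarith
    obtain ⟨r, hr, hgr⟩ := intermediate_value_Icc ht2.1 hgc.continuousOn ⟨hg0, hg2⟩
    have hrt : t2 ≤ r := hleast ⟨⟨hr.1, hr.2.trans ht2.2⟩, hgr.ge⟩
    have hre : r = t2 := le_antisymm hr.2 hrt
    rw [hre] at hgr
    have hgr' : max |a t2| |b t2| = R - 1 / 2 := hgr
    have hb2 : ∀ t ∈ Set.Icc (0 : ℝ) t2, |a t| ≤ R ∧ |b t| ≤ R := by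
      intro t ht
      have hle : max |a t| |b t| ≤ R - 1 / 2 := by
        rcases eq_or_lt_of_le ht.2 with h | h
        · rw [h, hgr']
        · by_contra hlt
          push Not at hlt
          exact absurd (hleast ⟨⟨ht.1, ht.2.trans ht2.2⟩, hlt.le⟩) (not_le.mpr h)
      exact ⟨by linarith [le_max_left |a t| |b t|], by linarith [le_max_right |a t| |b t|]⟩
    obtain ⟨h3, h4⟩ := key2 t2 ht2.1 hb2
    have h5 : max |a t2| |b t2| ≤ R - 1 := max_le h3 h4
    linarith
  refine ⟨a, b, th, fun t => kv s c (a t) (b t) (th t) / pv s c (a t) (b t),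
    fun t => eval (pt (a t) (b t) (th t)) (MP s c) / pv s c (a t) (b t), ?_⟩
  have hR' : ∀ T : ℝ, 0 ≤ T → Ray s c (Set.Icc 0 T) a b th
      (fun t => kv s c (a t) (b t) (th t) / pv s c (a t) (b t))
      (fun t => eval (pt (a t) (b t) (th t)) (MP s c) / pv s c (a t) (b t)) :=
    fun T hT => key T hT fun t ht => hbox t ht.1
  exact
    { ha := fun t ht => (hR' t ht).ha t ⟨ht, le_rfl⟩
      hb := fun t ht => (hR' t ht).hb t ⟨ht, le_rfl⟩
      hth := fun t ht => (hR' t ht).hth t ⟨ht, le_rfl⟩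
      hk := fun t ht => (hR' t ht).hk t ⟨ht, le_rfl⟩
      pos := fun t ht => (hR' t ht).pos t ⟨ht, le_rfl⟩
      ray := fun t ht => (hR' t ht).ray t ⟨ht, le_rfl⟩
      mm := fun t ht => (hR' t ht).mm t ⟨ht, le_rfl⟩
      k0 := (hR' 0 le_rfl).k0
      m0 := (hR' 0 le_rfl).m0 }

end Pool.Agent.Lib.MP_3248c9_gt.Hy
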