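import Pool.Agent.Lib.MP_3248c9_gt.Hy.GEv

/-!
# The traces

* `tr_Bt`: `tr (Sh - kp e⊗e) = -2 kp - kp`.
* `tr_Bt2`: `Bt * Bt = Sh * Sh - kp^2 e⊗e` (expand; `Sh e = kp e`, `Sh` symmetric, `rk e * rk e = rk e`).
* `tr_St`: `tr (De ∘ J ∘ Q) = tr (De ∘ J) - <e, De (J e)> - <N, De (J N)> = tr (De ∘ J)` by `de_e` and `J N = 0`.
* `normal_eq`: `k1 = -(om/2)`; `fderiv k1 eh = kp (kp^2 + tr (Bt Bt)) - k1 tr St` is `nrm`.
-/

set_option autoImplicit false

namespace Pool.Agent.Lib.MP_3248c9_gt.Hy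

open Set
open scoped ContDiff

variable {E F : Type} [NormedAddCommGroup E] [NormedSpace ℝ E] [FiniteDimensional ℝ E]
  [NormedAddCommGroup F] [InnerProductSpace ℝ F] [FiniteDimensional ℝ F] [CompleteSpace F]
  {V : Set E} {f N : E → F} {J : E → F →L[ℝ] E} {e : E → F} {kp om : E → ℝ} {x : E}

private theorem gTr_add (A B : F →L[ℝ] F) : tr (A + B) = tr A + tr B :=
  map_add (LinearMap.trace ℝ F) (A : F →ₗ[ℝ] F) (B : F →ₗ[ℝ] F)

private theorem gTr_comm (A B : F →L[ℝ] F) : tr (A * B) = tr (B * A) :=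
  LinearMap.trace_mul_comm ℝ (A : F →ₗ[ℝ] F) (B : F →ₗ[ℝ] F)

private theorem gTr_rk (u : F) : tr (rk u) = inner ℝ u u := by
  have h1 := tr_rk_comp u (1 : F →L[ℝ] F)
  rwa [one_mul] at h1

theorem Fr.tr_Bt (h : Fr V f N J e kp om) (hx : x ∈ V) : tr (Bt N J e kp x) = -3 * kp x := by
  rw [Bt, tr_sub, tr_smul, gTr_rk, h.ee x hx, h.trk x hx]
  ring

theorem Fr.tr_Bt2 (h : Fr V f N J e kp om) (hx : x ∈ V) :
    tr (Bt N J e kp x * Bt N J e kp x) = tr (Sh N J x * Sh N J x) - kp x ^ 2 := by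
  have e1 : Bt N J e kp x * Bt N J e kp x = Sh N J x * Sh N J x -
      kp x • (Sh N J x * rk (e x)) - kp x • (rk (e x) * Sh N J x) +
        kp x • (kp x • (rk (e x) * rk (e x))) := by
    rw [Bt, sub_mul, mul_sub, mul_sub, mul_smul_comm, smul_mul_assoc, smul_mul_assoc,
      mul_smul_comm]
    abel
  have e2 : tr (Sh N J x * rk (e x)) = kp x := by
    rw [tr_rk_comp, h.She x hx, inner_smul_right, h.ee x hx, mul_one]
  have e3 : tr (rk (e x) * rk (e x)) = 1 := by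
    rw [tr_rk_comp, rk_apply, inner_smul_right, h.ee x hx, mul_one]
  rw [e1, gTr_add, tr_sub, tr_sub, tr_smul, tr_smul, tr_smul, tr_smul, gTr_comm (rk (e x)), e2, e3]
  ring

theorem Fr.tr_St (h : Fr V f N J e kp om) (hx : x ∈ V) :
    tr (St N J e x) = tr ((fderiv ℝ e x).comp (J x)) := by
  have e1 : St N J e x = (fderiv ℝ e x).comp (J x) - (fderiv ℝ e x).comp (J x) * rk (e x) -
      (fderiv ℝ e x).comp (J x) * rk (N x) := by
    have e2 : St N J e x = (fderiv ℝ e x).comp (J x) * Qf N e x := rfl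
    rw [e2, Qf, mul_sub, mul_sub, mul_one]
  rw [e1, tr_sub, tr_sub, tr_rk_comp, tr_rk_comp]
  have e2 : inner ℝ (e x) (((fderiv ℝ e x).comp (J x)) (e x)) = 0 := by
    rw [real_inner_comm]
    exact h.de_e hx _
  have e3 : ((fderiv ℝ e x).comp (J x)) (N x) = 0 := by
    show fderiv ℝ e x (J x (N x)) = 0
    rw [h.JN x hx, map_zero]
  rw [e2, e3, inner_zero_right, sub_zero, sub_zero]

theorem Fr.normal_eq (h : Fr V f N J e kp om) (hx : x ∈ V) :
    fderiv ℝ (fun y => -(om y / 2)) x (J x (e x)) =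
      kp x * (kp x ^ 2 + tr (Bt N J e kp x * Bt N J e kp x)) -
        -(om x / 2) * tr (St N J e x) := by
  have hd : DifferentiableAt ℝ om x :=
    ((h.os x hx).contDiffAt (h.op.mem_nhds hx)).differentiableAt (by simp)
  have e1 : fderiv ℝ (fun y => -(om y / 2)) x = (-(1 / 2 : ℝ)) • fderiv ℝ om x := by
    have h1 : (fun y => -(om y / 2)) = fun y => (-(1 / 2 : ℝ)) * om y := by
      funext y
      ring
    rw [h1, fderiv_const_mul hd]
  rw [e1, h.tr_Bt2 hx, h.tr_St hx]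
  have e2 := h.nrm x hx
  have e3 : ((-(1 / 2 : ℝ)) • fderiv ℝ om x) (J x (e x)) =
      -(1 / 2) * fderiv ℝ om x (J x (e x)) := rfl
  rw [e3]
  linear_combination (-(1 / 2 : ℝ)) * e2

end Pool.Agent.Lib.MP_3248c9_gt.Hy
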