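import Pool.Agent.Lib.MP_3248c9_gt.Hy.Zero

/-!
# Exactly one focal line through the end point is impossible

Let `i` be the only index with `d_i(X_e) = 0`. Write `d = d_i`, `g = g_i(th)`, `h = h_i(th)`;
`d' = P h`, `g' = - h P k`, `h' = g P k`, `k = (1/3)(g/d + q)`, `q = sum_{j != i} g_j/d_j`, `|q| <= Q`
for `t >= t_1` (the other `d_j` are bounded away from `0` for large `t`).
`k -> oo`, so (enlarging `t_1`) `g > 0` and `k >= 1` for `t >= t_1`; then `h' > 0`, `h` is increasing on
`[t_1, oo)`.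
* If `h t_2 >= 0` for some `t_2 >= t_1` then `d' = P h >= 0` on `[t_2, oo)`, so `d >= d t_2 > 0`:
  contradiction to `d -> 0`.
* Otherwise `h < 0` on `[t_1, oo)`, `g' > 0`, `g >= g0 := g t_1 > 0`. Let
  `w = (1/3) log d + log g + C h`. `w' = (1/3) P h/d - h P k/g + C g P k
   = -(1/3) P h q/g + C g P k >= P (C g0 k - rho Q/(3 g0)) >= 0` for `C = rho Q/(3 g0^2)`,
  `rho = |s_i| + |c_i|` a bound of `|h|` and `|g|` (use `(1/3) g/d = k - (1/3) q`, and `k >= 1`). So `w` is bounded below,
  `g <= rho`, `|h| <= rho`: `log d` is bounded below; contradiction to `d -> 0`.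
-/

set_option autoImplicit false
set_option linter.unusedSectionVars false

namespace Pool.Agent.Lib.MP_3248c9_gt.Hy

open Finset Filter Topology

variable {ι : Type} [Fintype ι] [DecidableEq ι] {s c : ι → ℝ} {a b th k m : ℝ → ℝ} {x y : ℝ}

private theorem one_mono {f f' : ℝ → ℝ} {t1 : ℝ} (hf : ∀ t, t1 ≤ t → HasDerivAt f (f' t) t)
    (h0 : ∀ t, t1 ≤ t → 0 ≤ f' t) {r t : ℝ} (hr : t1 ≤ r) (hrt : r ≤ t) : f r ≤ f t := by
  have h1 : MonotoneOn f (Set.Ici t1) := by
    refine monotoneOn_of_deriv_nonneg (convex_Ici t1)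
      (fun z hz => (hf z hz).continuousAt.continuousWithinAt) ?_ ?_
    · intro z hz
      rw [interior_Ici] at hz
      exact (hf z (le_of_lt hz)).differentiableAt.differentiableWithinAt
    · intro z hz
      rw [interior_Ici] at hz
      rw [(hf z (le_of_lt hz)).deriv]
      exact h0 z (le_of_lt hz)
  exact h1 hr (hr.trans hrt) hrt

private theorem one_gv_abs (th : ℝ) (i : ι) : |gv s c th i| ≤ |s i| + |c i| := by
  unfold gv
  rw [abs_neg]
  refine (abs_add_le _ _).trans ?_
  rw [abs_mul, abs_mul]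
  exact add_le_add (mul_le_of_le_one_right (abs_nonneg _) (Real.abs_sin_le_one _))
    (mul_le_of_le_one_right (abs_nonneg _) (Real.abs_cos_le_one _))

private theorem one_hv_abs (th : ℝ) (i : ι) : |hv s c th i| ≤ |s i| + |c i| := by
  unfold hv
  rw [sub_eq_add_neg]
  refine (abs_add_le _ _).trans ?_
  rw [abs_neg, abs_mul, abs_mul]
  exact add_le_add (mul_le_of_le_one_right (abs_nonneg _) (Real.abs_cos_le_one _))
    (mul_le_of_le_one_right (abs_nonneg _) (Real.abs_sin_le_one _))

theorem Ray.not_one (h : Ray s c (Set.Ici 0) a b th k m) (he : EndPt a b th k x y) {i : ι}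
    (hi : dv s c x y i = 0) (hu : ∀ j, j ≠ i → 0 < dv s c x y j) : False := by
  -- the other factors
  obtain ⟨Q, hQ⟩ : ∃ Q : ℝ, Q = ∑ j ∈ univ.erase i, (|s j| + |c j|) / (dv s c x y j / 2) :=
    ⟨_, rfl⟩
  have hQ0 : 0 ≤ Q := by
    rw [hQ]
    refine Finset.sum_nonneg fun j hj => ?_
    have h1 := hu j (Finset.ne_of_mem_erase hj)
    positivity
  have hev : ∀ᶠ t in atTop, ∀ j, j ≠ i → dv s c x y j / 2 < dv s c (a t) (b t) j := by
    rw [eventually_all]
    intro j
    by_cases hj : j = i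
    · exact Eventually.of_forall fun t h1 => absurd hj h1
    · have h1 := hu j hj
      have h2 : dv s c x y j / 2 < dv s c x y j := by linarith
      exact ((h.d_tendsto he j).eventually_const_lt h2).mono fun t ht _ => ht
  obtain ⟨t1, ht10, ht1⟩ : ∃ t1 : ℝ, 0 ≤ t1 ∧ ∀ t, t1 ≤ t →
      (∀ j, j ≠ i → dv s c x y j / 2 < dv s c (a t) (b t) j) ∧ 1 + Q ≤ k t := by
    have h1 := (hev.and (h.k_tendsto.eventually_ge_atTop (1 + Q))).and
      (eventually_ge_atTop (0 : ℝ))
    rw [eventually_atTop] at h1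
    obtain ⟨t0, h2⟩ := h1
    exact ⟨max t0 0, le_max_right _ _, fun t ht => (h2 t ((le_max_left _ _).trans ht)).1⟩
  -- notation
  obtain ⟨q, hq⟩ : ∃ q : ℝ → ℝ, ∀ t, q t =
      ∑ j ∈ univ.erase i, gv s c (th t) j / dv s c (a t) (b t) j := ⟨_, fun t => rfl⟩
  obtain ⟨ρ, hρ⟩ : ∃ ρ : ℝ, ρ = |s i| + |c i| := ⟨_, rfl⟩
  obtain ⟨P, hP⟩ : ∃ P : ℝ → ℝ, ∀ t, P t = pv s c (a t) (b t) := ⟨_, fun t => rfl⟩
  obtain ⟨d, hd⟩ : ∃ d : ℝ → ℝ, ∀ t, d t = dv s c (a t) (b t) i := ⟨_, fun t => rfl⟩
  obtain ⟨g, hg⟩ : ∃ g : ℝ → ℝ, ∀ t, g t = gv s c (th t) i := ⟨_, fun t => rfl⟩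
  obtain ⟨h', hh⟩ : ∃ h' : ℝ → ℝ, ∀ t, h' t = hv s c (th t) i := ⟨_, fun t => rfl⟩
  have hPpos : ∀ t, t1 ≤ t → 0 < P t := by
    intro t ht
    rw [hP]
    exact Finset.prod_pos fun j _ => h.pos t (ht10.trans ht) j
  have hdpos : ∀ t, t1 ≤ t → 0 < d t := fun t ht => by
    rw [hd]
    exact h.pos t (ht10.trans ht) i
  have hqQ : ∀ t, t1 ≤ t → |q t| ≤ Q := by
    intro t ht
    rw [hq, hQ]
    refine (Finset.abs_sum_le_sum_abs _ _).trans (Finset.sum_le_sum fun j hj => ?_)
    have hj' := Finset.ne_of_mem_erase hj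
    have h1 := hu j hj'
    have h2 := (ht1 t ht).1 j hj'
    rw [abs_div, abs_of_pos (h.pos t (ht10.trans ht) j)]
    exact div_le_div₀ (by positivity) (one_gv_abs _ _) (by linarith) h2.le
  have hk1 : ∀ t, t1 ≤ t → k t = (1 / 3) * (g t / d t + q t) := by
    intro t ht
    rw [h.ray t (ht10.trans ht), hg, hd, hq]
    congr 1
    exact (Finset.add_sum_erase univ (fun j => gv s c (th t) j / dv s c (a t) (b t) j)
      (Finset.mem_univ i)).symm
  have hgpos : ∀ t, t1 ≤ t → 0 < g t := by
    intro t ht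
    have h1 := hk1 t ht
    have h2 := (abs_le.1 (hqQ t ht)).2
    have h3 := (ht1 t ht).2
    have h4 : 0 < g t / d t := by linarith
    have h5 := mul_pos h4 (hdpos t ht)
    rwa [div_mul_cancel₀ _ (hdpos t ht).ne'] at h5
  -- derivatives
  have dd : ∀ t, t1 ≤ t → HasDerivAt d (P t * h' t) t := by
    intro t ht
    have h1 := ((h.ha t (ht10.trans ht)).const_mul (s i)).const_add 1
    have h2 := h1.sub ((h.hb t (ht10.trans ht)).const_mul (c i))
    have h3 : d = fun t => 1 + s i * a t - c i * b t := funext hd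
    rw [h3]
    refine h2.congr_deriv ?_
    rw [hP, hh]
    unfold hv
    ring
  have dg : ∀ t, t1 ≤ t → HasDerivAt g (-(h' t) * (P t * k t)) t := by
    intro t ht
    have h0 := h.hth t (ht10.trans ht)
    have h1 := ((h0.sin).const_mul (s i)).add ((h0.cos).const_mul (c i))
    have h3 : g = fun t => -(s i * Real.sin (th t) + c i * Real.cos (th t)) := funext hg
    rw [h3]
    refine h1.neg.congr_deriv ?_
    rw [hP, hh]
    unfold hv
    ring
  have dh : ∀ t, t1 ≤ t → HasDerivAt h' (g t * (P t * k t)) t := by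
    intro t ht
    have h0 := h.hth t (ht10.trans ht)
    have h1 := ((h0.cos).const_mul (s i)).sub ((h0.sin).const_mul (c i))
    have h3 : h' = fun t => s i * Real.cos (th t) - c i * Real.sin (th t) := funext hh
    rw [h3]
    refine h1.congr_deriv ?_
    rw [hP, hg]
    unfold gv
    ring
  have hkpos : ∀ t, t1 ≤ t → 1 ≤ k t := fun t ht => by
    have := (ht1 t ht).2
    linarith
  have hdlim : Tendsto d atTop (𝓝 0) := by
    have h1 := h.d_tendsto he i
    rw [hi] at h1
    have h2 : d = fun t => dv s c (a t) (b t) i := funext hd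
    rw [h2]
    exact h1
  have hPk : ∀ t, t1 ≤ t → 0 < P t * k t := fun t ht =>
    mul_pos (hPpos t ht) (lt_of_lt_of_le one_pos (hkpos t ht))
  by_cases hcase : ∃ t2, t1 ≤ t2 ∧ 0 ≤ h' t2
  · obtain ⟨t2, ht2, h20⟩ := hcase
    have h1 : ∀ t, t2 ≤ t → 0 ≤ h' t := fun t ht =>
      h20.trans (one_mono dh (fun r hr => (mul_pos (hgpos r hr) (hPk r hr)).le) ht2 ht)
    have h2 : ∀ t, t2 ≤ t → d t2 ≤ d t := fun t ht =>
      one_mono (t1 := t2) (fun r hr => dd r (ht2.trans hr))
        (fun r hr => mul_nonneg (hPpos r (ht2.trans hr)).le (h1 r hr)) le_rfl ht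
    have h3 : d t2 ≤ 0 := ge_of_tendsto hdlim ((eventually_ge_atTop t2).mono h2)
    exact absurd (hdpos t2 ht2) (not_lt.2 h3)
  · push Not at hcase
    have hg0 : ∀ t, t1 ≤ t → g t1 ≤ g t := fun t ht =>
      one_mono dg (fun r hr => mul_nonneg (neg_nonneg.2 (hcase r hr).le) (hPk r hr).le)
        le_rfl ht
    have hgp := hgpos t1 le_rfl
    have hρ0 : 0 ≤ ρ := by
      rw [hρ]
      positivity
    obtain ⟨C, hC⟩ : ∃ C : ℝ, C = ρ * Q / (3 * g t1 ^ 2) := ⟨_, rfl⟩
    have hC0 : 0 ≤ C := by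
      rw [hC]
      positivity
    obtain ⟨w, hw⟩ : ∃ w : ℝ → ℝ, w = fun t =>
      (1 / 3) * Real.log (d t) + Real.log (g t) + C * h' t := ⟨_, rfl⟩
    have dw : ∀ t, t1 ≤ t → HasDerivAt w ((1 / 3) * (P t * h' t / d t) +
        -(h' t) * (P t * k t) / g t + C * (g t * (P t * k t))) t := by
      intro t ht
      rw [hw]
      exact ((((dd t ht).log (hdpos t ht).ne').const_mul (1 / 3)).add
        ((dg t ht).log (hgpos t ht).ne')).add ((dh t ht).const_mul C)
    have dw0 : ∀ t, t1 ≤ t → 0 ≤ (1 / 3) * (P t * h' t / d t) +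
        -(h' t) * (P t * k t) / g t + C * (g t * (P t * k t)) := by
      intro t ht
      have e1 := hk1 t ht
      have e2 := hdpos t ht
      have e3 := hgpos t ht
      have e4 := hPpos t ht
      have e5 := hkpos t ht
      have e6 := hqQ t ht
      have e7 := hg0 t ht
      have e8 : |h' t| ≤ ρ := by
        rw [hh, hρ]
        exact one_hv_abs _ _
      have e9 : (1 / 3) * (P t * h' t / d t) + -(h' t) * (P t * k t) / g t +
          C * (g t * (P t * k t)) = P t * (C * g t * k t - h' t * q t / (3 * g t)) := by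
        have e10 : g t / d t = 3 * k t - q t := by linarith
        have e11 : 1 / d t = (3 * k t - q t) / g t := by
          rw [← e10]
          field_simp
        have e12 : P t * h' t / d t = P t * h' t * (1 / d t) := by ring
        rw [e12, e11]
        field_simp
        ring
      rw [e9]
      refine mul_nonneg e4.le ?_
      have e10 : h' t * q t / (3 * g t) ≤ ρ * Q / (3 * g t1) := by
        have e11 : h' t * q t ≤ ρ * Q := by
          refine (le_abs_self _).trans ?_
          rw [abs_mul]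
          exact mul_le_mul e8 e6 (abs_nonneg _) hρ0
        exact div_le_div₀ (by positivity) e11 (by positivity) (by linarith)
      have e11 : ρ * Q / (3 * g t1) ≤ C * g t * k t := by
        have e12 : ρ * Q / (3 * g t1) = C * g t1 * 1 := by
          rw [hC]
          field_simp
        rw [e12]
        exact mul_le_mul (mul_le_mul_of_nonneg_left e7 hC0) e5 zero_le_one
          (mul_nonneg hC0 e3.le)
      linarith
    have hwl : ∀ t, t1 ≤ t → w t1 ≤ w t := fun t ht => one_mono dw dw0 le_rfl ht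
    have hlog : ∀ t, t1 ≤ t →
        3 * (w t1 - Real.log (ρ + 1) - C * ρ) ≤ Real.log (d t) := by
      intro t ht
      have e1 := hwl t ht
      have e2 : w t = (1 / 3) * Real.log (d t) + Real.log (g t) + C * h' t := by rw [hw]
      have e3 : Real.log (g t) ≤ Real.log (ρ + 1) := by
        refine Real.log_le_log (hgpos t ht) ?_
        have e4 : |g t| ≤ ρ := by
          rw [hg, hρ]
          exact one_gv_abs _ _
        linarith [le_abs_self (g t)]
      have e4 : C * h' t ≤ C * ρ := by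
        refine mul_le_mul_of_nonneg_left ?_ hC0
        have e5 : |h' t| ≤ ρ := by
          rw [hh, hρ]
          exact one_hv_abs _ _
        exact (le_abs_self _).trans e5
      linarith
    have hlim : Tendsto (fun t => Real.log (d t)) atTop atBot := by
      refine Real.tendsto_log_nhdsGT_zero.comp ?_
      rw [tendsto_nhdsWithin_iff]
      exact ⟨hdlim, (eventually_ge_atTop t1).mono fun t ht => hdpos t ht⟩
    have h1 := (hlim.eventually_lt_atBot (3 * (w t1 - Real.log (ρ + 1) - C * ρ))).and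
      (eventually_ge_atTop t1)
    obtain ⟨t, h2, h3⟩ := h1.exists
    exact absurd (hlog t h3) (not_le.2 h2)

end Pool.Agent.Lib.MP_3248c9_gt.Hy
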