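import Pool.Agent.Lib.MP_3248c9_gt.Hy.Bdd

/-!
# At most one focal line passes through the end point

Suppose `i != j`, `d_i(X_e) = d_j(X_e) = 0`. Let `q = (a - x)^2 + (b - y)^2 = R^2 > 0` (positive because
`d_i(X) > 0 = d_i(X_e)`), `q -> 0`. `|d_i(X)| <= C R`, `|d_j(X)| <= C R`, the other factors are
bounded, so `P <= C1 q`. `q' = 2 P <X - X_e, T> >= - 2 P R`, so `(1/R)' = - q'/(2 R^3) <= P/R^2 <= C1`, hence
`1/R <= C1 t + C2`; with `k >= k 0 + m 0 t` we get `k R >= c0 > 0` for all `t >= 0`. So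
`(th + (c0/2) log q)' >= P k - c0 P/R >= 0`: the function `th + (c0/2) log q` is nondecreasing,
while `log q -> -oo`: then `th -> +oo`, contradicting `Ray.th_bdd`.
-/

set_option autoImplicit false
set_option linter.unusedSectionVars false

namespace Pool.Agent.Lib.MP_3248c9_gt.Hy

open Finset Filter Topology

variable {ι : Type} [Fintype ι] [DecidableEq ι] {s c : ι → ℝ} {a b th k m : ℝ → ℝ} {x y : ℝ}

private theorem two_mono {f f' : ℝ → ℝ} {t1 : ℝ} (hf : ∀ t, t1 ≤ t → HasDerivAt f (f' t) t)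
    (h0 : ∀ t, t1 ≤ t → 0 ≤ f' t) {r t : ℝ} (hr : t1 ≤ r) (hrt : r ≤ t) : f r ≤ f t := by
  have h1 : MonotoneOn f (Set.Ici t1) := by
    refine monotoneOn_of_deriv_nonneg (convex_Ici t1)
      (fun z hz => (hf z hz).continuousAt.continuousWithinAt) ?_ ?_
    · intro z hz
      rw [interior_Ici] at hz
      exact (hf z (le_of_lt hz)).differentiableAt.differentiableWithinAt
    · intro z hz
      rw [interior_Ici] at hz
      rw [(hf z (le_of_lt hz)).deriv]
      exact h0 z (le_of_lt hz)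
  exact h1 hr (hr.trans hrt) hrt

/-- the value of an affine function vanishing at the end point -/
private theorem two_dist {i : ι} (hi : dv s c x y i = 0) (a b : ℝ) :
    |dv s c a b i| ≤ (|s i| + |c i|) * Real.sqrt ((a - x) ^ 2 + (b - y) ^ 2) := by
  have h1 : dv s c a b i = s i * (a - x) - c i * (b - y) := by
    have h2 : dv s c a b i = dv s c a b i - dv s c x y i := by rw [hi, sub_zero]
    rw [h2]
    unfold dv
    ring
  have h3 : |a - x| ≤ Real.sqrt ((a - x) ^ 2 + (b - y) ^ 2) :=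
    Real.abs_le_sqrt (by nlinarith [sq_nonneg (b - y)])
  have h4 : |b - y| ≤ Real.sqrt ((a - x) ^ 2 + (b - y) ^ 2) :=
    Real.abs_le_sqrt (by nlinarith [sq_nonneg (a - x)])
  rw [h1, sub_eq_add_neg]
  refine (abs_add_le _ _).trans ?_
  rw [abs_neg, abs_mul, abs_mul, add_mul]
  exact add_le_add (mul_le_mul_of_nonneg_left h3 (abs_nonneg _))
    (mul_le_mul_of_nonneg_left h4 (abs_nonneg _))

theorem Ray.not_two (h : Ray s c (Set.Ici 0) a b th k m) (he : EndPt a b th k x y) {i j : ι}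
    (hij : i ≠ j) (hi : dv s c x y i = 0) (hj : dv s c x y j = 0) : False := by
  obtain ⟨M, hM⟩ := h.th_bdd he
  -- the other factors
  have hev : ∀ᶠ t in atTop, ∀ l, dv s c (a t) (b t) l < dv s c x y l + 1 := by
    rw [eventually_all]
    intro l
    exact (h.d_tendsto he l).eventually_lt_const (by linarith)
  obtain ⟨t1, ht10, ht1⟩ : ∃ t1 : ℝ, 0 ≤ t1 ∧ ∀ t, t1 ≤ t →
      ∀ l, dv s c (a t) (b t) l < dv s c x y l + 1 := by
    rw [eventually_atTop] at hev
    obtain ⟨t0, h2⟩ := hev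
    exact ⟨max t0 0, le_max_right _ _, fun t ht => h2 t ((le_max_left _ _).trans ht)⟩
  obtain ⟨q, hq⟩ : ∃ q : ℝ → ℝ, q = fun t => (a t - x) ^ 2 + (b t - y) ^ 2 := ⟨_, rfl⟩
  obtain ⟨P, hP⟩ : ∃ P : ℝ → ℝ, ∀ t, P t = pv s c (a t) (b t) := ⟨_, fun t => rfl⟩
  obtain ⟨B, hB⟩ : ∃ B : ℝ, B = ∏ l ∈ (univ.erase i).erase j, (dv s c x y l + 1) := ⟨_, rfl⟩
  obtain ⟨C1, hC1⟩ : ∃ C1 : ℝ, C1 = (|s i| + |c i|) * (|s j| + |c j|) * B := ⟨_, rfl⟩
  have hPpos : ∀ t, t1 ≤ t → 0 < P t := by
    intro t ht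
    rw [hP]
    exact Finset.prod_pos fun l _ => h.pos t (ht10.trans ht) l
  have hB0 : 0 ≤ B := by
    rw [hB]
    refine Finset.prod_nonneg fun l _ => ?_
    have := h.d_nonneg he l
    linarith
  have hC10 : 0 ≤ C1 := by
    rw [hC1]
    positivity
  have hqpos : ∀ t, t1 ≤ t → 0 < q t := by
    intro t ht
    have h1 := h.pos t (ht10.trans ht) i
    rcases (show 0 ≤ q t by rw [hq]; positivity).lt_or_eq with h2 | h2
    · exact h2
    · exfalso
      have h3 : (a t - x) ^ 2 + (b t - y) ^ 2 = 0 := by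
        rw [hq] at h2
        exact h2.symm
      have h4 := two_dist hi (a t) (b t)
      rw [h3, Real.sqrt_zero, mul_zero] at h4
      linarith [le_abs_self (dv s c (a t) (b t) i)]
  have hPq : ∀ t, t1 ≤ t → P t ≤ C1 * q t := by
    intro t ht
    have hi' : i ∈ (univ : Finset ι) := Finset.mem_univ i
    have hj' : j ∈ univ.erase i := Finset.mem_erase.2 ⟨hij.symm, Finset.mem_univ j⟩
    have e1 : P t = dv s c (a t) (b t) i * (dv s c (a t) (b t) j *
        ∏ l ∈ (univ.erase i).erase j, dv s c (a t) (b t) l) := by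
      rw [hP, pv, Finset.mul_prod_erase _ _ hj', Finset.mul_prod_erase _ _ hi']
    have e2 : ∏ l ∈ (univ.erase i).erase j, dv s c (a t) (b t) l ≤ B := by
      rw [hB]
      exact Finset.prod_le_prod (fun l _ => (h.pos t (ht10.trans ht) l).le)
        (fun l _ => (ht1 t ht l).le)
    have e3 : dv s c (a t) (b t) i ≤ (|s i| + |c i|) * Real.sqrt (q t) := by
      rw [hq]
      exact (le_abs_self _).trans (two_dist hi _ _)
    have e4 : dv s c (a t) (b t) j ≤ (|s j| + |c j|) * Real.sqrt (q t) := by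
      rw [hq]
      exact (le_abs_self _).trans (two_dist hj _ _)
    have e5 : Real.sqrt (q t) * Real.sqrt (q t) = q t := Real.mul_self_sqrt (hqpos t ht).le
    have e6 : C1 * q t = (|s i| + |c i|) * Real.sqrt (q t) *
        ((|s j| + |c j|) * Real.sqrt (q t) * B) := by
      rw [hC1]
      nth_rewrite 1 [← e5]
      ring
    rw [e1, e6]
    have e7 := (h.pos t (ht10.trans ht) i).le
    have e8 := (h.pos t (ht10.trans ht) j).le
    have e9 : 0 ≤ ∏ l ∈ (univ.erase i).erase j, dv s c (a t) (b t) l :=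
      Finset.prod_nonneg fun l _ => (h.pos t (ht10.trans ht) l).le
    have e10 : 0 ≤ (|s j| + |c j|) * Real.sqrt (q t) := by positivity
    refine mul_le_mul e3 (mul_le_mul e4 e2 e9 e10) (mul_nonneg e8 e9) ?_
    positivity
  obtain ⟨z, hz⟩ : ∃ z : ℝ → ℝ, z = fun t =>
      (a t - x) * Real.cos (th t) + (b t - y) * Real.sin (th t) := ⟨_, rfl⟩
  have hzR : ∀ t, |z t| ≤ Real.sqrt (q t) := by
    intro t
    refine Real.abs_le_sqrt ?_
    rw [hz, hq]
    nlinarith [sq_nonneg ((a t - x) * Real.sin (th t) - (b t - y) * Real.cos (th t)),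
      Real.sin_sq_add_cos_sq (th t), sq_nonneg (a t - x), sq_nonneg (b t - y)]
  have dq : ∀ t, t1 ≤ t → HasDerivAt q (2 * P t * z t) t := by
    intro t ht
    have h1 := ((h.ha t (ht10.trans ht)).sub_const x).pow 2
    have h2 := ((h.hb t (ht10.trans ht)).sub_const y).pow 2
    rw [hq]
    refine (h1.add h2).congr_deriv ?_
    rw [hz, hP]
    push_cast
    ring
  have hR0 : ∀ t, t1 ≤ t → 0 < Real.sqrt (q t) := fun t ht => Real.sqrt_pos.2 (hqpos t ht)
  have hRR : ∀ t, t1 ≤ t → Real.sqrt (q t) ^ 2 = q t := fun t ht => Real.sq_sqrt (hqpos t ht).le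
  have dR : ∀ t, t1 ≤ t → HasDerivAt (fun t => (Real.sqrt (q t))⁻¹)
      (-(2 * P t * z t / (2 * Real.sqrt (q t))) / Real.sqrt (q t) ^ 2) t := fun t ht =>
    ((dq t ht).sqrt (hqpos t ht).ne').fun_inv (hR0 t ht).ne'
  -- growth of 1 / R
  have hinv : ∀ t, t1 ≤ t → (Real.sqrt (q t))⁻¹ ≤
      C1 * t + (Real.sqrt (q t1))⁻¹ := by
    intro t ht
    have e1 := two_mono (f := fun t => C1 * t - (Real.sqrt (q t))⁻¹)
      (f' := fun t => C1 * 1 - -(2 * P t * z t / (2 * Real.sqrt (q t))) / Real.sqrt (q t) ^ 2)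
      (t1 := t1) (fun r hr => ((hasDerivAt_id r).const_mul C1).sub (dR r hr)) (by
        intro r hr
        have f1 := hR0 r hr
        have f2 := hPpos r hr
        have f3 := hPq r hr
        have f4 := hzR r
        have f5 := hRR r hr
        have f6 : -(2 * P r * z r / (2 * Real.sqrt (q r))) / Real.sqrt (q r) ^ 2 ≤ C1 := by
          have f7 : -(2 * P r * z r / (2 * Real.sqrt (q r))) / Real.sqrt (q r) ^ 2 =
              P r * (-(z r)) / Real.sqrt (q r) ^ 3 := by
            field_simp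
          rw [f7, div_le_iff₀ (by positivity)]
          have f8 : -(z r) ≤ Real.sqrt (q r) := (neg_le_abs _).trans f4
          have f9 : P r * (-(z r)) ≤ P r * Real.sqrt (q r) := mul_le_mul_of_nonneg_left f8 f2.le
          have f10 : P r * Real.sqrt (q r) ≤ C1 * q r * Real.sqrt (q r) :=
            mul_le_mul_of_nonneg_right f3 f1.le
          have f11 : C1 * q r * Real.sqrt (q r) = C1 * Real.sqrt (q r) ^ 3 := by
            rw [← f5]
            rw [Real.sqrt_sq f1.le]
            ring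
          linarith
        linarith) le_rfl ht
    have e2 : 0 ≤ C1 * t1 := mul_nonneg hC10 ht10
    have e3 : C1 * t1 - (Real.sqrt (q t1))⁻¹ ≤ C1 * t - (Real.sqrt (q t))⁻¹ := e1
    linarith
  obtain ⟨C2, hC2⟩ : ∃ C2 : ℝ, C2 = (Real.sqrt (q t1))⁻¹ := ⟨_, rfl⟩
  have hC20 : 0 ≤ C2 := by
    rw [hC2]
    positivity
  have hk0 := h.k0
  have hm0 := h.m0
  obtain ⟨c0, hc0, hc1, hc2⟩ : ∃ c0 : ℝ, 0 < c0 ∧ c0 * C1 ≤ m 0 ∧ c0 * C2 ≤ k 0 := by
    refine ⟨min (m 0 / (C1 + 1)) (k 0 / (C2 + 1)), lt_min (by positivity) (by positivity), ?_, ?_⟩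
    · have e1 : min (m 0 / (C1 + 1)) (k 0 / (C2 + 1)) * C1 ≤ m 0 / (C1 + 1) * (C1 + 1) :=
        mul_le_mul (min_le_left _ _) (by linarith) hC10 (by positivity)
      rwa [div_mul_cancel₀ _ (by positivity : C1 + 1 ≠ 0)] at e1
    · have e1 : min (m 0 / (C1 + 1)) (k 0 / (C2 + 1)) * C2 ≤ k 0 / (C2 + 1) * (C2 + 1) :=
        mul_le_mul (min_le_right _ _) (by linarith) hC20 (by positivity)
      rwa [div_mul_cancel₀ _ (by positivity : C2 + 1 ≠ 0)] at e1
  have hkR : ∀ t, t1 ≤ t → c0 ≤ k t * Real.sqrt (q t) := by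
    intro t ht
    have e1 := hinv t ht
    rw [← hC2] at e1
    have e2 : k 0 + m 0 * t ≤ k t := h.k_ge (ht10.trans ht)
    have e3 : c0 * (C1 * t + C2) ≤ k t := by
      have e4 : c0 * C1 * t ≤ m 0 * t := mul_le_mul_of_nonneg_right hc1 (ht10.trans ht)
      have e5 : c0 * (C1 * t + C2) = c0 * C1 * t + c0 * C2 := by ring
      linarith
    have e4 : c0 * (Real.sqrt (q t))⁻¹ ≤ k t := (mul_le_mul_of_nonneg_left e1 hc0.le).trans e3
    have e5 := mul_le_mul_of_nonneg_right e4 (hR0 t ht).le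
    rwa [mul_assoc, inv_mul_cancel₀ (hR0 t ht).ne', mul_one] at e5
  have hmain : ∀ t, t1 ≤ t → th t1 + c0 / 2 * Real.log (q t1) ≤
      th t + c0 / 2 * Real.log (q t) := by
    intro t ht
    refine two_mono (f := fun t => th t + c0 / 2 * Real.log (q t))
      (f' := fun t => P t * k t + c0 / 2 * (2 * P t * z t / q t))
      (t1 := t1) (fun r hr => ?_) (fun r hr => ?_) le_rfl ht
    · have e1 := h.hth r (ht10.trans hr)
      rw [← hP] at e1
      exact e1.add (((dq r hr).log (hqpos r hr).ne').const_mul (c0 / 2))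
    · have f1 := hR0 r hr
      have f2 := hPpos r hr
      have f3 := hkR r hr
      have f4 := hzR r
      have f5 := hRR r hr
      have f6 := hqpos r hr
      have f7 : P r * k r + c0 / 2 * (2 * P r * z r / q r) =
          P r * (k r * q r + c0 * z r) / q r := by
        field_simp
      rw [f7]
      refine div_nonneg (mul_nonneg f2.le ?_) f6.le
      have f8 : -(z r) ≤ Real.sqrt (q r) := (neg_le_abs _).trans f4
      have f9 : c0 * (-(z r)) ≤ c0 * Real.sqrt (q r) := mul_le_mul_of_nonneg_left f8 hc0.le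
      have f10 : c0 * Real.sqrt (q r) ≤ k r * Real.sqrt (q r) * Real.sqrt (q r) :=
        mul_le_mul_of_nonneg_right f3 f1.le
      have f11 : k r * Real.sqrt (q r) * Real.sqrt (q r) = k r * q r := by
        rw [mul_assoc, ← pow_two, f5]
      linarith
  have hqlim : Tendsto q atTop (𝓝 0) := by
    have e1 : Tendsto (fun t => (a t - x) ^ 2 + (b t - y) ^ 2) atTop
        (𝓝 ((x - x) ^ 2 + (y - y) ^ 2)) :=
      ((he.ta.sub_const x).pow 2).add ((he.tb.sub_const y).pow 2)
    have e2 : (x - x) ^ 2 + (y - y) ^ 2 = (0 : ℝ) := by ring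
    rw [e2] at e1
    rw [hq]
    exact e1
  have hlim : Tendsto (fun t => Real.log (q t)) atTop atBot := by
    refine Real.tendsto_log_nhdsGT_zero.comp ?_
    rw [tendsto_nhdsWithin_iff]
    exact ⟨hqlim, (eventually_ge_atTop t1).mono fun t ht => hqpos t ht⟩
  have h1 := (hlim.eventually_lt_atBot
    ((th t1 + c0 / 2 * Real.log (q t1) - M) / (c0 / 2))).and (eventually_ge_atTop t1)
  obtain ⟨t, h2, h3⟩ := h1.exists
  have h4 := hmain t h3
  have h5 := hM t (ht10.trans h3)
  rw [lt_div_iff₀ (by positivity)] at h2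
  linarith

end Pool.Agent.Lib.MP_3248c9_gt.Hy
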