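import Pool.Agent.Lib.MP_3248c9_gt.Hy.Exi
import Pool.Agent.Lib.MP_3248c9_gt.Hy.Two
import Pool.Agent.Lib.MP_3248c9_gt.Hy.One

/-!
# The planar theorem
-/

set_option autoImplicit false

namespace Pool.Agent.Lib.MP_3248c9_gt.Hy

open Finset MvPolynomial

variable {ι : Type} [Fintype ι] [DecidableEq ι] (s c : ι → ℝ)

theorem planar (hK : 0 < eval (pt 0 0 0) (KP s c)) (hM : 0 < eval (pt 0 0 0) (MP s c))
    (hF : ∀ j : ℕ, eval (pt 0 0 0) ((VF s c)^[j] (FP s c)) = 0) : False := by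
  obtain ⟨a, b, th, k, m, h⟩ := exists_ray s c hK hM hF
  obtain ⟨x, y, hx, hy, hd⟩ := h.limit
  have he : EndPt a b th k x y := ⟨hx, hy, hd⟩
  obtain ⟨i, hi⟩ := h.exists_zero he
  by_cases hu : ∀ j, j ≠ i → 0 < dv s c x y j
  · exact h.not_one he hi hu
  · push Not at hu
    obtain ⟨j, hj, hj2⟩ := hu
    exact h.not_two he hj (le_antisymm hj2 (h.d_nonneg he j)) hi

end Pool.Agent.Lib.MP_3248c9_gt.Hy
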