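import Pool.Agent.Lib.MP_3248c9_gt.Hy.Scd
import Pool.Agent.Lib.MP_3248c9_gt.Hy.PEnd
import Pool.Agent.Lib.MP_3248c9_gt.Hy.Align
import Pool.Agent.Lib.MP_3248c9_gt.Hy.Angle
import Pool.Agent.Lib.MP_3248c9_gt.Hy.Diag

/-!
# The operator system has no solution with `k k' != 0`

* `B 0` and `S 0` commute: the derivative `k S - B S` of the family `B` of symmetric operators is symmetric, so `B S`
  is symmetric, i.e. `B S = S B`.
* `scd_of_star`: `exists_angle`, `align`, `simdiag` for `S 0`, `- B 0`?? NOTE THE SIGN: with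
  `S 0 e_i = s_i e_i`, `B 0 e_i = c_i e_i` we have `D e_i = d_i e_i`, `d_i = 1 + s_i a - c_i b`,
  `S e_i = (h_i/d_i) e_i`, `h_i = s_i cos th - c_i sin th`, `B e_i = ((s_i sin th + c_i cos th)/d_i) e_i
  = (- g_i/d_i) e_i`, on a small interval where all `d_i > 0`. So `trace B = - 3 k` is
  `k = (1/3) sum g_i/d_i`, `trace (B * B) = sum (g_i/d_i)^2`, `trace S = sum h_i/d_i`.
* signs: `(S, B, k) -> (S, -B, -k)` and `(S, B, k)(t) -> (-S, B, k)(-t)` preserve the system; so we may assume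
  `k 0 > 0`, `k1 0 > 0` when `k 0 * k1 0 != 0`.
-/

set_option autoImplicit false

namespace Pool.Agent.Lib.MP_3248c9_gt.Hy

open Set Module Topology

variable {E : Type} [NormedAddCommGroup E] [InnerProductSpace ℝ E] [FiniteDimensional ℝ E]

/-- The system for the operators along the integral curve. -/
structure StarSys (ε : ℝ) (S B : ℝ → E →L[ℝ] E) (k k1 : ℝ → ℝ) : Prop where
  symS : ∀ t ∈ Ioo (-ε) ε, ((S t : E →L[ℝ] E) : E →ₗ[ℝ] E).IsSymmetric
  symB : ∀ t ∈ Ioo (-ε) ε, ((B t : E →L[ℝ] E) : E →ₗ[ℝ] E).IsSymmetric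
  hS : ∀ t ∈ Ioo (-ε) ε, HasDerivAt S (-(S t * S t) - k t • B t) t
  hB : ∀ t ∈ Ioo (-ε) ε, HasDerivAt B (k t • S t - B t * S t) t
  hk : ∀ t ∈ Ioo (-ε) ε, HasDerivAt k (k1 t) t
  hk1 : ∀ t ∈ Ioo (-ε) ε, HasDerivAt k1 (k t * (k t ^ 2 +
    LinearMap.trace ℝ E ((B t * B t : E →L[ℝ] E) : E →ₗ[ℝ] E)) -
      k1 t * LinearMap.trace ℝ E ((S t : E →L[ℝ] E) : E →ₗ[ℝ] E)) t
  tr : ∀ t ∈ Ioo (-ε) ε, LinearMap.trace ℝ E ((B t : E →L[ℝ] E) : E →ₗ[ℝ] E) = -3 * k t

theorem StarSys.comm {ε : ℝ} (hε : 0 < ε) {S B : ℝ → E →L[ℝ] E} {k k1 : ℝ → ℝ}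
    (h : StarSys ε S B k k1) : S 0 * B 0 = B 0 * S 0 := by
  have h0 : (0 : ℝ) ∈ Ioo (-ε) ε := ⟨by linarith, hε⟩
  have hd := h.hB 0 h0
  have hx : ∀ x : E, HasDerivAt (fun t => B t x) ((k 0 • S 0 - B 0 * S 0) x) 0 := by
    intro x
    have h1 := hd.clm_apply (hasDerivAt_const (0 : ℝ) x)
    rwa [map_zero, add_zero] at h1
  have hsym : ∀ x y : E, inner ℝ ((k 0 • S 0 - B 0 * S 0) x) y =
      inner ℝ x ((k 0 • S 0 - B 0 * S 0) y) := by
    intro x y
    have h1 := (hx x).inner ℝ (hasDerivAt_const (0 : ℝ) y)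
    have h2 := (hasDerivAt_const (0 : ℝ) x).inner ℝ (hx y)
    rw [inner_zero_right, zero_add] at h1
    rw [inner_zero_left, add_zero] at h2
    have h3 : (fun t => inner ℝ (B t x) y) =ᶠ[𝓝 (0 : ℝ)] fun t => inner ℝ x (B t y) := by
      filter_upwards [Ioo_mem_nhds h0.1 h0.2] with t ht
      exact h.symB t ht x y
    exact h1.unique (h2.congr_of_eventuallyEq h3)
  have hBS : ∀ x y : E, inner ℝ (B 0 (S 0 x)) y = inner ℝ x (B 0 (S 0 y)) := by
    intro x y
    have h1 := hsym x y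
    have h2 : inner ℝ (S 0 x) y = inner ℝ x (S 0 y) := h.symS 0 h0 x y
    change inner ℝ (k 0 • S 0 x - B 0 (S 0 x)) y = inner ℝ x (k 0 • S 0 y - B 0 (S 0 y)) at h1
    rw [inner_sub_left, inner_sub_right, real_inner_smul_left, real_inner_smul_right, h2] at h1
    linarith
  refine ContinuousLinearMap.ext fun x => ext_inner_right ℝ fun y => ?_
  change inner ℝ (S 0 (B 0 x)) y = inner ℝ (B 0 (S 0 x)) y
  rw [hBS x y]
  have h3 : inner ℝ (S 0 (B 0 x)) y = inner ℝ (B 0 x) (S 0 y) := h.symS 0 h0 _ _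
  have h4 : inner ℝ (B 0 x) (S 0 y) = inner ℝ x (B 0 (S 0 y)) := h.symB 0 h0 _ _
  rw [h3, h4]

theorem StarSys.scd {ε : ℝ} (hε : 0 < ε) {S B : ℝ → E →L[ℝ] E} {k k1 : ℝ → ℝ}
    (h : StarSys ε S B k k1) :
    ∃ (s c : Fin (finrank ℝ E) → ℝ) (δ : ℝ) (a b th : ℝ → ℝ), 0 < δ ∧ Scd s c δ a b th k k1 := by
  have h0 : (0 : ℝ) ∈ Ioo (-ε) ε := ⟨by linarith, hε⟩
  have hkc : ContinuousOn k (Ioo (-ε) ε) := fun t ht => (h.hk t ht).continuousAt.continuousWithinAt
  obtain ⟨a, b, th, a0, b0, th0, ha, hb, hth⟩ := exists_angle k ε hε hkc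
  have hal := align S B k a b th ε hε h.hS h.hB hkc ha hb hth a0 b0 th0
  obtain ⟨e, s, c, he⟩ := simdiag (S 0) (B 0) (h.symS 0 h0) (h.symB 0 h0) (h.comm hε)
  -- the common eigenvectors
  have hD : ∀ t i, (1 + a t • S 0 - b t • B 0 : E →L[ℝ] E) (e i) =
      dv s c (a t) (b t) i • e i := by
    intro t i
    change e i + a t • S 0 (e i) - b t • B 0 (e i) = _
    rw [(he i).1, (he i).2, dv]
    module
  have hSe : ∀ t ∈ Ioo (-ε) ε, ∀ i, 0 < dv s c (a t) (b t) i →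
      S t (e i) = (hv s c (th t) i / dv s c (a t) (b t) i) • e i := by
    intro t ht i hi
    have h1 := congrArg (fun A : E →L[ℝ] E => A (e i)) (hal t ht).1
    change S t ((1 + a t • S 0 - b t • B 0 : E →L[ℝ] E) (e i)) =
      Real.cos (th t) • S 0 (e i) - Real.sin (th t) • B 0 (e i) at h1
    rw [hD, map_smul, (he i).1, (he i).2] at h1
    have h2 : S t (e i) = (dv s c (a t) (b t) i)⁻¹ • dv s c (a t) (b t) i • S t (e i) :=
      (inv_smul_smul₀ hi.ne' _).symm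
    rw [h2, h1, hv]
    module
  have hBe : ∀ t ∈ Ioo (-ε) ε, ∀ i, 0 < dv s c (a t) (b t) i →
      B t (e i) = (-(gv s c (th t) i / dv s c (a t) (b t) i)) • e i := by
    intro t ht i hi
    have h1 := congrArg (fun A : E →L[ℝ] E => A (e i)) (hal t ht).2
    change B t ((1 + a t • S 0 - b t • B 0 : E →L[ℝ] E) (e i)) =
      Real.sin (th t) • S 0 (e i) + Real.cos (th t) • B 0 (e i) at h1
    rw [hD, map_smul, (he i).1, (he i).2] at h1
    have h2 : B t (e i) = (dv s c (a t) (b t) i)⁻¹ • dv s c (a t) (b t) i • B t (e i) :=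
      (inv_smul_smul₀ hi.ne' _).symm
    rw [h2, h1, gv]
    module
  -- positivity near zero
  have hpos : ∀ᶠ t in 𝓝 (0 : ℝ), ∀ i, 0 < dv s c (a t) (b t) i := by
    rw [Filter.eventually_all]
    intro i
    have h1 : ContinuousAt (fun t => dv s c (a t) (b t) i) 0 := by
      unfold dv
      have ha' := (ha 0 h0).continuousAt
      have hb' := (hb 0 h0).continuousAt
      fun_prop
    have h2 : dv s c (a 0) (b 0) i = 1 := by
      rw [a0, b0, dv]
      ring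
    have h3 : (0 : ℝ) < dv s c (a 0) (b 0) i := by
      rw [h2]
      exact one_pos
    exact h1.eventually (lt_mem_nhds h3)
  obtain ⟨δ', hδ', hδpos⟩ := Metric.eventually_nhds_iff.1 hpos
  refine ⟨s, c, min δ' ε, a, b, th, lt_min hδ' hε, ?_⟩
  have hsub : ∀ t ∈ Ioo (-(min δ' ε)) (min δ' ε), t ∈ Ioo (-ε) ε := by
    intro t ht
    have h1 := min_le_right δ' ε
    exact ⟨by linarith [ht.1], by linarith [ht.2]⟩
  have hp : ∀ t ∈ Ioo (-(min δ' ε)) (min δ' ε), ∀ i, 0 < dv s c (a t) (b t) i := by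
    intro t ht
    have h1 := min_le_left δ' ε
    apply hδpos
    rw [Real.dist_eq, sub_zero, abs_lt]
    exact ⟨by linarith [ht.1], by linarith [ht.2]⟩
  refine ⟨fun t ht => ha t (hsub t ht), fun t ht => hb t (hsub t ht),
    fun t ht => hth t (hsub t ht), fun t ht => h.hk t (hsub t ht), fun t ht => ?_, hp,
    fun t ht => ?_, a0, b0, th0⟩
  · have h1 := h.hk1 t (hsub t ht)
    rw [trace_diag e (S t) _ fun i => hSe t (hsub t ht) i (hp t ht i),
      trace_diag e (B t * B t) (fun i => (gv s c (th t) i / dv s c (a t) (b t) i) ^ 2)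
        fun i => ?_] at h1
    · exact h1
    · change B t (B t (e i)) = _
      rw [hBe t (hsub t ht) i (hp t ht i), map_smul, hBe t (hsub t ht) i (hp t ht i), smul_smul]
      congr 1
      ring
  · have h1 := h.tr t (hsub t ht)
    rw [trace_diag e (B t) _ fun i => hBe t (hsub t ht) i (hp t ht i), Finset.sum_neg_distrib] at h1
    linarith

theorem StarSys.false_of_pos {ε : ℝ} (hε : 0 < ε) {S B : ℝ → E →L[ℝ] E} {k k1 : ℝ → ℝ}
    (h : StarSys ε S B k k1) (k0 : 0 < k 0) (k10 : 0 < k1 0) : False := by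
  obtain ⟨s, c, δ, a, b, th, hδ, hs⟩ := h.scd hε
  obtain ⟨h1, h2, h3⟩ := hs.initial hδ
  exact planar s c (h1 ▸ k0) (h2 ▸ k10) h3

theorem StarSys.neg {ε : ℝ} {S B : ℝ → E →L[ℝ] E} {k k1 : ℝ → ℝ}
    (h : StarSys ε S B k k1) :
    StarSys ε S (fun t => -B t) (fun t => -k t) (fun t => -k1 t) := by
  refine ⟨h.symS, fun t ht x y => ?_, fun t ht => ?_, fun t ht => ?_, fun t ht => ?_,
    fun t ht => ?_, fun t ht => ?_⟩
  · have h1 : inner ℝ (B t x) y = inner ℝ x (B t y) := h.symB t ht x y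
    change inner ℝ (-(B t x)) y = inner ℝ x (-(B t y))
    rw [inner_neg_left, inner_neg_right, h1]
  · refine (h.hS t ht).congr_deriv ?_
    rw [smul_neg, neg_smul, neg_neg]
  · refine (h.hB t ht).fun_neg.congr_deriv ?_
    rw [neg_smul, neg_mul, neg_sub, sub_neg_eq_add, neg_add_eq_sub]
  · exact (h.hk t ht).fun_neg
  · refine (h.hk1 t ht).fun_neg.congr_deriv ?_
    rw [neg_mul_neg]
    ring
  · have h1 := h.tr t ht
    rw [ContinuousLinearMap.toLinearMap_neg, map_neg, h1]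
    ring

theorem StarSys.rev {ε : ℝ} {S B : ℝ → E →L[ℝ] E} {k k1 : ℝ → ℝ}
    (h : StarSys ε S B k k1) :
    StarSys ε (fun t => -S (-t)) (fun t => B (-t)) (fun t => k (-t)) (fun t => -k1 (-t)) := by
  have hm : ∀ t ∈ Ioo (-ε) ε, -t ∈ Ioo (-ε) ε := fun t ht => ⟨by linarith [ht.2], by linarith [ht.1]⟩
  refine ⟨fun t ht x y => ?_, fun t ht => h.symB _ (hm t ht), fun t ht => ?_, fun t ht => ?_,
    fun t ht => ?_, fun t ht => ?_, fun t ht => h.tr _ (hm t ht)⟩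
  · have h1 : inner ℝ (S (-t) x) y = inner ℝ x (S (-t) y) := h.symS _ (hm t ht) x y
    change inner ℝ (-(S (-t) x)) y = inner ℝ x (-(S (-t) y))
    rw [inner_neg_left, inner_neg_right, h1]
  · have h1 := (h.hS _ (hm t ht)).scomp t (hasDerivAt_neg t)
    refine h1.fun_neg.congr_deriv ?_
    rw [neg_mul_neg, neg_one_smul, neg_neg]
  · have h1 := (h.hB _ (hm t ht)).scomp t (hasDerivAt_neg t)
    refine h1.congr_deriv ?_
    rw [neg_one_smul, smul_neg, mul_neg, neg_sub, sub_neg_eq_add, neg_add_eq_sub]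
  · have h1 := (h.hk _ (hm t ht)).scomp t (hasDerivAt_neg t)
    refine h1.congr_deriv ?_
    rw [neg_one_smul]
  · have h1 := (h.hk1 _ (hm t ht)).scomp t (hasDerivAt_neg t)
    refine h1.fun_neg.congr_deriv ?_
    rw [neg_one_smul, neg_neg, ContinuousLinearMap.toLinearMap_neg, map_neg]
    ring

theorem StarSys.mul_eq_zero {ε : ℝ} (hε : 0 < ε) {S B : ℝ → E →L[ℝ] E} {k k1 : ℝ → ℝ}
    (h : StarSys ε S B k k1) : k 0 * k1 0 = 0 := by
  by_contra hne
  have hk : k 0 ≠ 0 := left_ne_zero_of_mul hne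
  have hk1 : k1 0 ≠ 0 := right_ne_zero_of_mul hne
  rcases lt_or_gt_of_ne hk with h1 | h1 <;> rcases lt_or_gt_of_ne hk1 with h2 | h2
  · exact h.neg.false_of_pos hε (by simpa using h1) (by simpa using h2)
  · exact h.neg.rev.false_of_pos hε (by simpa using h1) (by simpa using h2)
  · exact h.rev.false_of_pos hε (by simpa using h1) (by simpa using h2)
  · exact h.false_of_pos hε h1 h2

end Pool.Agent.Lib.MP_3248c9_gt.Hy
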