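import Pool.Agent.Lib.MP_3248c9_gt.Hy.GEvS
import Pool.Agent.Lib.MP_3248c9_gt.Hy.GTr
import Pool.Agent.Lib.MP_3248c9_gt.Hy.Star

/-!
# The integral curve and the contradiction

Integral curve `x(t)` of the smooth field `y ↦ J y (e y)` through `x`
(`exists_forall_hasDerivAt_Ioo_eq_of_contDiffAt`, shrink `ε` so that the curve stays in the open set `V`).
`StarSys ε (St ∘ x) (Bt ∘ x) (kp ∘ x) (-(om/2) ∘ x)`: chain rule with `evS`, `evB`, `dk_eh`, `normal_eq`, `tr_Bt`,
`St_symm`, `Bt_symm`; then `StarSys.mul_eq_zero`.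
-/

set_option autoImplicit false

namespace Pool.Agent.Lib.MP_3248c9_gt.Hy

open Set
open scoped ContDiff

variable {E F : Type} [NormedAddCommGroup E] [NormedSpace ℝ E] [FiniteDimensional ℝ E]
  [NormedAddCommGroup F] [InnerProductSpace ℝ F] [FiniteDimensional ℝ F] [CompleteSpace F]
  {V : Set E} {f N : E → F} {J : E → F →L[ℝ] E} {e : E → F} {kp om : E → ℝ} {x : E}

/-- The integral curve of a smooth field in an open set. -/
theorem exists_curve {V : Set E} (hV : IsOpen V) {X : E → E} (hX : ContDiffOn ℝ ∞ X V) (hx : x ∈ V) :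
    ∃ (ε : ℝ) (z : ℝ → E), 0 < ε ∧ z 0 = x ∧ (∀ t ∈ Ioo (-ε) ε, z t ∈ V) ∧
      ∀ t ∈ Ioo (-ε) ε, HasDerivAt z (X (z t)) t := by
  have h1 : ContDiffAt ℝ 1 X x := (hX.contDiffAt (hV.mem_nhds hx)).of_le (mod_cast le_top)
  obtain ⟨z, hz0, δ, hδ, hz⟩ :=
    h1.exists_forall_mem_closedBall_exists_eq_forall_mem_Ioo_hasDerivAt₀ 0
  rw [zero_sub, zero_add] at hz
  have hc : ContinuousAt z 0 := (hz 0 ⟨by linarith, hδ⟩).continuousAt
  have hev : ∀ᶠ t in nhds (0 : ℝ), z t ∈ V := by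
    refine hc.eventually ?_
    rw [hz0]
    exact hV.mem_nhds hx
  obtain ⟨r, hr, hrV⟩ := Metric.eventually_nhds_iff.1 hev
  refine ⟨min δ r, z, lt_min hδ hr, hz0, fun t ht => ?_, fun t ht => ?_⟩
  · apply hrV
    have h2 := min_le_right δ r
    rw [Real.dist_eq, sub_zero, abs_lt]
    exact ⟨by linarith [ht.1], by linarith [ht.2]⟩
  · have h2 := min_le_left δ r
    exact hz t ⟨by linarith [ht.1], by linarith [ht.2]⟩

/-- the chain rule along the curve -/
private theorem GCurve_chain {G : Type} [NormedAddCommGroup G] [NormedSpace ℝ G] {V : Set E}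
    (hV : IsOpen V) {A : E → G} (hA : ContDiffOn ℝ ∞ A V) {z : ℝ → E} {v : E} {t : ℝ}
    (hzV : z t ∈ V) (hz : HasDerivAt z v t) :
    HasDerivAt (fun r => A (z r)) (fderiv ℝ A (z t) v) t := by
  have h1 : DifferentiableAt ℝ A (z t) :=
    (hA.contDiffAt (hV.mem_nhds hzV)).differentiableAt (by simp)
  exact h1.hasFDerivAt.comp_hasDerivAt t hz

theorem Fr.starSys (h : Fr V f N J e kp om)
    (hi : ∀ y ∈ V, Function.Injective (Pg N J e kp y)) {ε : ℝ} {z : ℝ → E}
    (hzV : ∀ t ∈ Ioo (-ε) ε, z t ∈ V)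
    (hz : ∀ t ∈ Ioo (-ε) ε, HasDerivAt z (J (z t) (e (z t))) t) :
    StarSys ε (fun t => St N J e (z t)) (fun t => Bt N J e kp (z t)) (fun t => kp (z t))
      (fun t => -(om (z t) / 2)) where
  symS := fun t ht w w' => h.St_symm (hzV t ht) w w'
  symB := fun t ht w w' => h.Bt_symm (hzV t ht) w w'
  hS := fun t ht => by
    have h1 := GCurve_chain h.op h.St_smooth (hzV t ht) (hz t ht)
    rw [h.evS (hzV t ht) hi] at h1
    exact h1
  hB := fun t ht => by
    have h1 := GCurve_chain h.op h.Bt_smooth (hzV t ht) (hz t ht)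
    rw [h.evB (hzV t ht) (hi _ (hzV t ht))] at h1
    exact h1
  hk := fun t ht => by
    have h1 := GCurve_chain h.op h.ks (hzV t ht) (hz t ht)
    rw [h.dk_eh (hzV t ht)] at h1
    exact h1
  hk1 := fun t ht => by
    have h0 : ContDiffOn ℝ ∞ (fun y => -(om y / 2)) V := (h.os.div_const 2).neg
    have h1 := GCurve_chain h.op h0 (hzV t ht) (hz t ht)
    rw [h.normal_eq (hzV t ht)] at h1
    exact h1
  tr := fun t ht => h.tr_Bt (hzV t ht)

theorem Fr.false_of_simple (h : Fr V f N J e kp om) (hx : x ∈ V)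
    (hi : ∀ y ∈ V, Function.Injective (Pg N J e kp y)) (hk : kp x ≠ 0) : False := by
  have hX : ContDiffOn ℝ ∞ (fun y => J y (e y)) V := h.Js.clm_apply h.es
  obtain ⟨ε, z, hε, hz0, hzV, hz⟩ := exists_curve h.op hX hx
  have h1 := (h.starSys hi hzV hz).mul_eq_zero hε
  rw [hz0] at h1
  have h2 := h.om0 x hx
  rcases mul_eq_zero.1 h1 with h3 | h3
  · exact hk h3
  · apply h2
    linarith

end Pool.Agent.Lib.MP_3248c9_gt.Hy
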