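import Mathlib

/-!
# Hypersurface patches, coordinate free

`f : E → F` is a smooth map on the open set `U` with injective derivative (left inverse `J x`, which
kills the unit normal `N x`), and `Df (J w) = w - <N, w> N`: the codimension is one.
`Sh N J x = - DN(x) ∘ J(x) : F → F` is the shape operator, extended by `0` on the normal.
-/

set_option autoImplicit false

namespace Pool.Agent.Lib.MP_3248c9_gt.Hy

open Set
open scoped ContDiff

variable {E F : Type} [NormedAddCommGroup E] [NormedSpace ℝ E] [FiniteDimensional ℝ E]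
  [NormedAddCommGroup F] [InnerProductSpace ℝ F] [FiniteDimensional ℝ F] [CompleteSpace F]

/-- A hypersurface patch with unit normal `N` and left inverse `J` of the derivative. -/
structure Patch (U : Set E) (f N : E → F) (J : E → F →L[ℝ] E) : Prop where
  op : IsOpen U
  fs : ContDiffOn ℝ ∞ f U
  Ns : ContDiffOn ℝ ∞ N U
  Js : ContDiffOn ℝ ∞ J U
  left : ∀ x ∈ U, ∀ v, J x (fderiv ℝ f x v) = v
  JN : ∀ x ∈ U, J x (N x) = 0
  unit : ∀ x ∈ U, inner ℝ (N x) (N x) = 1
  normal : ∀ x ∈ U, ∀ v, inner ℝ (N x) (fderiv ℝ f x v) = 0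
  dec : ∀ x ∈ U, ∀ w, fderiv ℝ f x (J x w) = w - inner ℝ (N x) w • N x

/-- The shape operator, extended by zero on the normal. -/
noncomputable def Sh (N : E → F) (J : E → F →L[ℝ] E) (x : E) : F →L[ℝ] F :=
  -(fderiv ℝ N x).comp (J x)

/-- The trace of an operator of `F`. -/
noncomputable def tr (A : F →L[ℝ] F) : ℝ := LinearMap.trace ℝ F (A : F →ₗ[ℝ] F)

/-- The trace of the shape operator (`n` times the mean curvature). -/
noncomputable def ph (N : E → F) (J : E → F →L[ℝ] E) (x : E) : ℝ := tr (Sh N J x)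

/-- The gradient of `ph`, as a vector of `F`. -/
noncomputable def gr (N : E → F) (J : E → F →L[ℝ] E) (x : E) : F :=
  (InnerProductSpace.toDual ℝ F).symm ((fderiv ℝ (ph N J) x).comp (J x))

/-- The operator `w ↦ <u, w> u`. -/
noncomputable def rk (u : F) : F →L[ℝ] F := (innerSL ℝ u).smulRight u

/-- A patch which satisfies the two biharmonic equations. -/
structure Bih (U : Set E) (f N : E → F) (J : E → F →L[ℝ] E) : Prop extends Patch U f N J where
  tang : ∀ x ∈ U, Sh N J x (gr N J x) = -(ph N J x / 2) • gr N J x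
  nrml : ∀ x ∈ U, tr ((fderiv ℝ (gr N J) x).comp (J x)) =
    ph N J x * tr (Sh N J x * Sh N J x)

/-- A patch with a principal unit vector field `e` with principal curvature `kp` such that
`grad kp = -(om/2) e`, and the normal equation. -/
structure Fr (V : Set E) (f N : E → F) (J : E → F →L[ℝ] E) (e : E → F) (kp om : E → ℝ) : Prop
    extends Patch V f N J where
  es : ContDiffOn ℝ ∞ e V
  ks : ContDiffOn ℝ ∞ kp V
  os : ContDiffOn ℝ ∞ om V
  ee : ∀ x ∈ V, inner ℝ (e x) (e x) = 1
  eN : ∀ x ∈ V, inner ℝ (N x) (e x) = 0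
  She : ∀ x ∈ V, Sh N J x (e x) = kp x • e x
  dk : ∀ x ∈ V, ∀ v, fderiv ℝ kp x v = -(om x / 2) * inner ℝ (e x) (fderiv ℝ f x v)
  om0 : ∀ x ∈ V, om x ≠ 0
  trk : ∀ x ∈ V, tr (Sh N J x) = -2 * kp x
  nrm : ∀ x ∈ V, fderiv ℝ om x (J x (e x)) + om x * tr ((fderiv ℝ e x).comp (J x)) =
    -2 * kp x * tr (Sh N J x * Sh N J x)

/-- The projection off `e` and `N`. -/
noncomputable def Qf (N e : E → F) (x : E) : F →L[ℝ] F := 1 - rk (e x) - rk (N x)

/-- The shape operator on the complement of `e`. -/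
noncomputable def Bt (N : E → F) (J : E → F →L[ℝ] E) (e : E → F) (kp : E → ℝ) (x : E) :
    F →L[ℝ] F := Sh N J x - kp x • rk (e x)

/-- The shape operator of the level sets of `kp`. -/
noncomputable def St (N : E → F) (J : E → F →L[ℝ] E) (e : E → F) (x : E) : F →L[ℝ] F :=
  (fderiv ℝ e x).comp ((J x).comp (Qf N e x))

/-- The operator which is injective iff `kp` is a simple principal curvature. -/
noncomputable def Pg (N : E → F) (J : E → F →L[ℝ] E) (e : E → F) (kp : E → ℝ) (x : E) :
    F →L[ℝ] F := Bt N J e kp x - kp x • Qf N e x + rk (e x) + rk (N x)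

end Pool.Agent.Lib.MP_3248c9_gt.Hy
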