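import Pool.Agent.Lib.MP_3248c9_gt.Hy.GGeod

/-!
# Algebra of `St`, `Bt`, and the evolution equations

`W = {w | <e, w> = <N, w> = 0}`. Every operator below vanishes on `e` and `N`; an operator identity
is checked on `w ∈ W`, on `e` and on `N` (`op_ext`).

* `St_W`: for `w ∈ W`, `St w = D_{J w} e`; `Bt w = Sh w`; both lie in `W`.
* `evB`: for `w = Df v ∈ W`: `(D_{eh} Sh) w = (D_v Sh) e = (D_v kp) e + (kp - Sh) D_v e = (kp - Sh) St w` (`cod12`, `cod_e`, `D_v kp = 0`), and
  `(D_{eh}(kp e⊗e)) w = 0` since `D_{eh} e = kp N`. On `e`: `(D_{eh} Sh) e = (D_{eh} kp) e + (kp - Sh)(kp N) = (D_{eh} kp) e + kp^2 N` and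
  `D_{eh}(kp e⊗e) e = (D_{eh} kp) e + kp (<kp N, e> e + <e, e> kp N)`: equal. On `N`: `(D_{eh} Sh) N = - Sh (D_{eh} N) = kp Sh e = kp^2 e` and
  `D_{eh}(kp e⊗e) N = kp <kp N, N> e = kp^2 e`: equal.
* `evS`: `St = De ∘ J ∘ Q`, `D_{eh} Q = 0`. For `w = Df v ∈ W`, `v = J w`:
  `(D_{eh} St) w = D^2e(eh, v) + De((D_{eh} J) w) = D^2e(v, eh) - De(J D^2f(eh, v))`; differentiate the identity
  `De(y)(J(y) e(y)) = kp(y) N(y)` (valid near `x`: the simple points are an open set) in the direction `v`: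
  `D^2e(v, eh) + De((D_v J) e + J D_v e) = (D_v kp) N + kp D_v N = - kp Sh w`, and `(D_v J) e = (D_v J)(Df eh) = - J D^2f(v, eh)`.
  So `(D_{eh} St) w = - kp Sh w - De(J (D_v e)) = - kp Bt w - St (St w)`. On `e`, `N`: `St e = 0`, so
  `(D_{eh} St) e = - St (D_{eh} e) = - St(kp N) = 0`, similarly on `N`.
-/

set_option autoImplicit false

namespace Pool.Agent.Lib.MP_3248c9_gt.Hy

open Set
open scoped ContDiff

variable {E F : Type} [NormedAddCommGroup E] [NormedSpace ℝ E] [FiniteDimensional ℝ E]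
  [NormedAddCommGroup F] [InnerProductSpace ℝ F] [FiniteDimensional ℝ F] [CompleteSpace F]
  {V : Set E} {f N : E → F} {J : E → F →L[ℝ] E} {e : E → F} {kp om : E → ℝ} {x : E}

theorem Qf_apply (w : F) :
    Qf N e x w = w - (inner ℝ (e x) w : ℝ) • e x - (inner ℝ (N x) w : ℝ) • N x := by
  change w - rk (e x) w - rk (N x) w = _
  rw [rk_apply, rk_apply]

theorem Qf_of_W {w : F} (he : inner ℝ (e x) w = 0) (hN : inner ℝ (N x) w = 0) :
    Qf N e x w = w := by
  rw [Qf_apply, he, hN, zero_smul, zero_smul, sub_zero, sub_zero]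

theorem Fr.Ne (h : Fr V f N J e kp om) (hx : x ∈ V) : inner ℝ (e x) (N x) = 0 := by
  rw [real_inner_comm]
  exact h.eN x hx

theorem Fr.Qf_e (h : Fr V f N J e kp om) (hx : x ∈ V) : Qf N e x (e x) = 0 := by
  rw [Qf_apply, h.ee x hx, h.eN x hx]
  module

theorem Fr.Qf_N (h : Fr V f N J e kp om) (hx : x ∈ V) : Qf N e x (N x) = 0 := by
  rw [Qf_apply, h.Ne hx, h.unit x hx]
  module

theorem Fr.Qf_W (h : Fr V f N J e kp om) (hx : x ∈ V) (w : F) :
    inner ℝ (e x) (Qf N e x w) = 0 ∧ inner ℝ (N x) (Qf N e x w) = 0 := by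
  rw [Qf_apply]
  simp only [inner_sub_right, real_inner_smul_right, h.ee x hx, h.eN x hx, h.Ne hx, h.unit x hx]
  constructor <;> ring

theorem Bt_apply (w : F) :
    Bt N J e kp x w = Sh N J x w - (kp x * inner ℝ (e x) w) • e x := by
  change Sh N J x w - kp x • rk (e x) w = _
  rw [rk_apply, smul_smul]

theorem St_apply (w : F) : St N J e x w = fderiv ℝ e x (J x (Qf N e x w)) := rfl

theorem Fr.op_ext (h : Fr V f N J e kp om) (hx : x ∈ V) {A B : F →L[ℝ] F}
    (hW : ∀ w, inner ℝ (e x) w = 0 → inner ℝ (N x) w = 0 → A w = B w)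
    (he : A (e x) = B (e x)) (hN : A (N x) = B (N x)) : A = B := by
  refine ContinuousLinearMap.ext fun w => ?_
  have h1 := hW (Qf N e x w) (h.Qf_W hx w).1 (h.Qf_W hx w).2
  rw [Qf_apply] at h1
  simp only [map_sub, map_smul, he, hN] at h1
  have h2 := congrArg (fun u => u + (inner ℝ (N x) w : ℝ) • B (N x) +
    (inner ℝ (e x) w : ℝ) • B (e x)) h1
  simpa using h2

theorem Fr.St_e (h : Fr V f N J e kp om) (hx : x ∈ V) : St N J e x (e x) = 0 := by
  rw [St_apply, h.Qf_e hx, map_zero, map_zero]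
theorem Fr.St_N (h : Fr V f N J e kp om) (hx : x ∈ V) : St N J e x (N x) = 0 := by
  rw [St_apply, h.Qf_N hx, map_zero, map_zero]
theorem Fr.Bt_e (h : Fr V f N J e kp om) (hx : x ∈ V) : Bt N J e kp x (e x) = 0 := by
  rw [Bt_apply, h.She x hx, h.ee x hx, mul_one, sub_self]
theorem Fr.Bt_N (h : Fr V f N J e kp om) (hx : x ∈ V) : Bt N J e kp x (N x) = 0 := by
  rw [Bt_apply, h.toPatch.Sh_N hx, h.Ne hx, mul_zero, zero_smul, sub_zero]

/-- A vector orthogonal to `N` is tangential. -/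
theorem Fr.tanW (h : Fr V f N J e kp om) (hx : x ∈ V) {w : F}
    (hN : inner ℝ (N x) w = 0) : fderiv ℝ f x (J x w) = w := by
  rw [h.dec x hx, hN, zero_smul, sub_zero]

theorem Fr.St_W (h : Fr V f N J e kp om) (hx : x ∈ V) {w : F} (he : inner ℝ (e x) w = 0)
    (hN : inner ℝ (N x) w = 0) :
    St N J e x w = fderiv ℝ e x (J x w) ∧ inner ℝ (e x) (St N J e x w) = 0 ∧
      inner ℝ (N x) (St N J e x w) = 0 := by
  have h1 : St N J e x w = fderiv ℝ e x (J x w) := by
    rw [St_apply, Qf_of_W he hN]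
  refine ⟨h1, ?_, ?_⟩
  · rw [h1, real_inner_comm]
    exact h.de_e hx _
  · rw [h1, real_inner_comm, h.de_N hx, h.tanW hx hN, he, mul_zero]

theorem Fr.Bt_W (h : Fr V f N J e kp om) (hx : x ∈ V) {w : F} (he : inner ℝ (e x) w = 0)
    (hN : inner ℝ (N x) w = 0) :
    Bt N J e kp x w = Sh N J x w ∧ inner ℝ (e x) (Bt N J e kp x w) = 0 ∧
      inner ℝ (N x) (Bt N J e kp x w) = 0 := by
  have _ := hN
  have h1 : Bt N J e kp x w = Sh N J x w := by
    rw [Bt_apply, he, mul_zero, zero_smul, sub_zero]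
  refine ⟨h1, ?_, ?_⟩
  · rw [h1, ← h.toPatch.Sh_symm hx, h.She x hx, real_inner_smul_left, he, mul_zero]
  · rw [h1]
    exact h.toPatch.N_Sh hx w

theorem Fr.Bt_symm (h : Fr V f N J e kp om) (hx : x ∈ V) (w w' : F) :
    inner ℝ (Bt N J e kp x w) w' = inner ℝ w (Bt N J e kp x w') := by
  rw [Bt_apply, Bt_apply, inner_sub_left, inner_sub_right, h.toPatch.Sh_symm hx,
    real_inner_smul_left, real_inner_smul_right, real_inner_comm (e x) w]
  ring

theorem Fr.St_symm (h : Fr V f N J e kp om) (hx : x ∈ V) (w w' : F) :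
    inner ℝ (St N J e x w) w' = inner ℝ w (St N J e x w') := by
  have hQQ : ∀ w : F, St N J e x w = fderiv ℝ e x (J x (Qf N e x w)) := fun w => rfl
  -- `St w` is orthogonal to `e` and `N`
  have ho : ∀ w w' : F, inner ℝ (St N J e x w) w' =
      inner ℝ (fderiv ℝ e x (J x (Qf N e x w))) (fderiv ℝ f x (J x (Qf N e x w'))) := by
    intro w w'
    have h1 := h.St_W hx (h.Qf_W hx w).1 (h.Qf_W hx w).2
    have h2 : St N J e x w = St N J e x (Qf N e x w) := by
      rw [hQQ, h1.1]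
    rw [h.tanW hx (h.Qf_W hx w').2, ← hQQ, h2, Qf_apply (w := w')]
    rw [inner_sub_right, inner_sub_right, real_inner_smul_right, real_inner_smul_right,
      real_inner_comm (e x), real_inner_comm (N x), h1.2.1, h1.2.2, mul_zero, mul_zero, sub_zero,
      sub_zero]
  have h3 := h.hess hx (v := J x (Qf N e x w)) (w := J x (Qf N e x w'))
    (by rw [h.tanW hx (h.Qf_W hx w).2]; exact (h.Qf_W hx w).1)
    (by rw [h.tanW hx (h.Qf_W hx w').2]; exact (h.Qf_W hx w').1)
  rw [ho, h3, ← ho, real_inner_comm]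

theorem Fr.evB (h : Fr V f N J e kp om) (hx : x ∈ V)
    (hi : Function.Injective (Pg N J e kp x)) :
    fderiv ℝ (Bt N J e kp) x (J x (e x)) =
      kp x • St N J e x - Bt N J e kp x * St N J e x := by
  have hn := h.op.mem_nhds hx
  have hSh : DifferentiableAt ℝ (Sh N J) x :=
    (h.toPatch.Sh_smooth.contDiffAt hn).differentiableAt (by simp)
  have hed : DifferentiableAt ℝ e x := (h.es.contDiffAt hn).differentiableAt (by simp)
  have hkd : DifferentiableAt ℝ kp x := (h.ks.contDiffAt hn).differentiableAt (by simp)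
  have hrd : DifferentiableAt ℝ (fun y => rk (e y)) x :=
    ((rk_smooth.contDiffAt (x := e x)).differentiableAt (by simp)).comp x hed
  have hgeod := h.geod hx hi
  have hD : ∀ w, fderiv ℝ (Bt N J e kp) x (J x (e x)) w =
      fderiv ℝ (Sh N J) x (J x (e x)) w -
        ((fderiv ℝ kp x (J x (e x)) * inner ℝ (e x) w) • e x +
          kp x • ((inner ℝ (kp x • N x) w : ℝ) • e x + (inner ℝ (e x) w : ℝ) • kp x • N x)) := by
    intro w
    have h1 : fderiv ℝ (Bt N J e kp) x = fderiv ℝ (Sh N J) x -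
        (kp x • fderiv ℝ (fun y => rk (e y)) x +
          (fderiv ℝ kp x).smulRight (rk (e x))) := by
      exact (hSh.hasFDerivAt.sub (hkd.hasFDerivAt.smul hrd.hasFDerivAt)).fderiv
    rw [h1]
    change fderiv ℝ (Sh N J) x (J x (e x)) w -
      (kp x • fderiv ℝ (fun y => rk (e y)) x (J x (e x)) w +
        fderiv ℝ kp x (J x (e x)) • rk (e x) w) = _
    rw [fderiv_rk hed, hgeod, rk_apply, smul_smul, smul_smul, add_comm]
  refine h.op_ext hx (fun w he hN => ?_) ?_ ?_
  · have hW := h.St_W hx he hN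
    rw [hD, real_inner_smul_left, he, hN]
    have h1 := h.toPatch.cod12 hx (J x (e x)) (J x w)
    rw [h.tanW hx hN, h.e_tan hx, h.cod_e hx, h.dk x hx, h.tanW hx hN, he, ← hW.1] at h1
    rw [h1]
    change _ = kp x • St N J e x w - Bt N J e kp x (St N J e x w)
    rw [(h.Bt_W hx hW.2.1 hW.2.2).1]
    module
  · rw [hD, real_inner_smul_left, h.ee x hx, h.eN x hx, h.cod_e hx, hgeod, map_smul,
      h.toPatch.Sh_N hx]
    change _ = kp x • St N J e x (e x) - Bt N J e kp x (St N J e x (e x))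
    rw [h.St_e hx, map_zero]
    module
  · rw [hD, real_inner_smul_left, h.unit x hx, h.Ne hx, h.toPatch.DSh_N hx, h.dN_eh hx,
      map_neg, map_smul, h.She x hx]
    change _ = kp x • St N J e x (N x) - Bt N J e kp x (St N J e x (N x))
    rw [h.St_N hx, map_zero]
    module

end Pool.Agent.Lib.MP_3248c9_gt.Hy
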