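import Pool.Agent.Lib.MP_3248c9_gt.Hy.GEv

/-!
# The evolution equation of `St`

See the docstring of `GEv.lean` for the proof.
-/

set_option autoImplicit false

namespace Pool.Agent.Lib.MP_3248c9_gt.Hy

open Set
open scoped ContDiff

variable {E F : Type} [NormedAddCommGroup E] [NormedSpace ℝ E] [FiniteDimensional ℝ E]
  [NormedAddCommGroup F] [InnerProductSpace ℝ F] [FiniteDimensional ℝ F] [CompleteSpace F]
  {V : Set E} {f N : E → F} {J : E → F →L[ℝ] E} {e : E → F} {kp om : E → ℝ} {x : E}

/-- The second derivative of a smooth map is symmetric. -/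
theorem symm2 {G : Type} [NormedAddCommGroup G] [NormedSpace ℝ G] {u : E → G}
    (hu : ContDiffAt ℝ ∞ u x) (v w : E) :
    fderiv ℝ (fderiv ℝ u) x v w = fderiv ℝ (fderiv ℝ u) x w v := by
  refine (hu.isSymmSndFDerivAt ?_) v w
  rw [minSmoothness_of_isRCLikeNormedField]
  exact WithTop.coe_le_coe.2 le_top

theorem Fr.evS (h : Fr V f N J e kp om) (hx : x ∈ V)
    (hi : ∀ y ∈ V, Function.Injective (Pg N J e kp y)) :
    fderiv ℝ (St N J e) x (J x (e x)) =
      -(St N J e x * St N J e x) - kp x • Bt N J e kp x := by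
  have hn := h.op.mem_nhds hx
  have hes := h.es.contDiffAt hn
  have hfs := h.fs.contDiffAt hn
  have hed : DifferentiableAt ℝ e x := hes.differentiableAt (by simp)
  have hDe : DifferentiableAt ℝ (fderiv ℝ e) x :=
    (hes.fderiv_right (m := ∞) (by simp)).differentiableAt (by simp)
  have hJ : DifferentiableAt ℝ J x := (h.Js.contDiffAt hn).differentiableAt (by simp)
  have hQ : DifferentiableAt ℝ (Qf N e) x :=
    (h.Qf_smooth.contDiffAt hn).differentiableAt (by simp)
  have hkd : DifferentiableAt ℝ kp x := (h.ks.contDiffAt hn).differentiableAt (by simp)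
  have hNd : DifferentiableAt ℝ N x := (h.Ns.contDiffAt hn).differentiableAt (by simp)
  -- the derivative of `St` in the direction of `e`
  have hD : ∀ w, fderiv ℝ (St N J e) x (J x (e x)) w =
      fderiv ℝ (fderiv ℝ e) x (J x (e x)) (J x (Qf N e x w)) +
        fderiv ℝ e x (fderiv ℝ J x (J x (e x)) (Qf N e x w)) := by
    intro w
    have h1 : HasFDerivAt (fun y => St N J e y w)
        (((fderiv ℝ e x).comp ((J x).comp ((fderiv ℝ (Qf N e) x).flip w) +
          (fderiv ℝ J x).flip (Qf N e x w))) +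
          (fderiv ℝ (fderiv ℝ e) x).flip (J x (Qf N e x w))) x := by
      have h2 : HasFDerivAt (fun y => Qf N e y w) ((fderiv ℝ (Qf N e) x).flip w) x := by
        have h3 := hQ.hasFDerivAt.clm_apply (hasFDerivAt_const w x)
        simpa using h3
      have h4 := hJ.hasFDerivAt.clm_apply h2
      exact hDe.hasFDerivAt.clm_apply h4
    have h2 : HasFDerivAt (fun y => St N J e y w) ((fderiv ℝ (St N J e) x).flip w) x := by
      have h3 := ((h.St_smooth.contDiffAt hn).differentiableAt
        (by simp)).hasFDerivAt.clm_apply (hasFDerivAt_const w x)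
      simpa using h3
    have h3 := congrArg (fun A : E →L[ℝ] F => A (J x (e x))) (h2.unique h1)
    change fderiv ℝ (St N J e) x (J x (e x)) w =
      fderiv ℝ e x (J x (fderiv ℝ (Qf N e) x (J x (e x)) w) +
        fderiv ℝ J x (J x (e x)) (Qf N e x w)) +
        fderiv ℝ (fderiv ℝ e) x (J x (e x)) (J x (Qf N e x w)) at h3
    rw [h3, h.dQ hx (hi x hx)]
    change fderiv ℝ e x (J x 0 + _) + _ = _
    rw [map_zero, zero_add, add_comm]
  refine h.op_ext hx (fun w he hN => ?_) ?_ ?_
  · have hW := h.St_W hx he hN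
    have htan := h.tanW hx hN
    rw [hD, Qf_of_W he hN]
    -- differentiate the equation of `geod` in the direction `J w`
    have h1 : HasFDerivAt (fun y => fderiv ℝ e y (J y (e y)))
        ((fderiv ℝ e x).comp ((J x).comp (fderiv ℝ e x) + (fderiv ℝ J x).flip (e x)) +
          (fderiv ℝ (fderiv ℝ e) x).flip (J x (e x))) x :=
      hDe.hasFDerivAt.clm_apply (hJ.hasFDerivAt.clm_apply hed.hasFDerivAt)
    have h2 : HasFDerivAt (fun y => kp y • N y)
        (kp x • fderiv ℝ N x + (fderiv ℝ kp x).smulRight (N x)) x :=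
      hkd.hasFDerivAt.smul hNd.hasFDerivAt
    have h3 : (fun y => fderiv ℝ e y (J y (e y))) =ᶠ[nhds x] fun y => kp y • N y := by
      filter_upwards [hn] with y hy
      exact h.geod hy (hi y hy)
    have h4 := congrArg (fun A : E →L[ℝ] F => A (J x w))
      (h1.unique (h2.congr_of_eventuallyEq h3))
    change fderiv ℝ e x (J x (fderiv ℝ e x (J x w)) + fderiv ℝ J x (J x w) (e x)) +
      fderiv ℝ (fderiv ℝ e) x (J x w) (J x (e x)) =
      kp x • fderiv ℝ N x (J x w) + fderiv ℝ kp x (J x w) • N x at h4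
    have h5 : fderiv ℝ J x (J x w) (e x) =
        -J x (fderiv ℝ (fderiv ℝ f) x (J x w) (J x (e x))) := by
      have h6 := h.toPatch.DJ hx (J x w) (J x (e x))
      rwa [h.e_tan hx] at h6
    have h6 : fderiv ℝ J x (J x (e x)) w =
        -J x (fderiv ℝ (fderiv ℝ f) x (J x (e x)) (J x w)) := by
      have h7 := h.toPatch.DJ hx (J x (e x)) (J x w)
      rwa [htan] at h7
    rw [h5, h.dk x hx, htan, he, mul_zero, zero_smul, add_zero, h.toPatch.DN_eq hx, htan,
      ← (h.Bt_W hx he hN).1, map_add, map_neg, ← hW.1, smul_neg] at h4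
    rw [h6, map_neg, symm2 hes, symm2 hfs]
    change _ = -(St N J e x (St N J e x w)) - kp x • Bt N J e kp x w
    rw [(h.St_W hx hW.2.1 hW.2.2).1]
    generalize fderiv ℝ e x (J x (St N J e x w)) = a1 at h4 ⊢
    generalize fderiv ℝ e x (J x (fderiv ℝ (fderiv ℝ f) x (J x w) (J x (e x)))) = a2 at h4 ⊢
    generalize fderiv ℝ (fderiv ℝ e) x (J x w) (J x (e x)) = a3 at h4 ⊢
    rw [show a3 + -a2 = a1 + -a2 + a3 - a1 by abel, h4]
    abel
  · rw [hD, h.Qf_e hx, map_zero, map_zero, map_zero, map_zero, add_zero]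
    change _ = -(St N J e x (St N J e x (e x))) - kp x • Bt N J e kp x (e x)
    rw [h.St_e hx, h.Bt_e hx, map_zero, smul_zero, neg_zero, sub_zero]
  · rw [hD, h.Qf_N hx, map_zero, map_zero, map_zero, map_zero, add_zero]
    change _ = -(St N J e x (St N J e x (N x))) - kp x • Bt N J e kp x (N x)
    rw [h.St_N hx, h.Bt_N hx, map_zero, smul_zero, neg_zero, sub_zero]

end Pool.Agent.Lib.MP_3248c9_gt.Hy
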