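import Pool.Agent.Lib.MP_3248c9_gt.Hy.GCod

/-!
# The frame equations

With `eh = J e` (so `Df eh = e`):
* `de_e`: differentiate `<e, e> = 1`.  * `de_N`: differentiate `<N, e> = 0`: `<D_v e, N> = - <e, D_v N> = <e, Sh Df v> = kp <e, Df v>`.
* `hess`: the second derivative of `kp` is symmetric; differentiate `dk`:
  `D^2 kp(v, w) = -(1/2)(D_v om <e, Df w> + om <D_v e, Df w> + om <e, D^2f(v, w)>)`; for `v, w` with `<e, Df v> = <e, Df w> = 0`
  the first term vanishes, the last one is symmetric.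
* `cod_e`: differentiate `Sh e = kp e`: `(D_v Sh) e = (D_v kp) e + kp D_v e - Sh (D_v e)`.
* `geo0`: `cod12` with `k = v', v = eh`: `<(D_{eh} Sh) e, Df w> = <(D_w Sh) e, e>` (by `cod12`, `cod23`), the right side is
  `D_w kp + <(kp - Sh) D_w e, e> = D_w kp`, and `D_w kp = (D_{eh} kp) <e, Df w>` by `dk`.
* `simple_dir`: if `<e, Df v> = 0` and `Sh (Df v) = kp Df v` then `<(D_{eh} Sh)(Df v), Df v> = 0`
  (`= <(D_v Sh) e, Df v> = (D_v kp) * 0 + <D_v e, (kp - Sh) Df v> = 0`).
-/

set_option autoImplicit false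
set_option linter.unusedSectionVars false

namespace Pool.Agent.Lib.MP_3248c9_gt.Hy

open Set
open scoped ContDiff

variable {E F : Type} [NormedAddCommGroup E] [NormedSpace ℝ E] [FiniteDimensional ℝ E]
  [NormedAddCommGroup F] [InnerProductSpace ℝ F] [FiniteDimensional ℝ F] [CompleteSpace F]
  {V : Set E} {f N : E → F} {J : E → F →L[ℝ] E} {e : E → F} {kp om : E → ℝ} {x : E}

/-- Smooth maps on the open set are differentiable at its points. -/
theorem gfr_diff {G : Type} [NormedAddCommGroup G] [NormedSpace ℝ G] {g : E → G}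
    (ho : IsOpen V) (hg : ContDiffOn ℝ ∞ g V) (hx : x ∈ V) : DifferentiableAt ℝ g x :=
  (hg.contDiffAt (ho.mem_nhds hx)).differentiableAt (by simp)

/-- Equal on an open set: equal derivatives. -/
theorem gfr_congr {G : Type} [NormedAddCommGroup G] [NormedSpace ℝ G] {g g' : E → G}
    (ho : IsOpen V) (hg : ∀ y ∈ V, g y = g' y) (hx : x ∈ V) : fderiv ℝ g x = fderiv ℝ g' x :=
  Filter.EventuallyEq.fderiv_eq (Filter.eventuallyEq_of_mem (ho.mem_nhds hx) hg)

/-- The derivative of an inner product. -/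
theorem gfr_inner {g g' : E → F} (hg : DifferentiableAt ℝ g x) (hg' : DifferentiableAt ℝ g' x)
    (v : E) : fderiv ℝ (fun y => (inner ℝ (g y) (g' y) : ℝ)) x v =
      inner ℝ (g x) (fderiv ℝ g' x v) + inner ℝ (fderiv ℝ g x v) (g' x) :=
  fderiv_inner_apply ℝ hg hg' v

/-- The derivative of `A y (u y)`. -/
theorem gfr_app {G H : Type} [NormedAddCommGroup G] [NormedSpace ℝ G] [NormedAddCommGroup H]
    [NormedSpace ℝ H] {A : E → G →L[ℝ] H} {u : E → G} (hA : DifferentiableAt ℝ A x)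
    (hu : DifferentiableAt ℝ u x) (v : E) :
    fderiv ℝ (fun y => A y (u y)) x v = A x (fderiv ℝ u x v) + fderiv ℝ A x v (u x) := by
  rw [fderiv_clm_apply hA hu]
  rfl

/-- The derivative of `c y • u y`. -/
theorem gfr_smul {G : Type} [NormedAddCommGroup G] [NormedSpace ℝ G] {c : E → ℝ} {u : E → G}
    (hc : DifferentiableAt ℝ c x) (hu : DifferentiableAt ℝ u x) (v : E) :
    fderiv ℝ (fun y => c y • u y) x v = c x • fderiv ℝ u x v + fderiv ℝ c x v • u x := by
  rw [fderiv_fun_smul hc hu]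
  rfl

theorem Fr.e_tan (h : Fr V f N J e kp om) (hx : x ∈ V) : fderiv ℝ f x (J x (e x)) = e x := by
  rw [h.dec x hx, h.eN x hx, zero_smul, sub_zero]

theorem Fr.de_e (h : Fr V f N J e kp om) (hx : x ∈ V) (v : E) :
    inner ℝ (fderiv ℝ e x v) (e x) = 0 := by
  have he := gfr_diff h.op h.es hx
  have h1 := gfr_inner he he v
  have h2 := gfr_congr h.op (g := fun y => (inner ℝ (e y) (e y) : ℝ)) (g' := fun _ => 1)
    (fun y hy => h.ee y hy) hx
  rw [h2, fderiv_fun_const, Pi.zero_apply, zero_apply,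
    real_inner_comm (fderiv ℝ e x v) (e x)] at h1
  linarith

theorem Fr.de_N (h : Fr V f N J e kp om) (hx : x ∈ V) (v : E) :
    inner ℝ (fderiv ℝ e x v) (N x) = kp x * inner ℝ (e x) (fderiv ℝ f x v) := by
  have he := gfr_diff h.op h.es hx
  have hN := gfr_diff h.op h.Ns hx
  have h1 := gfr_inner hN he v
  have h2 := gfr_congr h.op (g := fun y => (inner ℝ (N y) (e y) : ℝ)) (g' := fun _ => 0)
    (fun y hy => h.eN y hy) hx
  rw [h2, fderiv_fun_const, Pi.zero_apply, zero_apply, h.DN_eq hx,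
    inner_neg_left, h.Sh_symm hx, h.She x hx, inner_smul_right] at h1
  rw [real_inner_comm (N x), real_inner_comm (fderiv ℝ f x v)]
  linarith

theorem Fr.hess (h : Fr V f N J e kp om) (hx : x ∈ V) {v w : E}
    (hv : inner ℝ (e x) (fderiv ℝ f x v) = 0) (hw : inner ℝ (e x) (fderiv ℝ f x w) = 0) :
    inner ℝ (fderiv ℝ e x v) (fderiv ℝ f x w) = inner ℝ (fderiv ℝ e x w) (fderiv ℝ f x v) := by
  have he := gfr_diff h.op h.es hx
  have ho := gfr_diff h.op h.os hx
  have hf' := gfr_diff h.op h.Df_smooth hx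
  have hk' : DifferentiableAt ℝ (fderiv ℝ kp) x :=
    ((h.ks.contDiffAt (h.op.mem_nhds hx)).fderiv_right (m := 1) (by
      norm_cast)).differentiableAt one_ne_zero
  -- the second derivative of `kp`
  have key : ∀ a b : E, inner ℝ (e x) (fderiv ℝ f x b) = 0 →
      fderiv ℝ (fderiv ℝ kp) x a b = -(om x / 2) *
        (inner ℝ (e x) (fderiv ℝ (fderiv ℝ f) x a b) +
          inner ℝ (fderiv ℝ e x a) (fderiv ℝ f x b)) := by
    intro a b hb
    have h1 : fderiv ℝ (fun y => fderiv ℝ kp y b) x a = fderiv ℝ (fderiv ℝ kp) x a b := by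
      rw [gfr_app hk' (differentiableAt_const b)]
      simp
    have h2 : fderiv ℝ (fun y => fderiv ℝ f y b) x a = fderiv ℝ (fderiv ℝ f) x a b := by
      rw [gfr_app hf' (differentiableAt_const b)]
      simp
    have hfb : DifferentiableAt ℝ (fun y => fderiv ℝ f y b) x :=
      hf'.clm_apply (differentiableAt_const b)
    have h3 := gfr_congr h.op (g := fun y => fderiv ℝ kp y b)
      (g' := fun y => -(om y / 2) • (inner ℝ (e y) (fderiv ℝ f y b) : ℝ))
      (fun y hy => by rw [h.dk y hy, smul_eq_mul]) hx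
    have hom : DifferentiableAt ℝ (fun y => -(om y / 2)) x := by
      have h5 : (fun y => -(om y / 2)) = fun y => (-(1 / 2 : ℝ)) * om y := by
        funext y
        ring
      rw [h5]
      exact ho.const_mul _
    have h4 := gfr_smul hom (he.inner ℝ hfb) a
    rw [← h1, h3, h4, gfr_inner he hfb, h2, hb, smul_zero, add_zero, smul_eq_mul]
  have hsk : fderiv ℝ (fderiv ℝ kp) x v w = fderiv ℝ (fderiv ℝ kp) x w v :=
    ((h.ks.contDiffAt (h.op.mem_nhds hx)).isSymmSndFDerivAt (by simp; norm_cast)).eq v w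
  rw [key v w hw, key w v hv, h.f2_symm hx v w] at hsk
  have h0 := h.om0 x hx
  have h5 : -(om x / 2) ≠ 0 := by
    intro h6
    apply h0
    linarith
  have h6 := mul_left_cancel₀ h5 hsk
  linarith

theorem Fr.cod_e (h : Fr V f N J e kp om) (hx : x ∈ V) (v : E) :
    fderiv ℝ (Sh N J) x v (e x) =
      fderiv ℝ kp x v • e x + kp x • fderiv ℝ e x v - Sh N J x (fderiv ℝ e x v) := by
  have he := gfr_diff h.op h.es hx
  have hk := gfr_diff h.op h.ks hx
  have hS := gfr_diff h.op h.Sh_smooth hx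
  have h1 := gfr_congr h.op (g := fun y => Sh N J y (e y)) (g' := fun y => kp y • e y)
    (fun y hy => h.She y hy) hx
  have h2 := gfr_app hS he v
  have h3 := gfr_smul hk he v
  rw [h1, h3] at h2
  rw [eq_sub_iff_add_eq, add_comm (fderiv ℝ kp x v • e x), h2, add_comm]

theorem Fr.dk_eh (h : Fr V f N J e kp om) (hx : x ∈ V) :
    fderiv ℝ kp x (J x (e x)) = -(om x / 2) := by
  rw [h.dk x hx, h.e_tan hx, h.ee x hx, mul_one]

theorem Fr.geo0 (h : Fr V f N J e kp om) (hx : x ∈ V) (w : E) :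
    inner ℝ (kp x • fderiv ℝ e x (J x (e x)) - Sh N J x (fderiv ℝ e x (J x (e x))))
      (fderiv ℝ f x w) = 0 := by
  have h1 := h.cod_e hx (J x (e x))
  have h2 : kp x • fderiv ℝ e x (J x (e x)) - Sh N J x (fderiv ℝ e x (J x (e x))) =
      fderiv ℝ (Sh N J) x (J x (e x)) (e x) - fderiv ℝ kp x (J x (e x)) • e x := by
    rw [h1]
    abel
  rw [h2, inner_sub_left, h.cod23 hx, h.cod12 hx, h.e_tan hx, h.cod_e hx w, inner_sub_right,
    inner_add_right, inner_smul_right, inner_smul_right, inner_smul_left, ← h.Sh_symm hx,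
    h.She x hx, inner_smul_left, h.ee x hx, h.dk_eh hx, h.dk x hx]
  simp only [conj_trivial]
  ring

theorem Fr.simple_dir (h : Fr V f N J e kp om) (hx : x ∈ V) {v : E}
    (hv : inner ℝ (e x) (fderiv ℝ f x v) = 0)
    (hs : Sh N J x (fderiv ℝ f x v) = kp x • fderiv ℝ f x v) :
    inner ℝ (fderiv ℝ (Sh N J) x (J x (e x)) (fderiv ℝ f x v)) (fderiv ℝ f x v) = 0 := by
  rw [h.cod12 hx, h.e_tan hx, h.cod_e hx v, inner_sub_left, inner_add_left, inner_smul_left,
    inner_smul_left, h.Sh_symm hx, hs, inner_smul_right, hv]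
  simp only [conj_trivial]
  ring

end Pool.Agent.Lib.MP_3248c9_gt.Hy
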