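import Pool.Agent.Lib.MP_3248c9_gt.Hy.GSimple

/-!
# At simple points: `D_{eh} e = kp N`, `D_{eh} N = - kp e`, `D_{eh} Q = 0`

Let `p = D_{eh} e - kp N`. `<p, N> = 0` by `de_N`, `<p, e> = 0` by `de_e`, `geo0` says that the tangential part of
`kp p - Sh p` vanishes (`Sh N = 0`, and `kp * kp N` is normal), and `kp p - Sh p` is tangential; so
`Sh p = kp p` and `Pg p = 0`, `p = 0` by injectivity.
-/

set_option autoImplicit false

namespace Pool.Agent.Lib.MP_3248c9_gt.Hy

open Set
open scoped ContDiff

variable {E F : Type} [NormedAddCommGroup E] [NormedSpace ℝ E] [FiniteDimensional ℝ E]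
  [NormedAddCommGroup F] [InnerProductSpace ℝ F] [FiniteDimensional ℝ F] [CompleteSpace F]
  {V : Set E} {f N : E → F} {J : E → F →L[ℝ] E} {e : E → F} {kp om : E → ℝ} {x : E}

theorem Fr.geod (h : Fr V f N J e kp om) (hx : x ∈ V)
    (hi : Function.Injective (Pg N J e kp x)) :
    fderiv ℝ e x (J x (e x)) = kp x • N x := by
  set q : F := fderiv ℝ e x (J x (e x)) with hq
  have hqe : inner ℝ q (e x) = 0 := h.de_e hx (J x (e x))
  have hqN : inner ℝ q (N x) = kp x := by
    have h1 := h.de_N hx (J x (e x))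
    rw [h.e_tan hx, h.ee x hx, mul_one] at h1
    exact h1
  have hNN : inner ℝ (N x) (N x) = 1 := h.unit x hx
  have hNe : inner ℝ (N x) (e x) = 0 := h.eN x hx
  have heN : inner ℝ (e x) (N x) = 0 := by rw [real_inner_comm]; exact hNe
  set p : F := q - kp x • N x with hp
  have hNp : inner ℝ (N x) p = 0 := by
    rw [hp, inner_sub_right, inner_smul_right, hNN, real_inner_comm, hqN]
    ring
  have hep : inner ℝ (e x) p = 0 := by
    rw [hp, inner_sub_right, inner_smul_right, heN, real_inner_comm, hqe]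
    ring
  have hShp : Sh N J x p = Sh N J x q := by
    rw [hp, map_sub, map_smul, h.toPatch.Sh_N hx, smul_zero, sub_zero]
  have hw : kp x • p - Sh N J x p = 0 := by
    apply h.toPatch.ext_tan hx
    · rw [inner_sub_right, inner_smul_right, hNp, h.toPatch.N_Sh hx]
      ring
    · exact inner_zero_right _
    · intro v
      have h1 := h.geo0 hx v
      have h2 : kp x • p - Sh N J x p =
          (kp x • q - Sh N J x q) - (kp x * kp x) • N x := by
        rw [hShp, hp, smul_sub, smul_smul]
        abel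
      rw [h2, inner_sub_left, h1, inner_smul_left, h.normal x hx v, inner_zero_left]
      simp
  have hSh : Sh N J x p = kp x • p := (sub_eq_zero.mp hw).symm
  have hre : rk (e x) p = 0 := by rw [rk_apply, hep, zero_smul]
  have hrN : rk (N x) p = 0 := by rw [rk_apply, hNp, zero_smul]
  have hP : Pg N J e kp x p = 0 := by
    simp only [Pg, Bt, Qf, ContinuousLinearMap.add_apply, ContinuousLinearMap.sub_apply,
      ContinuousLinearMap.smul_apply, ContinuousLinearMap.one_apply, hre, hrN, hSh]
    simp
  have hp0 : p = 0 := hi (by rw [hP, map_zero])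
  rw [hp] at hp0
  exact sub_eq_zero.mp hp0

theorem Fr.dN_eh (h : Fr V f N J e kp om) (hx : x ∈ V) :
    fderiv ℝ N x (J x (e x)) = -(kp x • e x) := by
  rw [h.toPatch.DN_eq hx, h.e_tan hx, h.She x hx]

theorem Fr.dQ (h : Fr V f N J e kp om) (hx : x ∈ V)
    (hi : Function.Injective (Pg N J e kp x)) :
    fderiv ℝ (Qf N e) x (J x (e x)) = 0 := by
  have hV := h.op.mem_nhds hx
  have hed : DifferentiableAt ℝ e x := (h.es.contDiffAt hV).differentiableAt (by simp)
  have hNd : DifferentiableAt ℝ N x := (h.Ns.contDiffAt hV).differentiableAt (by simp)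
  have hrd : Differentiable ℝ (fun u : F => rk u) := rk_smooth.differentiable (by simp)
  have h1 : DifferentiableAt ℝ (fun y => rk (e y)) x := (hrd (e x)).comp x hed
  have h2 : DifferentiableAt ℝ (fun y => rk (N y)) x := (hrd (N x)).comp x hNd
  have h3 : HasFDerivAt (Qf N e) (0 - fderiv ℝ (fun y => rk (e y)) x -
      fderiv ℝ (fun y => rk (N y)) x) x :=
    ((hasFDerivAt_const (1 : F →L[ℝ] F) x).sub h1.hasFDerivAt).sub h2.hasFDerivAt
  rw [h3.fderiv]
  ext w
  simp only [ContinuousLinearMap.sub_apply, ContinuousLinearMap.zero_apply,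
    fderiv_rk hed, fderiv_rk hNd, h.geod hx hi, h.dN_eh hx, inner_neg_left, inner_smul_left,
    smul_neg, smul_smul, neg_smul]
  simp only [conj_trivial]
  module

end Pool.Agent.Lib.MP_3248c9_gt.Hy
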