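import Mathlib

/-!
# A perturbation lemma

Suppose not: there are `t_n -> 0`, `t_n != 0`, unit vectors `w_n` with `Φ t_n w_n = 0`; a subsequence converges to a
unit vector `w`, `Φ 0 w = 0`. `0 = <Φ t_n w_n, w> = <Φ 0 w_n, w> + t_n <D w_n, w> + o(t_n)` and
`<Φ 0 w_n, w> = <w_n, Φ 0 w> = 0`, so `<D w, w> = 0`: contradiction.
-/

set_option autoImplicit false

namespace Pool.Agent.Lib.MP_3248c9_gt.Hy

open Set Filter Topology

theorem pert_app {F : Type} [NormedAddCommGroup F] [InnerProductSpace ℝ F] {A : ℕ → F →L[ℝ] F}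
    {A0 : F →L[ℝ] F} {w : ℕ → F} {w0 : F} (hA : Tendsto A atTop (𝓝 A0))
    (hw : Tendsto w atTop (𝓝 w0)) : Tendsto (fun n => A n (w n)) atTop (𝓝 (A0 w0)) :=
  ((isBoundedBilinearMap_apply (𝕜 := ℝ) (E := F) (F := F)).continuous.tendsto (A0, w0)).comp
    (hA.prodMk_nhds hw)

theorem pert {F : Type} [NormedAddCommGroup F] [InnerProductSpace ℝ F] [FiniteDimensional ℝ F]
    (Φ : ℝ → F →L[ℝ] F) (D : F →L[ℝ] F) (hd : HasDerivAt Φ D 0)
    (hs : ∀ w w', inner ℝ (Φ 0 w) w' = inner ℝ w (Φ 0 w'))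
    (hk : ∀ w, w ≠ 0 → Φ 0 w = 0 → inner ℝ (D w) w ≠ 0) :
    ∀ᶠ t in 𝓝[≠] (0 : ℝ), Function.Injective (Φ t) := by
  by_contra hcon
  rw [Filter.not_eventually] at hcon
  obtain ⟨t, ht, hbad⟩ := Filter.exists_seq_forall_of_frequently hcon
  have hw : ∀ n, ∃ w : F, ‖w‖ = 1 ∧ Φ (t n) w = 0 := by
    intro n
    have h1 := hbad n
    rw [injective_iff_map_eq_zero] at h1
    push Not at h1
    obtain ⟨a, ha, ha0⟩ := h1
    refine ⟨‖a‖⁻¹ • a, ?_, ?_⟩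
    · rw [norm_smul, norm_inv, norm_norm, inv_mul_cancel₀ (norm_ne_zero_iff.2 ha0)]
    · rw [map_smul, ha, smul_zero]
  choose w hw1 hw0 using hw
  obtain ⟨w0, hw0mem, φ, hφ, hlim⟩ := (isCompact_sphere (0 : F) 1).tendsto_subseq (x := w)
    (fun n => by rw [mem_sphere_zero_iff_norm, hw1 n])
  have htφ : Tendsto (fun n => t (φ n)) atTop (𝓝[≠] 0) := ht.comp hφ.tendsto_atTop
  have hD : Tendsto (fun n => (t (φ n))⁻¹ • (Φ (t (φ n)) - Φ 0)) atTop (𝓝 D) := by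
    have h1 := (hasDerivAt_iff_tendsto_slope_zero.1 hd).comp htφ
    simpa [Function.comp_def] using h1
  have hΦ : Tendsto (fun n => Φ (t (φ n))) atTop (𝓝 (Φ 0)) :=
    (hd.continuousAt.tendsto).comp (htφ.mono_right nhdsWithin_le_nhds)
  have h0 : Φ 0 w0 = 0 := by
    have h1 : Tendsto (fun n => Φ (t (φ n)) (w (φ n))) atTop (𝓝 (Φ 0 w0)) :=
      pert_app hΦ hlim
    have h2 : (fun n => Φ (t (φ n)) (w (φ n))) = fun _ => (0 : F) := funext fun n => hw0 _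
    rw [h2] at h1
    exact tendsto_nhds_unique h1 tendsto_const_nhds
  have hne : w0 ≠ 0 := by
    intro h1
    rw [h1, mem_sphere_zero_iff_norm, norm_zero] at hw0mem
    exact zero_ne_one hw0mem
  have h3 : Tendsto (fun n => inner ℝ (((t (φ n))⁻¹ • (Φ (t (φ n)) - Φ 0)) (w (φ n))) w0)
      atTop (𝓝 (inner ℝ (D w0) w0)) := (pert_app hD hlim).inner tendsto_const_nhds
  have h4 : (fun n => inner ℝ (((t (φ n))⁻¹ • (Φ (t (φ n)) - Φ 0)) (w (φ n))) w0) =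
      fun _ => (0 : ℝ) := by
    funext n
    have h5 : ((t (φ n))⁻¹ • (Φ (t (φ n)) - Φ 0)) (w (φ n)) =
        (t (φ n))⁻¹ • (Φ (t (φ n)) (w (φ n)) - Φ 0 (w (φ n))) := rfl
    rw [h5, hw0, zero_sub, inner_smul_left, inner_neg_left, hs, h0, inner_zero_right, neg_zero,
      mul_zero]
  rw [h4] at h3
  exact hk w0 hne h0 (tendsto_nhds_unique h3 tendsto_const_nhds)

end Pool.Agent.Lib.MP_3248c9_gt.Hy
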