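import Pool.Agent.Lib.MP_3248c9_gt.Hy.GFrame
import Pool.Agent.Lib.MP_3248c9_gt.Hy.GPert

/-!
# The principal curvature `kp` is simple somewhere

`Pg = Sh - kp e⊗e - kp (1 - e⊗e - N⊗N) + e⊗e + N⊗N`.
* `Pg_ker`: take inner products of `Pg w = 0` with `e` and `N`: `<e, w> = <N, w> = 0`, then `Sh w = kp w`.
* `Pg_symm`: all the terms are symmetric.
* `Pg_deriv`: for `w` in the kernel, `<(D_{eh} Pg) w, w> = <(D_{eh} Sh) w, w> - (D_{eh} kp) <w, w>` (the terms with
  derivatives of `e⊗e`, `N⊗N` vanish: `<D(u⊗u) w, w> = 2 <Du, w> <u, w> = 0`; also `D(kp e⊗e)`), and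
  `w = Df (J w)`, so the first term is `0` by `simple_dir`; `D_{eh} kp = -om/2`.
* `exists_simple`: `pert` for `t ↦ Pg (x + t eh)`; `V` is open.
-/

set_option autoImplicit false
set_option linter.unusedSectionVars false

namespace Pool.Agent.Lib.MP_3248c9_gt.Hy

open Set
open scoped ContDiff Topology

variable {E F : Type} [NormedAddCommGroup E] [NormedSpace ℝ E] [FiniteDimensional ℝ E]
  [NormedAddCommGroup F] [InnerProductSpace ℝ F] [FiniteDimensional ℝ F] [CompleteSpace F]
  {V : Set E} {f N : E → F} {J : E → F →L[ℝ] E} {e : E → F} {kp om : E → ℝ} {x : E}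

/-- `u ↦ u⊗u` is smooth. -/
theorem rk_smooth : ContDiff ℝ ∞ (fun u : F => rk u) := by
  unfold rk
  exact (innerSL ℝ).contDiff.smulRight contDiff_id

/-- The derivative of `u⊗u`. -/
theorem fderiv_rk {u : E → F} (hu : DifferentiableAt ℝ u x) (v : E) (w : F) :
    fderiv ℝ (fun y => rk (u y)) x v w =
      (inner ℝ (fderiv ℝ u x v) w : ℝ) • u x + (inner ℝ (u x) w : ℝ) • fderiv ℝ u x v := by
  have hr : DifferentiableAt ℝ (fun y => rk (u y)) x :=
    ((rk_smooth (F := F)).contDiffAt.differentiableAt (by simp)).comp x hu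
  have h1 : fderiv ℝ (fun y => rk (u y) w) x v = fderiv ℝ (fun y => rk (u y)) x v w := by
    rw [gfr_app hr (differentiableAt_const w)]
    simp
  have h2 : (fun y => rk (u y) w) = fun y => (inner ℝ (u y) w : ℝ) • u y := by
    funext y
    exact rk_apply _ _
  rw [← h1, h2, gfr_smul (hu.inner ℝ (differentiableAt_const w)) hu,
    gfr_inner hu (differentiableAt_const w)]
  simp only [fderiv_fun_const, Pi.zero_apply, zero_apply, inner_zero_right, zero_add]
  rw [add_comm]

theorem Fr.Bt_smooth (h : Fr V f N J e kp om) : ContDiffOn ℝ ∞ (Bt N J e kp) V := by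
  unfold Bt
  exact h.Sh_smooth.sub (h.ks.smul (rk_smooth.comp_contDiffOn h.es))

theorem Fr.Qf_smooth (h : Fr V f N J e kp om) : ContDiffOn ℝ ∞ (Qf N e) V := by
  unfold Qf
  exact (contDiffOn_const.sub (rk_smooth.comp_contDiffOn h.es)).sub
    (rk_smooth.comp_contDiffOn h.Ns)

theorem Fr.St_smooth (h : Fr V f N J e kp om) : ContDiffOn ℝ ∞ (St N J e) V := by
  unfold St
  exact (h.es.fderiv_of_isOpen h.op (by simp)).clm_comp (h.Js.clm_comp h.Qf_smooth)

theorem Fr.Pg_smooth (h : Fr V f N J e kp om) : ContDiffOn ℝ ∞ (Pg N J e kp) V := by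
  unfold Pg
  exact ((h.Bt_smooth.sub (h.ks.smul h.Qf_smooth)).add (rk_smooth.comp_contDiffOn h.es)).add
    (rk_smooth.comp_contDiffOn h.Ns)

/-- `u⊗u` is symmetric. -/
theorem rk_symm (u w w' : F) : (inner ℝ (rk u w) w' : ℝ) = inner ℝ w (rk u w') := by
  rw [rk_apply, rk_apply, inner_smul_left, inner_smul_right, real_inner_comm w u]
  simp only [conj_trivial]
  ring

theorem Pg_apply (w : F) : Pg N J e kp x w = Sh N J x w - kp x • (w - inner ℝ (N x) w • N x) +
    (inner ℝ (e x) w : ℝ) • e x + (inner ℝ (N x) w : ℝ) • N x := by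
  have h1 : Pg N J e kp x w = Sh N J x w - kp x • rk (e x) w - kp x • (w - rk (e x) w -
    rk (N x) w) + rk (e x) w + rk (N x) w := rfl
  rw [h1, rk_apply, rk_apply]
  module

theorem Fr.Pg_symm (h : Fr V f N J e kp om) (hx : x ∈ V) (w w' : F) :
    inner ℝ (Pg N J e kp x w) w' = inner ℝ w (Pg N J e kp x w') := by
  rw [Pg_apply, Pg_apply]
  simp only [inner_add_left, inner_add_right, inner_sub_left, inner_sub_right, inner_smul_left,
    inner_smul_right, conj_trivial]
  rw [h.Sh_symm hx, real_inner_comm w (N x), real_inner_comm w (e x)]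
  ring

theorem Fr.Pg_ker (h : Fr V f N J e kp om) (hx : x ∈ V) {w : F} (hw : Pg N J e kp x w = 0) :
    inner ℝ (e x) w = 0 ∧ inner ℝ (N x) w = 0 ∧ Sh N J x w = kp x • w := by
  have hNe : (inner ℝ (e x) (N x) : ℝ) = 0 := by rw [real_inner_comm, h.eN x hx]
  rw [Pg_apply] at hw
  have h1 := congrArg (fun z => (inner ℝ (e x) z : ℝ)) hw
  have h2 := congrArg (fun z => (inner ℝ (N x) z : ℝ)) hw
  simp only [inner_add_right, inner_sub_right, inner_smul_right, inner_zero_right] at h1 h2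
  rw [← h.Sh_symm hx, h.She x hx, inner_smul_left, hNe, h.ee x hx] at h1
  rw [h.N_Sh hx, h.eN x hx, h.unit x hx] at h2
  simp only [conj_trivial] at h1 h2
  have h3 : (inner ℝ (e x) w : ℝ) = 0 := by linarith
  have h4 : (inner ℝ (N x) w : ℝ) = 0 := by linarith
  refine ⟨h3, h4, ?_⟩
  rw [h3, h4, zero_smul, zero_smul, sub_zero, add_zero, add_zero] at hw
  exact sub_eq_zero.1 hw

theorem Fr.Pg_deriv (h : Fr V f N J e kp om) (hx : x ∈ V) {w : F} (hw : Pg N J e kp x w = 0) :
    inner ℝ (fderiv ℝ (Pg N J e kp) x (J x (e x)) w) w = om x / 2 * inner ℝ w w := by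
  obtain ⟨h1, h2, h3⟩ := h.Pg_ker hx hw
  have he := gfr_diff h.op h.es hx
  have hN := gfr_diff h.op h.Ns hx
  have hk := gfr_diff h.op h.ks hx
  have hS := gfr_diff h.op h.Sh_smooth hx
  have hP := gfr_diff h.op h.Pg_smooth hx
  have hcw : DifferentiableAt ℝ (fun _ : E => w) x := differentiableAt_const w
  have hce : DifferentiableAt ℝ (fun y => (inner ℝ (e y) w : ℝ)) x := he.inner ℝ hcw
  have hcN : DifferentiableAt ℝ (fun y => (inner ℝ (N y) w : ℝ)) x := hN.inner ℝ hcw
  -- the function `y ↦ <Pg y w, w>`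
  have h4 : fderiv ℝ (fun y => (inner ℝ (Pg N J e kp y w) w : ℝ)) x (J x (e x)) =
      inner ℝ (fderiv ℝ (Pg N J e kp) x (J x (e x)) w) w := by
    rw [gfr_inner (hP.clm_apply hcw) hcw, gfr_app hP hcw]
    simp
  have h5 : (fun y => (inner ℝ (Pg N J e kp y w) w : ℝ)) = fun y =>
      (inner ℝ (Sh N J y w) w : ℝ) - kp y * (inner ℝ w w - inner ℝ (N y) w * inner ℝ (N y) w) +
        inner ℝ (e y) w * inner ℝ (e y) w + inner ℝ (N y) w * inner ℝ (N y) w := by
    funext y
    rw [Pg_apply]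
    simp only [inner_add_left, inner_sub_left, inner_smul_left, conj_trivial]
  have hSw : HasFDerivAt (fun y => (inner ℝ (Sh N J y w) w : ℝ))
      (fderiv ℝ (fun y => (inner ℝ (Sh N J y w) w : ℝ)) x) x :=
    ((hS.clm_apply hcw).inner ℝ hcw).hasFDerivAt
  have hkw := hk.hasFDerivAt
  have hew := hce.hasFDerivAt
  have hNw := hcN.hasFDerivAt
  have h6 := ((hSw.sub (hkw.mul ((hasFDerivAt_const (inner ℝ w w : ℝ) x).sub
    (hNw.mul hNw)))).add (hew.mul hew)).add (hNw.mul hNw)
  have h7 : fderiv ℝ (fun y => (inner ℝ (Sh N J y w) w : ℝ)) x (J x (e x)) = 0 := by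
    rw [gfr_inner (hS.clm_apply hcw) hcw, gfr_app hS hcw]
    have h8 := h.simple_dir hx (v := J x w) (by rw [h.tan hx h2, h1])
      (by rw [h.tan hx h2, h3])
    rw [h.tan hx h2] at h8
    simp [h8]
  have h9 : HasFDerivAt (fun y =>
      (inner ℝ (Sh N J y w) w : ℝ) - kp y * (inner ℝ w w - inner ℝ (N y) w * inner ℝ (N y) w) +
        inner ℝ (e y) w * inner ℝ (e y) w + inner ℝ (N y) w * inner ℝ (N y) w) _ x := h6
  rw [← h4, h5, h9.fderiv]
  simp [h1, h2, h7, h.dk_eh hx]
  ring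

theorem Fr.exists_simple (h : Fr V f N J e kp om) (hx : x ∈ V) :
    ∃ y ∈ V, Function.Injective (Pg N J e kp y) := by
  have hP := gfr_diff h.op h.Pg_smooth hx
  obtain ⟨v, hv⟩ : ∃ v : E, v = J x (e x) := ⟨_, rfl⟩
  have hx0 : x + (0 : ℝ) • v = x := by rw [zero_smul, add_zero]
  have hl : HasDerivAt (fun t : ℝ => x + t • v) v 0 := by
    have h1 := ((hasDerivAt_id (0 : ℝ)).smul_const v).const_add x
    simpa using h1
  have hd : HasDerivAt (fun t : ℝ => Pg N J e kp (x + t • v)) (fderiv ℝ (Pg N J e kp) x v) 0 := by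
    have h1 : HasFDerivAt (Pg N J e kp) (fderiv ℝ (Pg N J e kp) x) (x + (0 : ℝ) • v) := by
      rw [hx0]
      exact hP.hasFDerivAt
    exact h1.comp_hasDerivAt (0 : ℝ) hl
  have h2 := pert (fun t : ℝ => Pg N J e kp (x + t • v)) (fderiv ℝ (Pg N J e kp) x v) hd
    (fun w w' => by
      change inner ℝ (Pg N J e kp (x + (0 : ℝ) • v) w) w' =
        inner ℝ w (Pg N J e kp (x + (0 : ℝ) • v) w')
      rw [hx0]
      exact h.Pg_symm hx w w')
    (fun w hw hw0 => by
      change Pg N J e kp (x + (0 : ℝ) • v) w = 0 at hw0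
      rw [hx0] at hw0
      rw [hv, h.Pg_deriv hx hw0]
      have h3 := h.om0 x hx
      have h4 : (inner ℝ w w : ℝ) ≠ 0 := inner_self_ne_zero.2 hw
      exact mul_ne_zero (div_ne_zero h3 two_ne_zero) h4)
  have h3 : ∀ᶠ t in 𝓝[≠] (0 : ℝ), x + t • v ∈ V := by
    have h4 : Filter.Tendsto (fun t : ℝ => x + t • v) (𝓝 0) (𝓝 x) := by
      have h5 := hl.continuousAt.tendsto
      rwa [hx0] at h5
    exact (h4.mono_left nhdsWithin_le_nhds).eventually (h.op.mem_nhds hx)
  obtain ⟨t, ht1, ht2⟩ := (h3.and h2).exists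
  exact ⟨x + t • v, ht1, ht2⟩

/-- Restriction of a frame to a smaller open set. -/
theorem Fr.subset (h : Fr V f N J e kp om) {V' : Set E} (hV : V' ⊆ V) (ho : IsOpen V') :
    Fr V' f N J e kp om := by
  exact
    { op := ho
      fs := h.fs.mono hV
      Ns := h.Ns.mono hV
      Js := h.Js.mono hV
      left := fun x hx => h.left x (hV hx)
      JN := fun x hx => h.JN x (hV hx)
      unit := fun x hx => h.unit x (hV hx)
      normal := fun x hx => h.normal x (hV hx)
      dec := fun x hx => h.dec x (hV hx)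
      es := h.es.mono hV
      ks := h.ks.mono hV
      os := h.os.mono hV
      ee := fun x hx => h.ee x (hV hx)
      eN := fun x hx => h.eN x (hV hx)
      She := fun x hx => h.She x (hV hx)
      dk := fun x hx => h.dk x (hV hx)
      om0 := fun x hx => h.om0 x (hV hx)
      trk := fun x hx => h.trk x (hV hx)
      nrm := fun x hx => h.nrm x (hV hx) }

/-- The set of the simple points is open. -/
theorem Fr.isOpen_simple (h : Fr V f N J e kp om) :
    IsOpen {y | y ∈ V ∧ Function.Injective (Pg N J e kp y)} :=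
  h.Pg_smooth.continuousOn.isOpen_inter_preimage h.op ContinuousLinearMap.isOpen_injective

end Pool.Agent.Lib.MP_3248c9_gt.Hy
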