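import Mathlib

/-!
# The induced metric and its Laplace-Beltrami operator, as in the frozen statement `S12989`
-/

set_option autoImplicit false

namespace Pool.Agent.Lib.MP_3248c9_gt.Hy

/-- The `i`-th partial derivative of `u`. -/
noncomputable def pd {n m : ℕ} (i : Fin n)
    (u : EuclideanSpace ℝ (Fin n) → EuclideanSpace ℝ (Fin m))
    (x : EuclideanSpace ℝ (Fin n)) : EuclideanSpace ℝ (Fin m) :=
  fderiv ℝ u x (EuclideanSpace.single i (1 : ℝ))

/-- The matrix of the metric induced by `f` in the standard coordinates. -/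
noncomputable def inducedMetric {n m : ℕ}
    (f : EuclideanSpace ℝ (Fin n) → EuclideanSpace ℝ (Fin m))
    (x : EuclideanSpace ℝ (Fin n)) : Matrix (Fin n) (Fin n) ℝ :=
  fun i j => inner ℝ (pd i f x) (pd j f x)

/-- The Laplace-Beltrami operator of the metric `g`, applied componentwise to an
`ℝ^m`-valued map. -/
noncomputable def laplaceBeltrami {n m : ℕ}
    (g : EuclideanSpace ℝ (Fin n) → Matrix (Fin n) (Fin n) ℝ)
    (u : EuclideanSpace ℝ (Fin n) → EuclideanSpace ℝ (Fin m)) (x : EuclideanSpace ℝ (Fin n)) :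
    EuclideanSpace ℝ (Fin m) :=
  (Real.sqrt (g x).det)⁻¹ •
    ∑ i, pd i (fun y => Real.sqrt (g y).det • ∑ j, (g y)⁻¹ i j • pd j u y) x

end Pool.Agent.Lib.MP_3248c9_gt.Hy
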