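import Pool.Agent.Lib.MP_3248c9_gt.Hy.Nest

/-!
# The end point of the ray

`k t >= k 0 + m 0 t` tends to infinity, the centres `ctr t` form a Cauchy family by `Ray.nested`, and
`|X - ctr| = 1/k` tends to `0`; so `X` converges to a point `(x, y)`, which lies in all osculating
discs (let the upper time tend to infinity in `Ray.nested`).
-/

set_option autoImplicit false

namespace Pool.Agent.Lib.MP_3248c9_gt.Hy

open Finset Filter Topology

variable {ι : Type} [Fintype ι] [DecidableEq ι] {s c : ι → ℝ} {a b th k m : ℝ → ℝ}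

theorem Ray.k_ge (h : Ray s c (Set.Ici 0) a b th k m) {t : ℝ} (ht : 0 ≤ t) :
    k 0 + m 0 * t ≤ k t :=
  (h.subset (I' := Set.Icc 0 t) fun _ hx => hx.1).k_lower ⟨ht, le_rfl⟩

theorem Ray.k_pos (h : Ray s c (Set.Ici 0) a b th k m) {t : ℝ} (ht : 0 ≤ t) : 0 < k t := by
  have h1 := h.k_ge ht
  have h2 := h.k0
  have h3 := mul_nonneg h.m0.le ht
  linarith

theorem Ray.k_tendsto (h : Ray s c (Set.Ici 0) a b th k m) : Tendsto k atTop atTop := by
  have h1 : Tendsto (fun t : ℝ => k 0 + m 0 * t) atTop atTop :=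
    tendsto_atTop_add_const_left _ _ (Tendsto.const_mul_atTop h.m0 tendsto_id)
  refine tendsto_atTop_mono' atTop ?_ h1
  filter_upwards [eventually_ge_atTop (0 : ℝ)] with t ht
  exact h.k_ge ht

theorem Ray.limit (h : Ray s c (Set.Ici 0) a b th k m) :
    ∃ x y : ℝ, Tendsto a atTop (𝓝 x) ∧ Tendsto b atTop (𝓝 y) ∧
      ∀ t, 0 ≤ t → (x - (a t - Real.sin (th t) / k t)) ^ 2 +
        (y - (b t + Real.cos (th t) / k t)) ^ 2 ≤ (1 / k t) ^ 2 := by
  have hkinv : Tendsto (fun t => 1 / k t) atTop (𝓝 0) := by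
    refine (tendsto_inv_atTop_zero.comp h.k_tendsto).congr fun t => ?_
    rw [Function.comp_apply, one_div]
  have hnest : ∀ r t : ℝ, 0 ≤ r → r ≤ t → ‖ctr a b th k t - ctr a b th k r‖ ≤ 1 / k r := by
    intro r t hr hrt
    have h1 := (h.subset (I' := Set.Icc 0 t) fun _ hx => hx.1).nested hr hrt le_rfl
    have h2 : 0 < 1 / k t := one_div_pos.2 (h.k_pos (hr.trans hrt))
    linarith
  have hmax : Tendsto (fun t : ℝ => max t 0) atTop atTop :=
    tendsto_atTop_mono (fun t => le_max_left t 0) tendsto_id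
  have hcau : CauchySeq (fun t : ℝ => ctr a b th k (max t 0)) := by
    refine cauchySeq_of_le_tendsto_0' (fun t => 1 / k (max t 0)) (fun r t hrt => ?_)
      (hkinv.comp hmax)
    rw [dist_comm, dist_eq_norm]
    exact hnest _ _ (le_max_right _ _) (max_le_max_right _ hrt)
  obtain ⟨z, hz⟩ := cauchySeq_tendsto_of_complete hcau
  have hz' : Tendsto (fun t : ℝ => ctr a b th k t) atTop (𝓝 z) := by
    refine hz.congr' ?_
    filter_upwards [eventually_ge_atTop (0 : ℝ)] with t ht
    rw [max_eq_left ht]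
  have hre : Tendsto (fun t => a t - Real.sin (th t) / k t) atTop (𝓝 z.re) :=
    (Complex.continuous_re.tendsto z).comp hz'
  have him : Tendsto (fun t => b t + Real.cos (th t) / k t) atTop (𝓝 z.im) :=
    (Complex.continuous_im.tendsto z).comp hz'
  have hs : Tendsto (fun t => Real.sin (th t) / k t) atTop (𝓝 0) := by
    refine squeeze_zero_norm' ?_ hkinv
    filter_upwards [eventually_ge_atTop (0 : ℝ)] with t ht
    rw [Real.norm_eq_abs, abs_div, abs_of_pos (h.k_pos ht)]
    exact div_le_div_of_nonneg_right (Real.abs_sin_le_one _) (h.k_pos ht).le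
  have hc : Tendsto (fun t => Real.cos (th t) / k t) atTop (𝓝 0) := by
    refine squeeze_zero_norm' ?_ hkinv
    filter_upwards [eventually_ge_atTop (0 : ℝ)] with t ht
    rw [Real.norm_eq_abs, abs_div, abs_of_pos (h.k_pos ht)]
    exact div_le_div_of_nonneg_right (Real.abs_cos_le_one _) (h.k_pos ht).le
  refine ⟨z.re, z.im, ?_, ?_, fun t ht => ?_⟩
  · have h1 := hre.add hs
    rw [add_zero] at h1
    refine h1.congr fun t => ?_
    ring
  · have h1 := him.sub hc
    rw [sub_zero] at h1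
    refine h1.congr fun t => ?_
    ring
  · have h1 : ‖z - ctr a b th k t‖ ≤ 1 / k t := by
      refine le_of_tendsto ((hz'.sub_const (ctr a b th k t)).norm) ?_
      filter_upwards [eventually_ge_atTop t] with r hr
      exact hnest t r ht hr
    have h2 : ‖z - ctr a b th k t‖ ^ 2 ≤ (1 / k t) ^ 2 :=
      pow_le_pow_left₀ (norm_nonneg _) h1 2
    rw [Complex.sq_norm, Complex.normSq_apply, ← sq, ← sq] at h2
    exact h2

/-- The end point as a structure, for later use. -/
structure EndPt (a b th k : ℝ → ℝ) (x y : ℝ) : Prop where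
  ta : Tendsto a atTop (𝓝 x)
  tb : Tendsto b atTop (𝓝 y)
  disc : ∀ t, 0 ≤ t → (x - (a t - Real.sin (th t) / k t)) ^ 2 +
        (y - (b t + Real.cos (th t) / k t)) ^ 2 ≤ (1 / k t) ^ 2

end Pool.Agent.Lib.MP_3248c9_gt.Hy
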