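import Mathlib

/-!
# Vanishing along a trajectory of a polynomial vector field

If all the iterated derivatives `V^j F` vanish at the initial point then `F` vanishes along the
trajectory. Proof: `hasDerivAt_eval` by `MvPolynomial.induction_on`. The ideals generated by
`V^j F`, `j <= N`, form an ascending chain in a Noetherian ring, so `V^(N+1) F` is a combination
`sum_{j <= N} q_j V^j F` (`monotone_stabilizes_iff_noetherian`, `Ideal.mem_span_range_iff...`);
hence the vector `y_j(t) = (V^j F)(z t)`, `j : Fin (N+1)`, satisfies a linear differential equation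
with continuous coefficients on `[0, T]` and `y 0 = 0`; so `y = 0` on `[0, T]`
(`ODE_solution_unique_of_mem_Icc_right` or a Gronwall lemma `norm_le_gronwallBound_of_norm_deriv_right_le`
with `||y'|| <= M ||y||`).
-/

set_option autoImplicit false

namespace Pool.Agent.Lib.MP_3248c9_gt.Hy

open MvPolynomial Set

variable {σ : Type} [Fintype σ]

theorem hasDerivAt_eval (V : Derivation ℝ (MvPolynomial σ ℝ) (MvPolynomial σ ℝ))
    (z : ℝ → σ → ℝ) (t : ℝ) (r : ℝ)
    (hz : ∀ i, HasDerivAt (fun x => z x i) (r * eval (z t) (V (X i))) t)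
    (G : MvPolynomial σ ℝ) :
    HasDerivAt (fun x => eval (z x) G) (r * eval (z t) (V G)) t := by
  induction G using MvPolynomial.induction_on with
  | C a =>
    have h1 : V (C a) = 0 := V.map_algebraMap a
    rw [h1, map_zero, mul_zero]
    simp only [eval_C]
    exact hasDerivAt_const t a
  | add G H hG hH =>
    have h1 := hG.add hH
    simp only [map_add, mul_add]
    exact h1
  | mul_X G i hG =>
    have h1 := hG.mul (hz i)
    have h2 : r * eval (z t) (V (G * X i)) =
        r * eval (z t) (V G) * z t i + eval (z t) G * (r * eval (z t) (V (X i))) := by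
      rw [Derivation.leibniz, map_add, smul_eq_mul, smul_eq_mul, map_mul, map_mul, eval_X]
      ring
    rw [h2]
    simp only [map_mul, eval_X]
    exact h1

/-- the iterated derivatives satisfy a linear relation -/
theorem noe_rel (V : Derivation ℝ (MvPolynomial σ ℝ) (MvPolynomial σ ℝ))
    (F : MvPolynomial σ ℝ) : ∃ (N : ℕ) (q : Fin (N + 1) → MvPolynomial σ ℝ),
      V^[N + 1] F = ∑ j : Fin (N + 1), q j * V^[j] F := by
  obtain ⟨I, hI⟩ : ∃ I : ℕ →o Ideal (MvPolynomial σ ℝ), ∀ N, I N =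
      Ideal.span ((fun j : ℕ => V^[j] F) '' Iic N) :=
    ⟨⟨fun N => Ideal.span ((fun j : ℕ => V^[j] F) '' Iic N), fun M N hMN =>
      Ideal.span_mono (image_mono (Iic_subset_Iic.mpr hMN))⟩, fun _ => rfl⟩
  obtain ⟨N, hN⟩ := (monotone_stabilizes_iff_noetherian.mpr inferInstance) I
  have h1 : V^[N + 1] F ∈ Ideal.span (range fun j : Fin (N + 1) => V^[(j : ℕ)] F) := by
    have h2 : V^[N + 1] F ∈ I (N + 1) := by
      rw [hI]
      exact Ideal.subset_span ⟨N + 1, by simp, rfl⟩
    rw [← hN (N + 1) (Nat.le_succ N), hI] at h2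
    refine Ideal.span_mono ?_ h2
    rintro _ ⟨j, hj, rfl⟩
    exact ⟨⟨j, Nat.lt_succ_of_le hj⟩, rfl⟩
  obtain ⟨q, hq⟩ := Ideal.mem_span_range_iff_exists_fun.mp h1
  exact ⟨N, q, hq.symm⟩

theorem vanish_of_initial (V : Derivation ℝ (MvPolynomial σ ℝ) (MvPolynomial σ ℝ))
    (F : MvPolynomial σ ℝ) (z : ℝ → σ → ℝ) (T : ℝ)
    (hz : ∀ t ∈ Icc (0 : ℝ) T, ∀ i, HasDerivAt (fun x => z x i) (eval (z t) (V (X i))) t)
    (h0 : ∀ j : ℕ, eval (z 0) (V^[j] F) = 0) :
    ∀ t ∈ Icc (0 : ℝ) T, eval (z t) F = 0 := by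
  obtain ⟨N, q, hq⟩ := noe_rel V F
  have hd : ∀ t ∈ Icc (0 : ℝ) T, ∀ G : MvPolynomial σ ℝ,
      HasDerivAt (fun x => eval (z x) G) (eval (z t) (V G)) t := by
    intro t ht G
    have h1 := hasDerivAt_eval V z t 1 (fun i => by rw [one_mul]; exact hz t ht i) G
    rwa [one_mul] at h1
  obtain ⟨y, hy⟩ : ∃ y : ℝ → Fin (N + 1) → ℝ, ∀ t j, y t j = eval (z t) (V^[(j : ℕ)] F) :=
    ⟨fun t j => eval (z t) (V^[(j : ℕ)] F), fun _ _ => rfl⟩
  obtain ⟨y', hy'⟩ : ∃ y' : ℝ → Fin (N + 1) → ℝ, ∀ t j,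
      y' t j = eval (z t) (V (V^[(j : ℕ)] F)) :=
    ⟨fun t j => eval (z t) (V (V^[(j : ℕ)] F)), fun _ _ => rfl⟩
  have hder : ∀ t ∈ Icc (0 : ℝ) T, HasDerivAt y (y' t) t := by
    intro t ht
    rw [hasDerivAt_pi]
    intro j
    rw [hy']
    simp only [hy]
    exact hd t ht _
  -- a bound for the coefficients
  obtain ⟨M, hM⟩ : ∃ M : ℝ, ∀ t ∈ Icc (0 : ℝ) T, ∑ j, |eval (z t) (q j)| ≤ M := by
    have hc : ContinuousOn (fun t => ∑ j, |eval (z t) (q j)|) (Icc (0 : ℝ) T) := by
      refine continuousOn_finsetSum _ fun j _ => ContinuousOn.abs ?_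
      exact fun t ht => (hd t ht (q j)).continuousAt.continuousWithinAt
    obtain ⟨M, hM⟩ := isCompact_Icc.exists_bound_of_continuousOn hc
    exact ⟨M, fun t ht => (le_abs_self _).trans (hM t ht)⟩
  have hM0 : ∀ t ∈ Icc (0 : ℝ) T, 0 ≤ M := fun t ht =>
    (Finset.sum_nonneg fun _ _ => abs_nonneg _).trans (hM t ht)
  have hb : ∀ t ∈ Icc (0 : ℝ) T, ‖y' t‖ ≤ (1 + M) * ‖y t‖ + 0 := by
    intro t ht
    have hn := norm_nonneg (y t)
    have hm := hM0 t ht
    rw [add_zero, pi_norm_le_iff_of_nonneg (by positivity)]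
    intro j
    rw [Real.norm_eq_abs, hy']
    have h1 : V (V^[(j : ℕ)] F) = V^[(j : ℕ) + 1] F := (Function.iterate_succ_apply' V _ F).symm
    rw [h1]
    have hyn : ∀ i : Fin (N + 1), |y t i| ≤ ‖y t‖ := fun i => norm_le_pi_norm (y t) i
    by_cases hj : (j : ℕ) + 1 < N + 1
    · have h2 := hyn ⟨j + 1, hj⟩
      rw [hy] at h2
      refine h2.trans ?_
      nlinarith
    · have h3 : (j : ℕ) + 1 = N + 1 := by
        have := j.2
        omega
      rw [h3, hq, map_sum]
      calc |∑ i, eval (z t) (q i * V^[(i : ℕ)] F)| ≤ ∑ i, |eval (z t) (q i * V^[(i : ℕ)] F)| :=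
            Finset.abs_sum_le_sum_abs _ _
        _ ≤ ∑ i, |eval (z t) (q i)| * ‖y t‖ := by
            refine Finset.sum_le_sum fun i _ => ?_
            rw [map_mul, abs_mul]
            refine mul_le_mul_of_nonneg_left ?_ (abs_nonneg _)
            rw [← hy]
            exact hyn i
        _ = (∑ i, |eval (z t) (q i)|) * ‖y t‖ := (Finset.sum_mul _ _ _).symm
        _ ≤ (1 + M) * ‖y t‖ := by
            refine mul_le_mul_of_nonneg_right ?_ hn
            have := hM t ht
            linarith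
  intro t ht
  have h1 := norm_le_gronwallBound_of_norm_deriv_right_le (f := y) (f' := y') (δ := 0)
    (K := 1 + M) (ε := 0) (a := 0) (b := T)
    (fun s hs => (hder s hs).continuousAt.continuousWithinAt)
    (fun s hs => (hder s (Ico_subset_Icc_self hs)).hasDerivWithinAt)
    (by
      rw [norm_le_zero_iff]
      funext j
      rw [hy, h0]
      rfl)
    (fun s hs => hb s (Ico_subset_Icc_self hs)) t ht
  rw [gronwallBound_ε0_δ0, norm_le_zero_iff] at h1
  have h2 := congrFun h1 ⟨0, Nat.succ_pos N⟩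
  rw [hy] at h2
  exact h2

end Pool.Agent.Lib.MP_3248c9_gt.Hy
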