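import Mathlib

/-!
# The planar picture: definitions

`d_i = 1 + s_i a - c_i b` are affine functions of the planar point `(a, b)`, the direction is
`(cos th, sin th)`. `gv i` is the derivative of `d_i` in the direction `nu = (-sin th, cos th)`,
`hv i` the derivative in the direction `T = (cos th, sin th)`.

The polynomial versions live in `R4`, with variables `X 0 = a`, `X 1 = b`, `X 2 = cos th`,
`X 3 = sin th`; `VF` is the polynomial vector field
`a' = P u, b' = P v, u' = - v K, v' = u K` with `P = prod d_i`, `K = (1/3) sum_i g_i prod_{j != i} d_j`.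
-/

set_option autoImplicit false

namespace Pool.Agent.Lib.MP_3248c9_gt.Hy

open Finset MvPolynomial

variable {ι : Type} [Fintype ι] [DecidableEq ι]

/-- The affine function `d_i`. -/
def dv (s c : ι → ℝ) (a b : ℝ) (i : ι) : ℝ := 1 + s i * a - c i * b

/-- The derivative of `d_i` in the direction `(- sin th, cos th)`. -/
noncomputable def gv (s c : ι → ℝ) (th : ℝ) (i : ι) : ℝ := -(s i * Real.sin th + c i * Real.cos th)

/-- The derivative of `d_i` in the direction `(cos th, sin th)`. -/
noncomputable def hv (s c : ι → ℝ) (th : ℝ) (i : ι) : ℝ := s i * Real.cos th - c i * Real.sin th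

/-- The product of the affine functions. -/
noncomputable def pv (s c : ι → ℝ) (a b : ℝ) : ℝ := ∏ i, dv s c a b i

/-- `K = (1/3) sum_i g_i prod_{j != i} d_j`, the turning speed in the time `tau`. -/
noncomputable def kv (s c : ι → ℝ) (a b th : ℝ) : ℝ :=
  (1 / 3) * ∑ i, gv s c th i * ∏ j ∈ univ.erase i, dv s c a b j

/-- The polynomial ring in `a, b, u = cos th, v = sin th`. -/
abbrev R4 := MvPolynomial (Fin 4) ℝ

/-- The polynomial `d_i`. -/
noncomputable def dP (s c : ι → ℝ) (i : ι) : R4 := 1 + C (s i) * X 0 - C (c i) * X 1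

/-- The product of the `d_j`, `j != i`. -/
noncomputable def coP (s c : ι → ℝ) (i : ι) : R4 := ∏ j ∈ univ.erase i, dP s c j

/-- The product of all `d_i`. -/
noncomputable def PP (s c : ι → ℝ) : R4 := ∏ i, dP s c i

/-- The polynomial `g_i`. -/
noncomputable def gP (s c : ι → ℝ) (i : ι) : R4 := -(C (s i) * X 3 + C (c i) * X 2)

/-- The polynomial `h_i`. -/
noncomputable def hP (s c : ι → ℝ) (i : ι) : R4 := C (s i) * X 2 - C (c i) * X 3

/-- The polynomial `K`. -/
noncomputable def KP (s c : ι → ℝ) : R4 := C (1 / 3) * ∑ i, gP s c i * coP s c i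

/-- The logarithmic derivative of `P` along the field. -/
noncomputable def EP (s c : ι → ℝ) : R4 := ∑ i, hP s c i * coP s c i

/-- The polynomial vector field, as a derivation. -/
noncomputable def VF (s c : ι → ℝ) : Derivation ℝ R4 R4 :=
  mkDerivation ℝ ![PP s c * X 2, PP s c * X 3, -(X 3 * KP s c), X 2 * KP s c]

/-- `M = V K - K E`, so that `(K / P)' = M / P` along the field. -/
noncomputable def MP (s c : ι → ℝ) : R4 := VF s c (KP s c) - KP s c * EP s c

/-- The polynomial form of the equation `(P k')' = P k (k^2 + sum (g_i/d_i)^2)`. -/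
noncomputable def FP (s c : ι → ℝ) : R4 :=
  VF s c (MP s c) - MP s c * EP s c - KP s c ^ 3 -
    KP s c * ∑ i, gP s c i ^ 2 * coP s c i ^ 2

/-- The point of `R^4` belonging to a planar point and an angle. -/
noncomputable def pt (a b th : ℝ) : Fin 4 → ℝ := ![a, b, Real.cos th, Real.sin th]

/-- A ray in the time `tau` (`d tau = dt / P`) on the time set `I`; `k` is the curvature, `m` its
derivative. -/
structure Ray (s c : ι → ℝ) (I : Set ℝ) (a b th k m : ℝ → ℝ) : Prop where
  ha : ∀ t ∈ I, HasDerivAt a (pv s c (a t) (b t) * Real.cos (th t)) t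
  hb : ∀ t ∈ I, HasDerivAt b (pv s c (a t) (b t) * Real.sin (th t)) t
  hth : ∀ t ∈ I, HasDerivAt th (pv s c (a t) (b t) * k t) t
  hk : ∀ t ∈ I, HasDerivAt k (m t) t
  pos : ∀ t ∈ I, ∀ i, 0 < dv s c (a t) (b t) i
  ray : ∀ t ∈ I, k t = (1 / 3) * ∑ i, gv s c (th t) i / dv s c (a t) (b t) i
  mm : ∀ t ∈ I, m 0 ≤ m t
  k0 : 0 < k 0
  m0 : 0 < m 0

end Pool.Agent.Lib.MP_3248c9_gt.Hy
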