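import Pool.Agent.Lib.MP_3248c9_gt.Hy.PDefs

/-!
# The derivation on the basic polynomials, and evaluations

Plain computations with `MvPolynomial.mkDerivation`, the Leibniz rule for products
(`Derivation.leibniz`, induction or `Derivation.leibniz_prod`-type lemma by hand) and `eval`.
-/

set_option autoImplicit false

namespace Pool.Agent.Lib.MP_3248c9_gt.Hy

open Finset MvPolynomial

variable {ι : Type} [Fintype ι] [DecidableEq ι] (s c : ι → ℝ)

theorem VF_X0 : VF s c (X 0) = PP s c * X 2 := by
  rw [VF, mkDerivation_X]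
  rfl
theorem VF_X1 : VF s c (X 1) = PP s c * X 3 := by
  rw [VF, mkDerivation_X]
  rfl
theorem VF_X2 : VF s c (X 2) = -(X 3 * KP s c) := by
  rw [VF, mkDerivation_X]
  rfl
theorem VF_X3 : VF s c (X 3) = X 2 * KP s c := by
  rw [VF, mkDerivation_X]
  rfl

theorem VF_dP (i : ι) : VF s c (dP s c i) = PP s c * hP s c i := by
  have h1 : ∀ r : ℝ, VF s c (C r) = 0 := fun r => derivation_C _ r
  rw [dP, map_sub, map_add, Derivation.leibniz, Derivation.leibniz, h1, h1, VF_X0, VF_X1,
    Derivation.map_one_eq_zero, hP]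
  simp only [smul_eq_mul, mul_zero, add_zero, zero_add]
  ring

theorem dP_mul_coP (i : ι) : dP s c i * coP s c i = PP s c := by
  exact Finset.mul_prod_erase univ (dP s c) (mem_univ i)

theorem VF_PP : VF s c (PP s c) = PP s c * EP s c := by
  have h1 : ∀ t : Finset ι, VF s c (∏ i ∈ t, dP s c i) =
      ∑ i ∈ t, (∏ j ∈ t.erase i, dP s c j) * VF s c (dP s c i) := by
    intro t
    induction t using Finset.induction_on with
    | empty => rw [prod_empty, sum_empty, Derivation.map_one_eq_zero]
    | insert i t hi ih =>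
      rw [prod_insert hi, Derivation.leibniz, ih, sum_insert hi, erase_insert hi, smul_eq_mul,
        smul_eq_mul, mul_sum, add_comm]
      congr 1
      refine sum_congr rfl fun j hj => ?_
      have hij : i ≠ j := fun h => hi (h ▸ hj)
      rw [erase_insert_of_ne hij, prod_insert (fun h => hi (mem_of_mem_erase h)), mul_assoc]
  rw [PP, h1, EP, mul_sum]
  refine sum_congr rfl fun i _ => ?_
  rw [VF_dP, PP, coP]
  ring

theorem eval_dP (a b th : ℝ) (i : ι) : eval (pt a b th) (dP s c i) = dv s c a b i := by
  simp [dP, dv, pt]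
theorem eval_PP (a b th : ℝ) : eval (pt a b th) (PP s c) = pv s c a b := by
  rw [PP, pv, map_prod]
  exact prod_congr rfl fun i _ => eval_dP s c a b th i
theorem eval_coP (a b th : ℝ) (i : ι) :
    eval (pt a b th) (coP s c i) = ∏ j ∈ univ.erase i, dv s c a b j := by
  rw [coP, map_prod]
  exact prod_congr rfl fun i _ => eval_dP s c a b th i
theorem eval_gP (a b th : ℝ) (i : ι) : eval (pt a b th) (gP s c i) = gv s c th i := by
  simp [gP, gv, pt]
theorem eval_hP (a b th : ℝ) (i : ι) : eval (pt a b th) (hP s c i) = hv s c th i := by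
  simp [hP, hv, pt]
theorem eval_KP (a b th : ℝ) : eval (pt a b th) (KP s c) = kv s c a b th := by
  rw [KP, kv, map_mul, eval_C, map_sum]
  congr 1
  refine sum_congr rfl fun i _ => ?_
  rw [map_mul, eval_gP, eval_coP]

end Pool.Agent.Lib.MP_3248c9_gt.Hy
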