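import Mathlib

/-!
# A scalar system with a positivity property

`k' = m`, `m' = w k`, `w >= 0`, `k 0 > 0`, `m 0 > 0` imply `k > 0` and `m >= m 0`.
Proof: consider `E = {t in [0,T] | for all r in [0,t], k r > 0 }` (or the first zero of `k`):
as long as `k >= 0`, `m` is nondecreasing, so `m >= m 0 > 0`, `k` is increasing, so `k >= k 0 > 0`.
And: a solution of a scalar linear equation `d' = d * q`, with `q` continuous, keeps its sign
(multiply by the integrating factor `exp (- integral of q)`).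
-/

set_option autoImplicit false

namespace Pool.Agent.Lib.MP_3248c9_gt.Hy

open Set

private theorem sys_mono {f f' : ℝ → ℝ} {T : ℝ} (hf : ∀ t ∈ Icc (0 : ℝ) T, HasDerivAt f (f' t) t)
    (h0 : ∀ t ∈ Icc (0 : ℝ) T, 0 ≤ f' t) : MonotoneOn f (Icc 0 T) := by
  refine monotoneOn_of_deriv_nonneg (convex_Icc 0 T)
    (fun z hz => (hf z hz).continuousAt.continuousWithinAt) ?_ ?_
  · intro z hz
    exact (hf z (interior_subset hz)).differentiableAt.differentiableWithinAt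
  · intro z hz
    rw [(hf z (interior_subset hz)).deriv]
    exact h0 z (interior_subset hz)

/-- the statement on an interval on which `k` is nonnegative -/
private theorem sys_step (k m w : ℝ → ℝ) (T : ℝ)
    (hk : ∀ t ∈ Icc (0 : ℝ) T, HasDerivAt k (m t) t)
    (hm : ∀ t ∈ Icc (0 : ℝ) T, HasDerivAt m (w t * k t) t)
    (hw : ∀ t ∈ Icc (0 : ℝ) T, 0 ≤ w t) (m0 : 0 < m 0)
    (hk0 : ∀ t ∈ Icc (0 : ℝ) T, 0 ≤ k t) :
    ∀ t ∈ Icc (0 : ℝ) T, k 0 ≤ k t ∧ m 0 ≤ m t := by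
  intro t ht
  have hT : (0 : ℝ) ∈ Icc (0 : ℝ) T := ⟨le_rfl, ht.1.trans ht.2⟩
  have h1 := sys_mono hm fun r hr => mul_nonneg (hw r hr) (hk0 r hr)
  have h2 : ∀ r ∈ Icc (0 : ℝ) T, m 0 ≤ m r := fun r hr => h1 hT hr hr.1
  have h3 := sys_mono hk fun r hr => m0.le.trans (h2 r hr)
  exact ⟨h3 hT ht ht.1, h2 t ht⟩

theorem pos_of_system (k m w : ℝ → ℝ) (T : ℝ)
    (hk : ∀ t ∈ Icc (0 : ℝ) T, HasDerivAt k (m t) t)
    (hm : ∀ t ∈ Icc (0 : ℝ) T, HasDerivAt m (w t * k t) t)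
    (hw : ∀ t ∈ Icc (0 : ℝ) T, 0 ≤ w t) (k0 : 0 < k 0) (m0 : 0 < m 0) :
    ∀ t ∈ Icc (0 : ℝ) T, 0 < k t ∧ m 0 ≤ m t := by
  rcases lt_or_ge T 0 with hT | hT
  · intro t ht
    exact absurd (ht.1.trans ht.2) (not_le.2 hT)
  have hkc : ContinuousOn k (Icc 0 T) := fun t ht => (hk t ht).continuousAt.continuousWithinAt
  -- `k ≥ k 0` everywhere, by connectedness
  have hmain : ∀ t ∈ Icc (0 : ℝ) T, k 0 ≤ k t := by
    have h1 : Icc (0 : ℝ) T ⊆ {t | ∀ r ∈ Icc (0 : ℝ) t, k 0 ≤ k r} := by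
      refine IsClosed.Icc_subset_of_forall_mem_nhdsWithin
        (s := {t | ∀ r ∈ Icc (0 : ℝ) t, k 0 ≤ k r}) ?_ ?_ ?_
      · -- closed
        have h2 : {t | ∀ r ∈ Icc (0 : ℝ) t, k 0 ≤ k r} ∩ Icc 0 T =
            {t | t ∈ Icc 0 T ∧ ∀ r ∈ Icc (0 : ℝ) t, k 0 ≤ k r} := by
          ext t
          exact and_comm
        refine isClosed_of_closure_subset fun t ht => ?_
        have htI : t ∈ Icc 0 T := by
          have h3 := closure_mono (inter_subset_right) ht
          rwa [isClosed_Icc.closure_eq] at h3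
        refine ⟨fun r hr => ?_, htI⟩
        rcases hr.2.lt_or_eq with h3 | h3
        · -- some point of the set lies to the right of `r`
          obtain ⟨t', h4, h5⟩ := mem_closure_iff.1 ht (Ioi r) isOpen_Ioi h3
          exact h5.1 r ⟨hr.1, le_of_lt h4⟩
        · -- `r = t`
          subst h3
          have h6 : ContinuousWithinAt k
              ({t | ∀ r ∈ Icc (0 : ℝ) t, k 0 ≤ k r} ∩ Icc 0 T) r :=
            (hk r htI).continuousAt.continuousWithinAt
          have h7 := h6.mem_closure_image ht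
          have h8 : k '' ({t | ∀ r ∈ Icc (0 : ℝ) t, k 0 ≤ k r} ∩ Icc 0 T) ⊆ Ici (k 0) := by
            rintro _ ⟨z, hz, rfl⟩
            exact hz.1 z ⟨hz.2.1, le_rfl⟩
          have h9 := closure_mono h8 h7
          rwa [isClosed_Ici.closure_eq] at h9
      · intro r hr
        rw [le_antisymm hr.2 hr.1]
      · rintro t ⟨ht1, ht2⟩
        -- near `t` the function stays positive
        have h2 : 0 < k t := k0.trans_le (ht1 t ⟨ht2.1, le_rfl⟩)
        have h3 : ∀ᶠ r in nhds t, 0 < k r :=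
          (hk t ⟨ht2.1, ht2.2.le⟩).continuousAt.eventually_const_lt h2
        rw [Metric.eventually_nhds_iff] at h3
        obtain ⟨ε, hε, h4⟩ := h3
        rw [mem_nhdsGT_iff_exists_Ioo_subset]
        refine ⟨min (t + ε) T, lt_min (by linarith) ht2.2, ?_⟩
        intro t' ht' r hr
        have h5 : t' < t + ε := ht'.2.trans_le (min_le_left _ _)
        have h6 : t' < T := ht'.2.trans_le (min_le_right _ _)
        have h7 : ∀ z ∈ Icc (0 : ℝ) t', 0 ≤ k z := by
          intro z hz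
          rcases le_or_gt z t with h8 | h8
          · exact k0.le.trans (ht1 z ⟨hz.1, h8⟩)
          · refine (h4 ?_).le
            rw [Real.dist_eq, abs_of_pos (by linarith)]
            linarith [hz.2]
        have h8 : ∀ z ∈ Icc (0 : ℝ) t', z ∈ Icc (0 : ℝ) T := fun z hz =>
          ⟨hz.1, hz.2.trans h6.le⟩
        exact (sys_step k m w t' (fun z hz => hk z (h8 z hz)) (fun z hz => hm z (h8 z hz))
          (fun z hz => hw z (h8 z hz)) m0 h7 r hr).1
    intro t ht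
    exact h1 ht t ⟨ht.1, le_rfl⟩
  intro t ht
  exact ⟨k0.trans_le (hmain t ht), (sys_step k m w T hk hm hw m0
    (fun r hr => k0.le.trans (hmain r hr)) t ht).2⟩

theorem pos_of_linear (d q : ℝ → ℝ) (T : ℝ)
    (hd : ∀ t ∈ Icc (0 : ℝ) T, HasDerivAt d (d t * q t) t)
    (hq : ContinuousOn q (Icc 0 T)) (d0 : 0 < d 0) :
    ∀ t ∈ Icc (0 : ℝ) T, 0 < d t := by
  rcases lt_or_ge T 0 with hT | hT
  · intro t ht
    exact absurd (ht.1.trans ht.2) (not_le.2 hT)
  have hdc : ContinuousOn d (Icc 0 T) := fun t ht => (hd t ht).continuousAt.continuousWithinAt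
  intro t ht
  by_contra hneg
  push Not at hneg
  -- a zero `z` of `d`
  obtain ⟨z, hz, hz0⟩ : ∃ z ∈ Icc (0 : ℝ) t, d z = 0 := by
    have h1 : Icc (d t) (d 0) ⊆ d '' Icc 0 t :=
      intermediate_value_Icc' ht.1 (hdc.mono (Icc_subset_Icc_right ht.2))
    obtain ⟨z, hz, h2⟩ := h1 ⟨hneg, d0.le⟩
    exact ⟨z, hz, h2⟩
  have hzT : z ∈ Icc (0 : ℝ) T := ⟨hz.1, hz.2.trans ht.2⟩
  -- a bound of `q`
  obtain ⟨Q, hQ⟩ : ∃ Q : ℝ, ∀ r ∈ Icc (0 : ℝ) T, |q r| ≤ Q := by
    obtain ⟨Q, hQ⟩ := isCompact_Icc.exists_bound_of_continuousOn hq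
    exact ⟨Q, fun r hr => by simpa [Real.norm_eq_abs] using hQ r hr⟩
  -- Gronwall backwards from `z`
  have hf : ∀ r ∈ Icc (0 : ℝ) T, HasDerivAt (fun r => d r ^ 2 * Real.exp (2 * Q * r))
      (2 * d r * (d r * q r) * Real.exp (2 * Q * r) +
        d r ^ 2 * (Real.exp (2 * Q * r) * (2 * Q))) r := by
    intro r hr
    have h1 := (hd r hr).pow 2
    have h2 : HasDerivAt (fun r => Real.exp (2 * Q * r)) (Real.exp (2 * Q * r) * (2 * Q)) r := by
      have h3 := ((hasDerivAt_id r).const_mul (2 * Q)).exp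
      rw [mul_one] at h3
      exact h3
    refine (h1.mul h2).congr_deriv ?_
    rw [Pi.pow_apply]
    push_cast
    ring
  have hmono := sys_mono hf (fun r hr => by
    have h1 := (abs_le.1 (hQ r hr)).1
    have h2 : 2 * d r * (d r * q r) * Real.exp (2 * Q * r) +
        d r ^ 2 * (Real.exp (2 * Q * r) * (2 * Q)) =
        2 * (d r ^ 2 * Real.exp (2 * Q * r)) * (q r + Q) := by ring
    rw [h2]
    have h3 : 0 ≤ q r + Q := by linarith
    positivity)
  have h1 := hmono ⟨le_rfl, hT⟩ hzT hz.1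
  have h2 : 0 < d 0 ^ 2 * Real.exp (2 * Q * 0) := by positivity
  have h3 : d z ^ 2 * Real.exp (2 * Q * z) = 0 := by
    rw [hz0]
    ring
  have h4 : d 0 ^ 2 * Real.exp (2 * Q * 0) ≤ d z ^ 2 * Real.exp (2 * Q * z) := h1
  linarith

end Pool.Agent.Lib.MP_3248c9_gt.Hy
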