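import Pool.Agent.Lib.MP_3248c9_gt.Hy.PDer
import Pool.Agent.Lib.MP_3248c9_gt.Hy.Noe
import Pool.Agent.Lib.MP_3248c9_gt.Hy.Sys

/-!
# A solution on `[0, T]` of the polynomial system is a ray

With `z t = pt (a t) (b t) (th t)`, `z` is a trajectory of `VF` (the derivative of `cos th` is
`- sin th * K`, etc.). `d_i > 0` by `pos_of_linear` (`d_i' = P h_i = d_i * (h_i prod_{j != i} d_j)`).
Put `k = K / P`, `m = M / P` along the curve. `k' = (V K P - K P E)/P^2 = M/P = m`,
`m' = (V M - M E)/P = (K^3 + K sum g_i^2 co_i^2)/P = k (K^2 + sum g_i^2 co_i^2)` because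
`F = 0` along the curve (`vanish_of_initial`). Then `pos_of_system`.
`k = (1/3) sum g_i/d_i` because `co_i = P/d_i`.
-/

set_option autoImplicit false

namespace Pool.Agent.Lib.MP_3248c9_gt.Hy

open Finset MvPolynomial

variable {ι : Type} [Fintype ι] [DecidableEq ι] (s c : ι → ℝ)

/-- the curve in `R^4` is a trajectory of the polynomial vector field -/
private theorem RayOf_traj (a b th : ℝ → ℝ) (t : ℝ)
    (ha : HasDerivAt a (pv s c (a t) (b t) * Real.cos (th t)) t)
    (hb : HasDerivAt b (pv s c (a t) (b t) * Real.sin (th t)) t)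
    (hth : HasDerivAt th (kv s c (a t) (b t) (th t)) t) (i : Fin 4) :
    HasDerivAt (fun x => pt (a x) (b x) (th x) i)
      (eval (pt (a t) (b t) (th t)) (VF s c (X i))) t := by
  fin_cases i
  · change HasDerivAt a (eval (pt (a t) (b t) (th t)) (VF s c (X 0))) t
    rw [VF_X0, map_mul, eval_PP, eval_X]
    exact ha
  · change HasDerivAt b (eval (pt (a t) (b t) (th t)) (VF s c (X 1))) t
    rw [VF_X1, map_mul, eval_PP, eval_X]
    exact hb
  · change HasDerivAt (fun x => Real.cos (th x)) (eval (pt (a t) (b t) (th t)) (VF s c (X 2))) t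
    rw [VF_X2, map_neg, map_mul, eval_KP, eval_X, ← neg_mul]
    exact hth.cos
  · change HasDerivAt (fun x => Real.sin (th x)) (eval (pt (a t) (b t) (th t)) (VF s c (X 3))) t
    rw [VF_X3, map_mul, eval_KP, eval_X]
    exact hth.sin

private theorem RayOf_prod (a b : ℝ) (i : ι) :
    dv s c a b i * ∏ j ∈ univ.erase i, dv s c a b j = pv s c a b :=
  Finset.mul_prod_erase univ (fun j => dv s c a b j) (Finset.mem_univ i)

private theorem RayOf_ray (a b th : ℝ) (h : ∀ i, 0 < dv s c a b i) :
    kv s c a b th / pv s c a b = (1 / 3) * ∑ i, gv s c th i / dv s c a b i := by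
  have hp : 0 < pv s c a b := Finset.prod_pos fun i _ => h i
  rw [div_eq_iff hp.ne', mul_assoc, Finset.sum_mul, kv]
  congr 1
  refine Finset.sum_congr rfl fun i _ => ?_
  rw [← RayOf_prod s c a b i]
  have hi := (h i).ne'
  field_simp

theorem ray_of_solution (a b th : ℝ → ℝ) (T : ℝ) (hT : 0 ≤ T)
    (ha : ∀ t ∈ Set.Icc (0 : ℝ) T, HasDerivAt a (pv s c (a t) (b t) * Real.cos (th t)) t)
    (hb : ∀ t ∈ Set.Icc (0 : ℝ) T, HasDerivAt b (pv s c (a t) (b t) * Real.sin (th t)) t)
    (hth : ∀ t ∈ Set.Icc (0 : ℝ) T, HasDerivAt th (kv s c (a t) (b t) (th t)) t)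
    (a0 : a 0 = 0) (b0 : b 0 = 0) (th0 : th 0 = 0)
    (hK : 0 < eval (pt 0 0 0) (KP s c)) (hM : 0 < eval (pt 0 0 0) (MP s c))
    (hF : ∀ j : ℕ, eval (pt 0 0 0) ((VF s c)^[j] (FP s c)) = 0) :
    Ray s c (Set.Icc 0 T) a b th (fun t => kv s c (a t) (b t) (th t) / pv s c (a t) (b t))
      (fun t => eval (pt (a t) (b t) (th t)) (MP s c) / pv s c (a t) (b t)) := by
  have h00 : (0 : ℝ) ∈ Set.Icc (0 : ℝ) T := ⟨le_rfl, hT⟩
  -- trajectory
  have hz : ∀ t ∈ Set.Icc (0 : ℝ) T, ∀ i, HasDerivAt (fun x => pt (a x) (b x) (th x) i)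
      (eval (pt (a t) (b t) (th t)) (VF s c (X i))) t := fun t ht i =>
    RayOf_traj s c a b th t (ha t ht) (hb t ht) (hth t ht) i
  have hev : ∀ t ∈ Set.Icc (0 : ℝ) T, ∀ G : R4,
      HasDerivAt (fun x => eval (pt (a x) (b x) (th x)) G)
        (eval (pt (a t) (b t) (th t)) (VF s c G)) t := by
    intro t ht G
    have h := hasDerivAt_eval (VF s c) (fun x => pt (a x) (b x) (th x)) t 1
      (fun i => by rw [one_mul]; exact hz t ht i) G
    rwa [one_mul] at h
  have hF0 : ∀ t ∈ Set.Icc (0 : ℝ) T, eval (pt (a t) (b t) (th t)) (FP s c) = 0 := by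
    refine vanish_of_initial (VF s c) (FP s c) (fun x => pt (a x) (b x) (th x)) T hz fun j => ?_
    change eval (pt (a 0) (b 0) (th 0)) ((VF s c)^[j] (FP s c)) = 0
    rw [a0, b0, th0]
    exact hF j
  -- positivity of the affine functions
  have hca : ContinuousOn a (Set.Icc 0 T) := fun t ht => (ha t ht).continuousAt.continuousWithinAt
  have hcb : ContinuousOn b (Set.Icc 0 T) := fun t ht => (hb t ht).continuousAt.continuousWithinAt
  have hcth : ContinuousOn th (Set.Icc 0 T) := fun t ht =>
    (hth t ht).continuousAt.continuousWithinAt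
  have hpos : ∀ t ∈ Set.Icc (0 : ℝ) T, ∀ i, 0 < dv s c (a t) (b t) i := by
    intro t ht i
    refine pos_of_linear (fun t => dv s c (a t) (b t) i)
      (fun t => hv s c (th t) i * ∏ j ∈ univ.erase i, dv s c (a t) (b t) j) T ?_ ?_ ?_ t ht
    · intro r hr
      have h1 : HasDerivAt (fun t => dv s c (a t) (b t) i)
          (s i * (pv s c (a r) (b r) * Real.cos (th r))
            - c i * (pv s c (a r) (b r) * Real.sin (th r))) r := by
        have h2 := (((ha r hr).const_mul (s i)).const_add 1).sub ((hb r hr).const_mul (c i))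
        exact h2
      have h3 : dv s c (a r) (b r) i * (hv s c (th r) i * ∏ j ∈ univ.erase i, dv s c (a r) (b r) j)
          = s i * (pv s c (a r) (b r) * Real.cos (th r))
            - c i * (pv s c (a r) (b r) * Real.sin (th r)) := by
        rw [← RayOf_prod s c (a r) (b r) i, hv]
        ring
      change HasDerivAt (fun t => dv s c (a t) (b t) i)
        (dv s c (a r) (b r) i * (hv s c (th r) i * ∏ j ∈ univ.erase i, dv s c (a r) (b r) j)) r
      rw [h3]
      exact h1
    · have h4 : ∀ j, ContinuousOn (fun t => dv s c (a t) (b t) j) (Set.Icc 0 T) := by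
        intro j
        exact ((continuousOn_const.add (continuousOn_const.mul hca)).sub
          (continuousOn_const.mul hcb))
      refine ContinuousOn.mul ?_ (continuousOn_finsetProd _ fun j _ => h4 j)
      exact (continuousOn_const.mul (Real.continuous_cos.comp_continuousOn hcth)).sub
        (continuousOn_const.mul (Real.continuous_sin.comp_continuousOn hcth))
    · show 0 < dv s c (a 0) (b 0) i
      rw [a0, b0, dv]
      norm_num
  have hpp : ∀ t ∈ Set.Icc (0 : ℝ) T, 0 < pv s c (a t) (b t) := fun t ht =>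
    Finset.prod_pos fun i _ => hpos t ht i
  have hp0 : 0 < pv s c (a 0) (b 0) := hpp 0 h00
  -- the derivative of `P`
  have hP : ∀ t ∈ Set.Icc (0 : ℝ) T, HasDerivAt (fun t => pv s c (a t) (b t))
      (pv s c (a t) (b t) * eval (pt (a t) (b t) (th t)) (EP s c)) t := by
    intro t ht
    have h := hev t ht (PP s c)
    rw [VF_PP, map_mul, eval_PP] at h
    refine h.congr_of_eventuallyEq (Filter.Eventually.of_forall fun x => ?_)
    exact (eval_PP s c (a x) (b x) (th x)).symm
  -- quotient rule
  have hdiv : ∀ t ∈ Set.Icc (0 : ℝ) T, ∀ G : R4,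
      HasDerivAt (fun t => eval (pt (a t) (b t) (th t)) G / pv s c (a t) (b t))
        (eval (pt (a t) (b t) (th t)) (VF s c G - G * EP s c) / pv s c (a t) (b t)) t := by
    intro t ht G
    have h := (hev t ht G).div (hP t ht) (hpp t ht).ne'
    refine h.congr_deriv ?_
    have hne := (hpp t ht).ne'
    rw [map_sub, map_mul]
    field_simp
  have hk : ∀ t ∈ Set.Icc (0 : ℝ) T,
      HasDerivAt (fun t => kv s c (a t) (b t) (th t) / pv s c (a t) (b t))
        (eval (pt (a t) (b t) (th t)) (MP s c) / pv s c (a t) (b t)) t := by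
    intro t ht
    have h := hdiv t ht (KP s c)
    refine h.congr_of_eventuallyEq (Filter.Eventually.of_forall fun x => ?_)
    change kv s c (a x) (b x) (th x) / pv s c (a x) (b x)
      = eval (pt (a x) (b x) (th x)) (KP s c) / pv s c (a x) (b x)
    rw [eval_KP]
  have hm : ∀ t ∈ Set.Icc (0 : ℝ) T,
      HasDerivAt (fun t => eval (pt (a t) (b t) (th t)) (MP s c) / pv s c (a t) (b t))
        ((eval (pt (a t) (b t) (th t)) (KP s c) ^ 2 + ∑ i,
          eval (pt (a t) (b t) (th t)) (gP s c i) ^ 2 *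
            eval (pt (a t) (b t) (th t)) (coP s c i) ^ 2) *
          (kv s c (a t) (b t) (th t) / pv s c (a t) (b t))) t := by
    intro t ht
    refine (hdiv t ht (MP s c)).congr_deriv ?_
    have h := hF0 t ht
    rw [FP, map_sub, map_sub, map_mul, map_pow, map_sum] at h
    have h2 : eval (pt (a t) (b t) (th t)) (VF s c (MP s c) - MP s c * EP s c)
        = eval (pt (a t) (b t) (th t)) (KP s c) ^ 3 + eval (pt (a t) (b t) (th t)) (KP s c) * ∑ i,
          eval (pt (a t) (b t) (th t)) (gP s c i) ^ 2 *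
            eval (pt (a t) (b t) (th t)) (coP s c i) ^ 2 := by
      have h3 : ∀ i, eval (pt (a t) (b t) (th t)) (gP s c i ^ 2 * coP s c i ^ 2)
          = eval (pt (a t) (b t) (th t)) (gP s c i) ^ 2 *
            eval (pt (a t) (b t) (th t)) (coP s c i) ^ 2 := fun i => by
        rw [map_mul, map_pow, map_pow]
      rw [Finset.sum_congr rfl fun i _ => h3 i] at h
      linarith
    rw [h2, ← eval_KP s c (a t) (b t) (th t)]
    ring
  have hk0 : 0 < kv s c (a 0) (b 0) (th 0) / pv s c (a 0) (b 0) := by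
    refine div_pos ?_ hp0
    rw [← eval_KP s c (a 0) (b 0) (th 0), a0, b0, th0]
    exact hK
  have hm0 : 0 < eval (pt (a 0) (b 0) (th 0)) (MP s c) / pv s c (a 0) (b 0) := by
    refine div_pos ?_ hp0
    rw [a0, b0, th0]
    exact hM
  have hsys := pos_of_system (fun t => kv s c (a t) (b t) (th t) / pv s c (a t) (b t))
    (fun t => eval (pt (a t) (b t) (th t)) (MP s c) / pv s c (a t) (b t))
    (fun t => eval (pt (a t) (b t) (th t)) (KP s c) ^ 2 + ∑ i,
      eval (pt (a t) (b t) (th t)) (gP s c i) ^ 2 *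
        eval (pt (a t) (b t) (th t)) (coP s c i) ^ 2) T hk hm
    (fun t _ => add_nonneg (sq_nonneg _)
      (Finset.sum_nonneg fun i _ => mul_nonneg (sq_nonneg _) (sq_nonneg _))) hk0 hm0
  exact
    { ha := ha
      hb := hb
      hth := fun t ht => by
        have h := hth t ht
        have h2 : pv s c (a t) (b t) * (kv s c (a t) (b t) (th t) / pv s c (a t) (b t))
            = kv s c (a t) (b t) (th t) := mul_div_cancel₀ _ (hpp t ht).ne'
        rw [h2]
        exact h
      hk := hk
      pos := hpos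
      ray := fun t ht => RayOf_ray s c (a t) (b t) (th t) (hpos t ht)
      mm := fun t ht => (hsys t ht).2
      k0 := hk0
      m0 := hm0 }

end Pool.Agent.Lib.MP_3248c9_gt.Hy
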