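import Pool.Agent.Lib.MP_3248c9_gt.Hy.PDer
import Pool.Agent.Lib.MP_3248c9_gt.Hy.Noe

/-!
# The scalar data in arclength, and the vanishing of all `V^j F` at the initial point

Along the curve `z t = pt (a t) (b t) (th t)` in arclength, `z' = V(z)/P`
(`K(z) = P k` by `ray`, `co_i = P/d_i`). By `hasDerivAt_eval` with `r = 1/P`:
* `eval z KP = P k`; differentiating: `V K = E K + P^2 k1`, so `eval z MP = P^2 k1`;
* differentiating again: `V M = 2 P^2 E k1 + P^3 k2`, `k2 = k (k^2 + sum (g_i/d_i)^2) - k1 E/P`, so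
  `eval z FP = 0` for all `t` in the interval (`sum h_i/d_i = E/P`);
* by induction `eval z (V^j F) = 0` on the interval: the derivative of `0` is `0 = (1/P) eval z (V (V^j F))`.
-/

set_option autoImplicit false

namespace Pool.Agent.Lib.MP_3248c9_gt.Hy

open Finset MvPolynomial

variable {ι : Type} [Fintype ι] [DecidableEq ι] (s c : ι → ℝ)

/-- The planar data in arclength. -/
structure Scd (s c : ι → ℝ) (δ : ℝ) (a b th k k1 : ℝ → ℝ) : Prop where
  ha : ∀ t ∈ Set.Ioo (-δ) δ, HasDerivAt a (Real.cos (th t)) t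
  hb : ∀ t ∈ Set.Ioo (-δ) δ, HasDerivAt b (Real.sin (th t)) t
  hth : ∀ t ∈ Set.Ioo (-δ) δ, HasDerivAt th (k t) t
  hk : ∀ t ∈ Set.Ioo (-δ) δ, HasDerivAt k (k1 t) t
  hk1 : ∀ t ∈ Set.Ioo (-δ) δ, HasDerivAt k1
    (k t * (k t ^ 2 + ∑ i, (gv s c (th t) i / dv s c (a t) (b t) i) ^ 2) -
      k1 t * ∑ i, hv s c (th t) i / dv s c (a t) (b t) i) t
  pos : ∀ t ∈ Set.Ioo (-δ) δ, ∀ i, 0 < dv s c (a t) (b t) i
  ray : ∀ t ∈ Set.Ioo (-δ) δ, k t = (1 / 3) * ∑ i, gv s c (th t) i / dv s c (a t) (b t) i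
  a0 : a 0 = 0
  b0 : b 0 = 0
  th0 : th 0 = 0

variable {s c} {δ : ℝ} {a b th k k1 : ℝ → ℝ}

theorem Scd.pv_pos (h : Scd s c δ a b th k k1) {t : ℝ} (ht : t ∈ Set.Ioo (-δ) δ) :
    0 < pv s c (a t) (b t) := Finset.prod_pos fun i _ => h.pos t ht i

/-- `co_i = P / d_i` -/
theorem Scd.co (h : Scd s c δ a b th k k1) {t : ℝ} (ht : t ∈ Set.Ioo (-δ) δ) (i : ι) :
    ∏ j ∈ univ.erase i, dv s c (a t) (b t) j =
      pv s c (a t) (b t) / dv s c (a t) (b t) i := by
  rw [eq_div_iff (h.pos t ht i).ne']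
  exact Finset.prod_erase_mul univ _ (Finset.mem_univ i)

theorem Scd.evalK (h : Scd s c δ a b th k k1) {t : ℝ} (ht : t ∈ Set.Ioo (-δ) δ) :
    eval (pt (a t) (b t) (th t)) (KP s c) = pv s c (a t) (b t) * k t := by
  rw [eval_KP, h.ray t ht]
  unfold kv
  rw [mul_left_comm]
  congr 1
  rw [Finset.mul_sum]
  refine Finset.sum_congr rfl fun i _ => ?_
  rw [h.co ht i]
  ring

theorem Scd.evalE (h : Scd s c δ a b th k k1) {t : ℝ} (ht : t ∈ Set.Ioo (-δ) δ) :
    eval (pt (a t) (b t) (th t)) (EP s c) =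
      pv s c (a t) (b t) * ∑ i, hv s c (th t) i / dv s c (a t) (b t) i := by
  unfold EP
  rw [map_sum, Finset.mul_sum]
  refine Finset.sum_congr rfl fun i _ => ?_
  rw [map_mul, eval_hP, eval_coP, h.co ht i]
  ring

/-- The derivative along the curve of a polynomial in the point. -/
theorem Scd.deriv_eval (h : Scd s c δ a b th k k1) {t : ℝ} (ht : t ∈ Set.Ioo (-δ) δ) (G : R4) :
    HasDerivAt (fun x => eval (pt (a x) (b x) (th x)) G)
      ((pv s c (a t) (b t))⁻¹ * eval (pt (a t) (b t) (th t)) (VF s c G)) t := by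
  have hp := (h.pv_pos ht).ne'
  refine hasDerivAt_eval (VF s c) (fun x => pt (a x) (b x) (th x)) t _ (fun i => ?_) G
  show HasDerivAt (fun x => pt (a x) (b x) (th x) i)
    ((pv s c (a t) (b t))⁻¹ * eval (pt (a t) (b t) (th t)) (VF s c (X i))) t
  fin_cases i
  · show HasDerivAt a ((pv s c (a t) (b t))⁻¹ * eval (pt (a t) (b t) (th t)) (VF s c (X 0))) t
    have e : (pv s c (a t) (b t))⁻¹ * eval (pt (a t) (b t) (th t)) (VF s c (X 0)) =
        Real.cos (th t) := by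
      rw [VF_X0, map_mul, eval_PP, eval_X, inv_mul_cancel_left₀ hp]
      rfl
    rw [e]
    exact h.ha t ht
  · show HasDerivAt b ((pv s c (a t) (b t))⁻¹ * eval (pt (a t) (b t) (th t)) (VF s c (X 1))) t
    have e : (pv s c (a t) (b t))⁻¹ * eval (pt (a t) (b t) (th t)) (VF s c (X 1)) =
        Real.sin (th t) := by
      rw [VF_X1, map_mul, eval_PP, eval_X, inv_mul_cancel_left₀ hp]
      rfl
    rw [e]
    exact h.hb t ht
  · show HasDerivAt (fun x => Real.cos (th x))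
      ((pv s c (a t) (b t))⁻¹ * eval (pt (a t) (b t) (th t)) (VF s c (X 2))) t
    have e : (pv s c (a t) (b t))⁻¹ * eval (pt (a t) (b t) (th t)) (VF s c (X 2)) =
        -Real.sin (th t) * k t := by
      rw [VF_X2, map_neg, map_mul, h.evalK ht, eval_X]
      show (pv s c (a t) (b t))⁻¹ * -(Real.sin (th t) * (pv s c (a t) (b t) * k t)) = _
      field_simp
    rw [e]
    exact (h.hth t ht).cos
  · show HasDerivAt (fun x => Real.sin (th x))
      ((pv s c (a t) (b t))⁻¹ * eval (pt (a t) (b t) (th t)) (VF s c (X 3))) t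
    have e : (pv s c (a t) (b t))⁻¹ * eval (pt (a t) (b t) (th t)) (VF s c (X 3)) =
        Real.cos (th t) * k t := by
      rw [VF_X3, map_mul, h.evalK ht, eval_X]
      show (pv s c (a t) (b t))⁻¹ * (Real.cos (th t) * (pv s c (a t) (b t) * k t)) = _
      field_simp
    rw [e]
    exact (h.hth t ht).sin

/-- The derivative of `P` along the curve. -/
theorem Scd.hasDerivAt_pv (h : Scd s c δ a b th k k1) {t : ℝ} (ht : t ∈ Set.Ioo (-δ) δ) :
    HasDerivAt (fun x => pv s c (a x) (b x)) (eval (pt (a t) (b t) (th t)) (EP s c)) t := by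
  have h1 := h.deriv_eval ht (PP s c)
  rw [VF_PP, map_mul, eval_PP, inv_mul_cancel_left₀ (h.pv_pos ht).ne'] at h1
  simp only [eval_PP] at h1
  exact h1

theorem Scd.nhds (_ : Scd s c δ a b th k k1) {t : ℝ} (ht : t ∈ Set.Ioo (-δ) δ) :
    Set.Ioo (-δ) δ ∈ nhds t := isOpen_Ioo.mem_nhds ht

theorem Scd.evalM (h : Scd s c δ a b th k k1) {t : ℝ} (ht : t ∈ Set.Ioo (-δ) δ) :
    eval (pt (a t) (b t) (th t)) (MP s c) = pv s c (a t) (b t) ^ 2 * k1 t := by
  have hp := (h.pv_pos ht).ne'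
  have h1 := h.deriv_eval ht (KP s c)
  have h2 : HasDerivAt (fun x => eval (pt (a x) (b x) (th x)) (KP s c))
      (eval (pt (a t) (b t) (th t)) (EP s c) * k t + pv s c (a t) (b t) * k1 t) t :=
    ((h.hasDerivAt_pv ht).mul (h.hk t ht)).congr_of_eventuallyEq
      (Filter.eventuallyEq_of_mem (h.nhds ht) fun x hx => h.evalK hx)
  have h3 := h1.unique h2
  have h4 : eval (pt (a t) (b t) (th t)) (VF s c (KP s c)) = pv s c (a t) (b t) *
      (eval (pt (a t) (b t) (th t)) (EP s c) * k t + pv s c (a t) (b t) * k1 t) := by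
    rw [← h3, mul_inv_cancel_left₀ hp]
  unfold MP
  rw [map_sub, map_mul, h4, h.evalK ht]
  ring

theorem Scd.evalF (h : Scd s c δ a b th k k1) {t : ℝ} (ht : t ∈ Set.Ioo (-δ) δ) :
    eval (pt (a t) (b t) (th t)) (FP s c) = 0 := by
  have hp := (h.pv_pos ht).ne'
  have h1 := h.deriv_eval ht (MP s c)
  have h2 := (((h.hasDerivAt_pv ht).pow 2).mul (h.hk1 t ht)).congr_of_eventuallyEq
      (Filter.eventuallyEq_of_mem (h.nhds ht) fun x hx => h.evalM hx)
  have h3 := h1.unique h2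
  obtain ⟨p, hp'⟩ : ∃ p, p = pv s c (a t) (b t) := ⟨_, rfl⟩
  obtain ⟨H, hH⟩ : ∃ H, H = ∑ i, hv s c (th t) i / dv s c (a t) (b t) i := ⟨_, rfl⟩
  obtain ⟨Q, hQ⟩ : ∃ Q, Q = ∑ i, (gv s c (th t) i / dv s c (a t) (b t) i) ^ 2 := ⟨_, rfl⟩
  have hE := h.evalE ht
  rw [← hH, ← hp'] at hE
  have h5 : ∑ i, eval (pt (a t) (b t) (th t)) (gP s c i ^ 2 * coP s c i ^ 2) = p ^ 2 * Q := by
    rw [hQ, Finset.mul_sum]
    refine Finset.sum_congr rfl fun i _ => ?_
    rw [map_mul, map_pow, map_pow, eval_gP, eval_coP, h.co ht i, ← hp']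
    ring
  have h4 : eval (pt (a t) (b t) (th t)) (VF s c (MP s c)) = p *
      (2 * p * (p * H) * k1 t + p ^ 2 * (k t * (k t ^ 2 + Q) - k1 t * H)) := by
    rw [← hp'] at h3 hp
    rw [← hQ, ← hH, hE] at h3
    rw [← mul_inv_cancel_left₀ hp (eval (pt (a t) (b t) (th t)) (VF s c (MP s c))), h3]
    simp only [Pi.pow_apply, ← hp']
    push_cast
    ring
  unfold FP
  rw [map_sub, map_sub, map_sub, map_mul, map_mul, map_pow, map_sum, h4, h5, h.evalK ht,
    h.evalM ht, hE, ← hp']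
  ring

theorem Scd.evalVF (h : Scd s c δ a b th k k1) (j : ℕ) : ∀ t ∈ Set.Ioo (-δ) δ,
    eval (pt (a t) (b t) (th t)) ((VF s c)^[j] (FP s c)) = 0 := by
  induction j with
  | zero => exact fun t ht => h.evalF ht
  | succ j ih =>
    intro t ht
    have h1 := h.deriv_eval ht ((VF s c)^[j] (FP s c))
    have h2 : HasDerivAt (fun x => eval (pt (a x) (b x) (th x)) ((VF s c)^[j] (FP s c))) 0 t :=
      (hasDerivAt_const t (0 : ℝ)).congr_of_eventuallyEq
        (Filter.eventuallyEq_of_mem (h.nhds ht) fun x hx => ih x hx)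
    have h3 := h1.unique h2
    rw [Function.iterate_succ_apply']
    exact (mul_eq_zero.mp h3).resolve_left (inv_ne_zero (h.pv_pos ht).ne')

theorem Scd.initial (h : Scd s c δ a b th k k1) (hδ : 0 < δ) :
    eval (pt 0 0 0) (KP s c) = k 0 ∧ eval (pt 0 0 0) (MP s c) = k1 0 ∧
      ∀ j : ℕ, eval (pt 0 0 0) ((VF s c)^[j] (FP s c)) = 0 := by
  have h0 : (0 : ℝ) ∈ Set.Ioo (-δ) δ := ⟨neg_lt_zero.mpr hδ, hδ⟩
  have hp : pv s c 0 0 = 1 := by
    unfold pv dv
    exact Finset.prod_eq_one fun i _ => by ring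
  have h1 := h.evalK h0
  have h2 := h.evalM h0
  rw [h.a0, h.b0, h.th0, hp] at h1 h2
  refine ⟨by rw [h1, one_mul], by rw [h2, one_pow, one_mul], fun j => ?_⟩
  have h3 := h.evalVF j 0 h0
  rwa [h.a0, h.b0, h.th0] at h3

end Pool.Agent.Lib.MP_3248c9_gt.Hy
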