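import Pool.Agent.Lib.MP_3248c9_gt.Hy.Lim

/-!
# The end point lies on a focal line; the focal line lemma

* `exists_zero`: otherwise all `d_i(X_e) > 0` (limits of positive numbers are `>= 0`), then
  `k = (1/3) sum g_i/d_i` is bounded for large `t` (`|g_i| <= |s_i| + |c_i|`), but `k` tends to
  infinity.
* `focal`: `d_i(X_e) = 0`; `X_e` is in the disc with centre `C = X + nu/k` and radius `1/k`, so
  `d_i(C) <= d_i(X_e) + sqrt(s_i^2 + c_i^2)/k = sqrt(s_i^2 + c_i^2)/k` (Cauchy-Schwarz), and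
  `d_i(X) = d_i(C) - g_i/k > 0`.
-/

set_option autoImplicit false

namespace Pool.Agent.Lib.MP_3248c9_gt.Hy

open Finset Filter Topology

variable {ι : Type} [Fintype ι] [DecidableEq ι] {s c : ι → ℝ} {a b th k m : ℝ → ℝ} {x y : ℝ}

theorem Ray.d_tendsto (_ : Ray s c (Set.Ici 0) a b th k m) (he : EndPt a b th k x y) (i : ι) :
    Tendsto (fun t => dv s c (a t) (b t) i) atTop (𝓝 (dv s c x y i)) := by
  unfold dv
  exact ((he.ta.const_mul (s i)).const_add 1).sub (he.tb.const_mul (c i))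

theorem Ray.d_nonneg (h : Ray s c (Set.Ici 0) a b th k m) (he : EndPt a b th k x y) (i : ι) :
    0 ≤ dv s c x y i :=
  ge_of_tendsto (h.d_tendsto he i)
    ((eventually_ge_atTop 0).mono fun t ht => (h.pos t ht i).le)

theorem abs_gv_le (s c : ι → ℝ) (θ : ℝ) (i : ι) : |gv s c θ i| ≤ |s i| + |c i| := by
  unfold gv
  rw [abs_neg]
  refine (abs_add_le _ _).trans ?_
  rw [abs_mul, abs_mul]
  have h1 := Real.abs_sin_le_one θ
  have h2 := Real.abs_cos_le_one θ
  have h3 := abs_nonneg (s i)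
  have h4 := abs_nonneg (c i)
  nlinarith

theorem Ray.exists_zero (h : Ray s c (Set.Ici 0) a b th k m) (he : EndPt a b th k x y) :
    ∃ i, dv s c x y i = 0 := by
  by_contra hno
  push Not at hno
  have h1 : Tendsto (fun t => (1 / 3 : ℝ) * ∑ i, (|s i| + |c i|) / dv s c (a t) (b t) i) atTop
      (𝓝 ((1 / 3 : ℝ) * ∑ i, (|s i| + |c i|) / dv s c x y i)) :=
    (tendsto_finsetSum _ fun i _ =>
      tendsto_const_nhds.div (h.d_tendsto he i) (hno i)).const_mul _
  have h2 : Tendsto (fun t => (1 / 3 : ℝ) * ∑ i, (|s i| + |c i|) / dv s c (a t) (b t) i) atTop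
      atTop := by
    refine tendsto_atTop_mono' atTop ?_ h.k_tendsto
    filter_upwards [eventually_ge_atTop 0] with t ht
    rw [h.ray t ht]
    refine mul_le_mul_of_nonneg_left (Finset.sum_le_sum fun i _ => ?_) (by norm_num)
    exact div_le_div_of_nonneg_right ((le_abs_self _).trans (abs_gv_le s c (th t) i))
      (h.pos t ht i).le
  exact not_tendsto_nhds_of_tendsto_atTop h2 _ h1

theorem Ray.focal (h : Ray s c (Set.Ici 0) a b th k m) (he : EndPt a b th k x y) {i : ι}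
    (hi : dv s c x y i = 0) {t : ℝ} (ht : 0 ≤ t) :
    gv s c (th t) i < Real.sqrt (s i ^ 2 + c i ^ 2) := by
  have hk := h.k_pos ht
  have hd := he.disc t ht
  have hp := h.pos t ht i
  obtain ⟨A, hA⟩ : ∃ A, A = a t - Real.sin (th t) / k t := ⟨_, rfl⟩
  obtain ⟨B, hB⟩ : ∃ B, B = b t + Real.cos (th t) / k t := ⟨_, rfl⟩
  obtain ⟨R, hR⟩ : ∃ R, R = Real.sqrt (s i ^ 2 + c i ^ 2) := ⟨_, rfl⟩
  have hR0 : 0 ≤ R := by
    rw [hR]
    exact Real.sqrt_nonneg _
  have hR2 : R ^ 2 = s i ^ 2 + c i ^ 2 := by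
    rw [hR]
    exact Real.sq_sqrt (by positivity)
  rw [← hA, ← hB] at hd
  have h1 : s i * (A - x) - c i * (B - y) ≤ R * (1 / k t) := by
    refine (abs_le_of_sq_le_sq' ?_ (by positivity)).2
    rw [mul_pow, hR2]
    have h2 : (s i ^ 2 + c i ^ 2) * ((x - A) ^ 2 + (y - B) ^ 2) ≤
        (s i ^ 2 + c i ^ 2) * (1 / k t) ^ 2 := mul_le_mul_of_nonneg_left hd (by positivity)
    have h3 : (s i * (A - x) - c i * (B - y)) ^ 2 + (s i * (B - y) + c i * (A - x)) ^ 2 =
        (s i ^ 2 + c i ^ 2) * ((x - A) ^ 2 + (y - B) ^ 2) := by ring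
    have h4 := sq_nonneg (s i * (B - y) + c i * (A - x))
    linarith
  have h2 : dv s c (a t) (b t) i =
      (s i * (A - x) - c i * (B - y)) - gv s c (th t) i * (1 / k t) := by
    have h3 : dv s c x y i = 0 := hi
    unfold dv at h3 ⊢
    unfold gv
    have h4 : a t = A + Real.sin (th t) / k t := by rw [hA]; ring
    have h5 : b t = B - Real.cos (th t) / k t := by rw [hB]; ring
    rw [h4, h5]
    linear_combination h3
  rw [h2] at hp
  have h3 : gv s c (th t) i * (1 / k t) < R * (1 / k t) := by linarith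
  rw [← hR]
  exact lt_of_mul_lt_mul_right h3 (by positivity)

end Pool.Agent.Lib.MP_3248c9_gt.Hy
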